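import Pool.Agent.MP_2033ac_nt.PN.DefsW

namespace Pool.Agent.MP_2033ac_nt.PN
open Finset Real Filter
open Pool.Agent.MP_71ac24_nt.H14 (ei ei_add norm_ei ei_zero conj_ei norm_ei_sub)
open Pool.Agent.MP_71ac24_nt Pool.Agent.MP_a404e6_nt.W

-- helper lemmas of this row: prefix box_

theorem box_rest {g : Fin 24 → AF} {y : Fin 24 → ℝ} {L : ℝ} (hb : ∀ i, Bd (g i) 1)
    (hs : ∀ i, Sp (g i) (y i) (y i + 1 / 20)) (h2 : ∑ i, y i ≤ L + 1) (a : Fin 24) (t : ℝ) :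
    ∏ i, ‖Dp (g i) t‖ ≤ ‖Dp (g a) t‖ * exp (L + 3 - y a) := by
  rw [← mul_prod_erase univ (fun i => ‖Dp (g i) t‖) (mem_univ a)]
  refine mul_le_mul_of_nonneg_left ?_ (norm_nonneg _)
  have e1 : ∏ i ∈ univ.erase a, ‖Dp (g i) t‖ ≤ ∏ i ∈ univ.erase a, exp (y i + 1 / 20) :=
    prod_le_prod (fun i _ => norm_nonneg _) fun i _ => by simpa using Dp_le (hs i) (hb i) t
  refine e1.trans ?_
  rw [← Real.exp_sum]
  refine exp_le_exp.2 ?_
  have e2 := add_sum_erase univ y (mem_univ a)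
  have e3 : #(univ.erase a) = 23 := by rw [card_erase_of_mem (mem_univ a)]; simp
  rw [sum_add_distrib, sum_const, e3, nsmul_eq_mul]
  push_cast
  linarith

theorem box_abs (U : ℕ) (T : Finset ℤ) (hT : T ⊆ Icc (-(U : ℤ)) U) :
    ∑ t ∈ T, |(t : ℝ)| ≤ 3 * (U : ℝ) ^ 2 := by
  have e1 : ∑ t ∈ T, |(t : ℝ)| ≤ #T • (U : ℝ) := by
    refine sum_le_card_nsmul _ _ _ fun t ht => ?_
    have := mem_Icc.1 (hT ht)
    have h : |t| ≤ (U : ℤ) := abs_le.2 this
    exact_mod_cast h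
  have e2 : #T ≤ 2 * U + 1 := by
    refine (card_le_card hT).trans ?_
    rw [Int.card_Icc]
    omega
  have e3 : (#T : ℝ) ≤ 2 * U + 1 := by exact_mod_cast e2
  have e4 : (U : ℝ) ≤ (U : ℝ) ^ 2 := by exact_mod_cast Nat.le_self_pow two_ne_zero U
  have e5 : (0 : ℝ) ≤ U := Nat.cast_nonneg U
  rw [nsmul_eq_mul] at e1
  nlinarith

theorem box_half {L X : ℝ} {A : ℕ} (hL : 0 < L) {d : ℝ} (h : X * L ^ A ≤ exp d / 2) :
    X * exp (L - d) ≤ exp L / L ^ A / 2 := by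
  have p : 0 < L ^ A := pow_pos hL A
  have q := exp_pos d
  have r := exp_pos L
  rw [exp_sub, div_div, mul_div_assoc', div_le_div_iff₀ q (by positivity)]
  nlinarith

theorem box_big (hSQ : SQ_s) {C0 L : ℝ} {A B U : ℕ} {g : Fin 24 → AF} {y : Fin 24 → ℝ}
    (hC : 0 < C0) (hL : 100 ≤ L) (hAB : A + 1 ≤ B) (E1 : 8 * C0 * exp 3 ≤ L)
    (E2 : 6 * C0 * exp 3 * L ^ A ≤ exp (1 / 40 * L)) (hb : ∀ i, Bd (g i) 1)
    (hs : ∀ i, Sp (g i) (y i) (y i + 1 / 20)) (h2 : ∑ i, y i ≤ L + 1)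
    (hU : (U : ℝ) ≤ exp (7 * L / 16)) {a : Fin 24} (ha : 9 * L / 10 < y a)
    (hm : Sm C0 (g a) (y a)) :
    ∑ t ∈ (Icc (-(U : ℤ)) U).filter (fun t : ℤ => L ^ B < |(t : ℝ)|), ∏ i, ‖Dp (g i) t‖ ≤
      exp L / L ^ A := by
  set T := (Icc (-(U : ℤ)) U).filter (fun t : ℤ => L ^ B < |(t : ℝ)|) with hT
  have L1 : (1 : ℝ) ≤ L := by linarith
  have L0 : (0 : ℝ) < L := by linarith
  have B1 : (1 : ℝ) ≤ L ^ B := one_le_pow₀ L1
  have hmem : ∀ t ∈ T, L ^ B < |(t : ℝ)| := fun t ht => (mem_filter.1 ht).2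
  have s1 := hSQ (L ^ B) T B1 hmem
  have s2 := box_abs U T (filter_subset _ _)
  have s3 : (U : ℝ) ^ 2 ≤ exp (7 * L / 8) := by
    have : exp (7 * L / 8) = exp (7 * L / 16) ^ 2 := by
      rw [← exp_nat_mul]; congr 1; push_cast; ring
    rw [this]
    exact pow_le_pow_left₀ (Nat.cast_nonneg U) hU 2
  have s4 : ∑ t ∈ T, ‖Dp (g a) t‖ ≤ C0 * (exp (y a) * (4 / L ^ B) + 3 * exp (7 * L / 8)) := by
    have : ∑ t ∈ T, ‖Dp (g a) t‖ ≤
        ∑ t ∈ T, C0 * (exp (y a) * (1 / (t : ℝ) ^ 2) + |(t : ℝ)|) := by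
      refine sum_le_sum fun t ht => ?_
      have := hm.2 (by linarith) t (by linarith [hmem t ht])
      rwa [div_eq_mul_one_div] at this
    refine this.trans ?_
    rw [← mul_sum, sum_add_distrib, ← mul_sum]
    refine mul_le_mul_of_nonneg_left (add_le_add ?_ (by linarith)) hC.le
    exact mul_le_mul_of_nonneg_left s1 (exp_pos _).le
  have s5 : ∑ t ∈ T, ∏ i, ‖Dp (g i) t‖ ≤ (∑ t ∈ T, ‖Dp (g a) t‖) * exp (L + 3 - y a) := by
    rw [sum_mul]
    exact sum_le_sum fun t _ => box_rest hb hs h2 a t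
  have s6 : exp (y a) * exp (L + 3 - y a) = exp 3 * exp L := by
    rw [← exp_add, ← exp_add]; congr 1; ring
  have s7 : exp (7 * L / 8) * exp (L + 3 - y a) ≤ exp 3 * exp (L - 1 / 40 * L) := by
    rw [← exp_add, ← exp_add]; exact exp_le_exp.2 (by linarith)
  have s8 : 3 * C0 * exp 3 * exp (L - 1 / 40 * L) ≤ exp L / L ^ A / 2 :=
    box_half L0 (by linarith)
  have s9 : C0 * exp 3 * (4 / L ^ B) ≤ 1 / L ^ A / 2 := by
    have p : 0 < L ^ A := pow_pos L0 A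
    have q : L ^ A * L ≤ L ^ B := by
      rw [← pow_succ]; exact pow_le_pow_right₀ L1 hAB
    rw [div_div, mul_div_assoc', div_le_div_iff₀ (by positivity) (by positivity)]
    nlinarith
  have s10 : C0 * exp 3 * (4 / L ^ B) * exp L ≤ 1 / L ^ A / 2 * exp L :=
    mul_le_mul_of_nonneg_right s9 (exp_pos _).le
  have s11 := mul_le_mul_of_nonneg_right s4 (exp_pos (L + 3 - y a)).le
  have s12 : C0 * (exp (y a) * (4 / L ^ B) + 3 * exp (7 * L / 8)) * exp (L + 3 - y a) =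
      C0 * (4 / L ^ B) * (exp (y a) * exp (L + 3 - y a)) +
        3 * C0 * (exp (7 * L / 8) * exp (L + 3 - y a)) := by ring
  have s13 := mul_le_mul_of_nonneg_left s7 (show 0 ≤ 3 * C0 by positivity)
  have s14 : 1 / L ^ A / 2 * exp L = exp L / L ^ A / 2 := by ring
  rw [s12, s6] at s11
  nlinarith

theorem box_row (hSQ : SQ_s) (hLVA : LVA_s) (hLVZ : LVZ_s) (hGEN : GEN_s) (hSPA : SPA_s) : BOX_s := by
  intro C0 c hC hc hc' A
  have k0 : 0 < min (c / 48) (1 / 300) := lt_min (by positivity) (by norm_num)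
  have k1 : min (c / 48) (1 / 300) ≤ c / 48 := min_le_left _ _
  have k2 : min (c / 48) (1 / 300 : ℝ) ≤ 1 / 300 := min_le_right _ _
  generalize min (c / 48) (1 / 300 : ℝ) = κ at k0 k1 k2
  obtain ⟨l0, l1, l2, hS⟩ := hSPA C0 κ k0 k2
  obtain ⟨B1, hB1⟩ := hS (A + 1)
  have e0 : 0 < c * l0 / 16 := by positivity
  refine ⟨B1 + A + 1, ?_⟩
  filter_upwards [hB1, hLVA κ _ c k0 e0 hc hc', hLVZ C0 _ c e0 hc hc',
    hGEN c κ l0 k0 (by linarith) hc' l1 l2, eventually_ge_atTop 100,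
    eventually_ge_atTop (8 * C0 * exp 3), ev_lin (6 * C0 * exp 3) (1 / 40) (by norm_num) A,
    ev_lin 2 (c * l0 / 4) (by positivity) A] with L spa lva lvz gen hL E1 E2 E3
  intro g y U hb hs hm h1 h2 hU
  have L1 : (1 : ℝ) ≤ L := by linarith
  have L0 : (0 : ℝ) < L := by linarith
  have cL : 0 ≤ c * L := by positivity
  have cL' : c * L ≤ L / 10 := by nlinarith
  have hU' : (U : ℝ) ≤ exp (7 * L / 16) := hU.trans (exp_le_exp.2 (by linarith))
  by_cases hy : ∀ i, y i ≤ 9 * L / 10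
  swap
  · push Not at hy
    obtain ⟨a, ha⟩ := hy
    refine box_big hSQ hC hL (by omega) E1 E2 hb hs h2 hU' ha ?_
    rcases hm a with h | h
    · exact h
    · have := h.2
      linarith
  obtain ⟨S, -, hS2, hS3⟩ := gen U (fun i t => ‖Dp (g i) t‖) y
    (hU'.trans (exp_le_exp.2 (by linarith))) (fun i t => norm_nonneg _)
    (fun i t => by simpa using Dp_le (hs i) (hb i) t) h1 h2 (fun i hi => by
      by_cases h : y i ≤ (1 - c) * L / 4
      · exact lva (g i) (y i) U (hb i) (hs i) hi h hU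
      · push Not at h
        refine lvz (g i) (y i) U ?_ (hs i) h.le (hy i) hU
        rcases hm i with h' | h'
        · exact h'.1
        · have := h'.2
          linarith)
  set T := (Icc (-(U : ℤ)) U).filter (fun t : ℤ => L ^ (B1 + A + 1) < |(t : ℝ)|) with hT
  have p1 : ∑ t ∈ T ∩ S, ∏ i, ‖Dp (g i) t‖ ≤ exp L / L ^ (A + 1) := by
    refine spa g y (T ∩ S) hy hb hs (fun i => (hm i).imp_left fun h => h.1) h1 h2
      (fun t ht => ?_) (le_trans ?_ hS2)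
    · obtain ⟨a1, a2⟩ := mem_filter.1 (mem_inter.1 ht).1
      refine ⟨lt_of_le_of_lt (pow_le_pow_right₀ L1 (by omega)) a2, ?_⟩
      have h : |t| ≤ (U : ℤ) := abs_le.2 (mem_Icc.1 a1)
      have h' : |(t : ℝ)| ≤ U := by exact_mod_cast h
      exact h'.trans (hU'.trans (exp_le_exp.2 (by linarith)))
    · exact_mod_cast card_le_card inter_subset_right
  have p2 : ∑ t ∈ T \ S, ∏ i, ‖Dp (g i) t‖ ≤ exp ((1 - c * l0 / 4) * L) := by
    refine le_trans (sum_le_sum_of_subset_of_nonneg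
      (sdiff_subset_sdiff (filter_subset _ _) (Subset.refl S)) fun t _ _ => ?_) hS3
    exact prod_nonneg fun i _ => norm_nonneg _
  have p3 : 1 * exp (L - c * l0 / 4 * L) ≤ exp L / L ^ A / 2 := box_half L0 (by linarith)
  have p4 : exp L / L ^ (A + 1) ≤ exp L / L ^ A / 2 := by
    have p : 0 < L ^ A := pow_pos L0 A
    rw [div_div, pow_succ]
    exact div_le_div_of_nonneg_left (exp_pos _).le (by positivity) (by nlinarith)
  have p5 : (1 - c * l0 / 4) * L = L - c * l0 / 4 * L := by ring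
  rw [p5] at p2
  rw [← sum_inter_add_sum_sdiff T S]
  linarith

end Pool.Agent.MP_2033ac_nt.PN
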