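import Pool.Agent.MP_2033ac_nt.PN.DefsW

namespace Pool.Agent.MP_2033ac_nt.PN
open Finset Real Filter
open Pool.Agent.MP_71ac24_nt.H14 (ei ei_add norm_ei ei_zero conj_ei norm_ei_sub)
open Pool.Agent.MP_71ac24_nt Pool.Agent.MP_a404e6_nt.W

-- helper lemmas of this row: prefix win_

theorem win_num {C D L σ X W V : ℝ} {A B0 : ℕ} (hC : 0 < C) (hD : 1 ≤ D) (hL : 1 ≤ L)
    (s0 : 0 < σ) (hσ : 1 ≤ σ * exp L) (h1 : 3 * C * exp 3 ≤ L)
    (hK : 3 * C * D * exp 5 * L ^ A ≤ exp (1 * L)) (hW : |W| ≤ 1 / L ^ (2 * B0 + A + 2))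
    (hX : X ≤ exp L / L ^ (A + 1)) (hV : exp (3 * L) ≤ V) :
    C * (σ * (L ^ B0) ^ 2 * |W| * exp (L + 3) + σ * X +
      D * exp (1 * (L + 11 / 5)) * exp (L + 11 / 5) / V) ≤ σ * (exp L / L ^ A) := by
  have L0 : 0 < L := by linarith
  have pA := pow_pos L0 A
  have pB := pow_pos L0 B0
  have e3 : 1 ≤ exp (3 : ℝ) := one_le_exp (by norm_num)
  set E := exp L / L ^ A with hE
  have E0 : 0 < E := by positivity
  have hC3 : 3 * C ≤ L := by nlinarith
  have t1 : C * ((L ^ B0) ^ 2 * |W| * exp (L + 3)) ≤ E / 3 := by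
    calc _ ≤ C * ((L ^ B0) ^ 2 * (1 / L ^ (2 * B0 + A + 2)) * exp (L + 3)) := by gcongr
      _ = E / 3 * (3 * C * exp 3 / L * (1 / L)) := by
          rw [hE, exp_add]; field_simp; ring
      _ ≤ E / 3 * (1 * 1) := by
          gcongr
          · exact (div_le_one L0).2 h1
          · exact (div_le_one L0).2 hL
      _ = _ := by ring
  have t2 : C * X ≤ E / 3 := by
    calc _ ≤ C * (exp L / L ^ (A + 1)) := by gcongr
      _ = E / 3 * (3 * C / L) := by rw [hE]; field_simp; ring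
      _ ≤ E / 3 * 1 := by
          gcongr
          exact (div_le_one L0).2 hC3
      _ = _ := by ring
  have t3 : C * (D * exp (1 * (L + 11 / 5)) * exp (L + 11 / 5) / V) ≤ σ * E / 3 := by
    calc _ ≤ C * (D * exp (1 * (L + 11 / 5)) * exp (L + 11 / 5) / exp (3 * L)) := by gcongr
      _ = C * D * exp (1 * (L + 11 / 5) + (L + 11 / 5) - 3 * L) := by
          rw [exp_sub, exp_add (1 * _)]; ring
      _ ≤ C * D * exp (5 - L) :=
          mul_le_mul_of_nonneg_left (exp_le_exp.2 (by linarith)) (by positivity)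
      _ = 3 * C * D * exp 5 * L ^ A / exp L / (3 * L ^ A) := by
          rw [exp_sub]; field_simp
      _ ≤ σ * exp L / (3 * L ^ A) := by
          gcongr
          refine le_trans ?_ hσ
          rw [one_mul] at hK
          exact (div_le_one (exp_pos L)).2 hK
      _ = _ := by rw [hE]; field_simp
  have t1' := mul_le_mul_of_nonneg_left t1 s0.le
  have t2' := mul_le_mul_of_nonneg_left t2 s0.le
  linarith

theorem win_row (hWL : WL_s) (hBOX : BOX_s) : WIN_s := by
  intro C0 c hC0 hc hc' A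
  obtain ⟨B0, H⟩ := hBOX C0 c hC0 hc hc' (A + 1)
  obtain ⟨C, hC, hw⟩ := hWL ⌈12 / c⌉₊
  obtain ⟨D, hD, hb⟩ := bd_ev 24 1 one_pos
  refine ⟨2 * B0 + A + 2, ?_⟩
  filter_upwards [H, ev_lin (3 * C * D * exp 5) 1 one_pos A,
    ev_lin 2 (3 * c / 16) (by positivity) 0, ev_lin 2 (1 / 3) (by norm_num) 0,
    eventually_ge_atTop (3 * C * exp 3), eventually_ge_atTop (2 : ℝ)] with L H e1 e3 e4 e5 hL
  intro g y w bg sp zg w1 w2
  rw [pow_zero, mul_one] at e3 e4
  have L1 : 1 ≤ L := by linarith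
  have cL : 0 ≤ c * L := by positivity
  have cL' : c * L ≤ 1 / 10 * L := mul_le_mul_of_nonneg_right hc' (by linarith)
  have hσ : sg c L = exp (-(7 * ((1 - 2 * c) * L) / 16)) := rfl
  generalize sg c L = σ at hσ ⊢
  have s0 : 0 < σ := hσ ▸ exp_pos _
  have s1 : σ ≤ 1 / 2 := by
    have h : σ * exp (1 / 3 * L) ≤ 1 := by
      rw [hσ, ← exp_add]
      exact exp_le_one_iff.2 (by linarith)
    nlinarith
  have s2 : 1 ≤ σ * exp L := by
    rw [hσ, ← exp_add]
    exact one_le_exp (by linarith)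
  have c1 : 1 / L ^ (2 * B0 + A + 2) ≤ 1 / 2 :=
    one_div_le_one_div_of_le two_pos (hL.trans (le_self_pow₀ L1 (by omega)))
  have sb := Sp.prod univ (a := y) (b := fun i => y i + 1 / 20) fun i _ => sp i
  rw [sum_add_distrib] at sb
  simp only [sum_const, card_univ, Fintype.card_fin, nsmul_eq_mul, Nat.cast_ofNat] at sb
  by_cases h0 : Hw σ (∏ i, g i) w = 0 ∧ Hw σ (∏ i, g i) L = 0
  · rw [h0.1, h0.2, sub_zero, abs_zero]
    positivity
  have ha : L - 2 ≤ ∑ i, y i ∧ ∑ i, y i ≤ L + 1 := by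
    rcases not_and_or.1 h0 with h | h
    · have := Hw_ne s0 sb h
      constructor <;> linarith [this.1, this.2]
    · have := Hw_ne s0 sb h
      constructor <;> linarith [this.1, this.2]
  have sb' : Sp (∏ i, g i) (∑ i, y i) (L + 11 / 5) := sb.mono le_rfl (by linarith [ha.2])
  have bb := hb (Fin 24) univ g (∑ i, y i) (L + 11 / 5) (by simp) (by linarith)
    (fun i _ => bg i) sb'
  have hDp : ∀ t : ℝ, ‖Dp (∏ i, g i) t‖ = ∏ i, ‖Dp (g i) t‖ := fun t => by
    rw [Dp_prod univ fun i _ => sp i, norm_prod]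
  have hD' : ∀ t : ℝ, ‖Dp (∏ i, g i) t‖ ≤ exp (L + 3) := fun t => by
    rw [hDp]
    calc _ ≤ ∏ i, exp (y i + 1 / 20) :=
          prod_le_prod (fun _ _ => norm_nonneg _) fun i _ => by
            simpa using Dp_le (sp i) (bg i) t
      _ = exp (∑ i, (y i + 1 / 20)) := (exp_sum _ _).symm
      _ ≤ _ := by
          refine exp_le_exp.2 ?_
          rw [sum_add_distrib]
          simp only [sum_const, card_univ, Fintype.card_fin, nsmul_eq_mul, Nat.cast_ofNat]
          linarith [ha.2]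
  have u0 : 1 ≤ exp (7 * ((1 - c) * L) / 16) := one_le_exp (by linarith)
  have u1 := Nat.floor_le (zero_le_one.trans u0)
  have u2 := Nat.lt_floor_add_one (exp (7 * ((1 - c) * L) / 16))
  have u3 : 1 ≤ ⌊exp (7 * ((1 - c) * L) / 16)⌋₊ := Nat.le_floor (by exact_mod_cast u0)
  set U := ⌊exp (7 * ((1 - c) * L) / 16)⌋₊
  have u4 : (1 : ℝ) ≤ U := by exact_mod_cast u3
  have hX := H g y U bg sp zg ha.1 ha.2 u1
  refine (hw _ σ w L (L ^ B0) _ _ _ _ U s0 (by linarith) u3 (one_le_pow₀ L1) bb sb' hD'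
    (by linarith [ha.1]) (by linarith) (by linarith [ha.1]) (by linarith)).trans ?_
  refine win_num hC hD L1 s0 s2 e5 e1 (abs_le.2 ⟨by linarith, by
    have : 0 < 1 / L ^ (2 * B0 + A + 2) := by positivity
    linarith⟩) ?_ ?_
  · exact le_trans (le_of_eq (sum_congr rfl fun t _ => hDp t)) hX
  · have h : exp (c / 4 * L) ≤ σ * U := by
      have h2 : exp (c / 4 * L) * exp (3 * c / 16 * L) =
          σ * exp (7 * ((1 - c) * L) / 16) := by
        rw [hσ, ← exp_add, ← exp_add]; ring_nf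
      have h3 : σ * exp (7 * ((1 - c) * L) / 16) ≤ σ * (2 * U) :=
        mul_le_mul_of_nonneg_left (by linarith) s0.le
      have h4 := mul_le_mul_of_nonneg_left e3 (exp_pos (c / 4 * L)).le
      linarith
    have hA : 12 ≤ (⌈12 / c⌉₊ : ℝ) * c := (div_le_iff₀ hc).1 (Nat.le_ceil _)
    calc exp (3 * L) ≤ exp (((⌈12 / c⌉₊ + 1 : ℕ) : ℝ) * (c / 4 * L)) := by
          refine exp_le_exp.2 ?_
          have := mul_le_mul_of_nonneg_right hA (zero_le_one.trans L1)
          push_cast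
          linarith
      _ = exp (c / 4 * L) ^ (⌈12 / c⌉₊ + 1) := exp_nat_mul _ _
      _ ≤ _ := by gcongr

end Pool.Agent.MP_2033ac_nt.PN
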