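import Pool.Agent.MP_2033ac_nt.PN.DefsV

/-! Primes in short intervals: the forms with a logarithmic saving. -/

namespace Pool.Agent.MP_2033ac_nt.PN
open Finset Filter

/-- the weighted form of the result -/
def FIN2_s : Prop := ∀ ε : ℝ, 0 < ε → ∀ A : ℕ, ∀ᶠ x : ℕ in atTop, ∀ H : ℕ,
  (x : ℝ) ^ (9 / 16 + ε) ≤ H → 2 * H ≤ x →
    |∑ m ∈ Ioc (x - H) x, ArithmeticFunction.vonMangoldt m - H| ≤ H / Real.log x ^ A

/-- the result -/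
def MAIN2_s : Prop := ∀ ε : ℝ, 0 < ε → ∀ A : ℕ, ∃ N : ℕ, ∀ x h : ℕ, N ≤ x →
  (x : ℝ) ^ (9 / 16 + ε) ≤ (h : ℝ) → h ≤ x →
    |(((Finset.Ioc x (x + h)).filter Nat.Prime).card : ℝ) -
      ∫ t in (x : ℝ)..(x + h : ℝ), 1 / Real.log t| ≤ (h : ℝ) / Real.log x ^ A

end Pool.Agent.MP_2033ac_nt.PN
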