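import Pool.Agent.MP_2033ac_nt.PN.DefsW
import Pool.Agent.MP_2033ac_nt.PN.DefsX

namespace Pool.Agent.MP_2033ac_nt.PN
open Finset Real Filter
open Pool.Agent.MP_71ac24_nt.H14 (ei ei_add norm_ei ei_zero conj_ei norm_ei_sub)
open Pool.Agent.MP_71ac24_nt Pool.Agent.MP_a404e6_nt.W

theorem fin2_vm {x m : ℕ} (x2 : 2 ≤ x) (hm : m ≤ 2 * x) : 0 ≤ vM m ∧ vM m ≤ 2 * Real.log x := by
  refine ⟨ArithmeticFunction.vonMangoldt_nonneg, ArithmeticFunction.vonMangoldt_le_log.trans ?_⟩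
  rcases eq_or_ne m 0 with rfl | m0
  · simpa using Real.log_natCast_nonneg x
  have := Real.log_le_log (by positivity) (show (m : ℝ) ≤ x ^ 2 by
    exact_mod_cast hm.trans (by nlinarith))
  rw [Real.log_pow] at this
  exact_mod_cast this

theorem fin2_row (hEE : EE_s) (hPNT : PNT_s) : FIN2_s := by
  intro ε hε A
  obtain ⟨c, c0, c1, cε⟩ : ∃ c : ℝ, 0 < c ∧ c ≤ 1 / 10 ∧ c ≤ ε :=
    ⟨min (1 / 10) ε, by positivity, min_le_left _ _, min_le_right _ _⟩
  obtain ⟨B, hE⟩ := hEE c c0 c1 (A + 1)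
  have tl : Tendsto (fun x : ℕ => Real.log x) atTop atTop :=
    tendsto_log_atTop.comp tendsto_natCast_atTop_atTop
  filter_upwards [hPNT (B + A + 2 + (A + 2)), tl.eventually hE,
    tl.eventually (ev_lin 240 (c / 8) (by positivity) (A + 1)),
    tl.eventually (ev_lin 2 1 one_pos (B + A + 2)), tl.eventually (ev_lin 10 (1 / 5) (by norm_num) 0),
    tl.eventually_ge_atTop 240, tl.eventually_ge_atTop 1, eventually_ge_atTop 2]
    with x hP hE g1 g2 g3 g4 L1 x2 H hH1 hH2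
  have x2' : (2 : ℝ) ≤ x := by exact_mod_cast x2
  have x0 : (0 : ℝ) < x := by linarith
  replace hH1 := (rpow_le_rpow_of_exponent_le (show (1 : ℝ) ≤ x by linarith)
    (show 9 / 16 + c ≤ 9 / 16 + ε by linarith)).trans hH1
  have hD := fun (H K : ℕ) (σ Δ : ℝ) a1 a2 a3 a4 a5 => dd (x := x) (H := H) (K := K) (σ := σ) (Δ := Δ)
    (b := vM) a1 a2 a3 a4 a5 fun m hm => fin2_vm x2 hm
  have ex := exp_log x0
  rw [rpow_def_of_pos x0] at hH1
  simp only [pow_zero, mul_one, one_mul] at g2 g3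
  generalize Real.log x = L at *
  have L0 : 0 < L := by linarith
  rw [ex] at g2 hE
  have QB : L ^ B ≤ L ^ (B + A + 2) := pow_le_pow_right₀ L1 (by omega)
  have Q2 : L ^ A * L ^ 2 ≤ L ^ (B + A + 2) := by
    rw [← pow_add]; exact pow_le_pow_right₀ L1 (by omega)
  have Q4 : L ^ (B + A + 2 + (A + 2)) = L ^ (B + A + 2) * (L ^ A * L ^ 2) := by ring
  have B0 : 0 < L ^ B := by positivity
  have Q1 : 1 ≤ L ^ (B + A + 2) := one_le_pow₀ L1
  have R0 : 0 < L ^ A := by positivity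
  rw [Q4] at hP
  rw [pow_succ L A] at hE g1
  generalize L ^ (B + A + 2) = Q at *
  generalize L ^ A = R at *
  have Q0 : 0 < Q := B0.trans_le QB
  obtain ⟨d, d0, dR⟩ : ∃ d : ℝ, 0 < d ∧ 3 * d * R = 1 := ⟨1 / (3 * R), by positivity, by field_simp⟩
  rw [show (H : ℝ) / R = 3 * d * H by rw [div_eq_iff R0.ne']; linear_combination (-H : ℝ) * dR]
  obtain ⟨K, hK⟩ : ∃ K, K = ⌊(x : ℝ) / (2 * Q)⌋₊ := ⟨_, rfl⟩
  have K1 : (K : ℝ) ≤ x / (2 * Q) := hK ▸ Nat.floor_le (by positivity)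
  have K2 : (x : ℝ) / (2 * Q) < K + 1 := hK ▸ Nat.lt_floor_add_one _
  have K0 : (1 : ℝ) ≤ K := by
    exact_mod_cast hK ▸ Nat.le_floor (by rw [Nat.cast_one, le_div_iff₀ (by positivity)]; linarith)
  rw [le_div_iff₀ (by positivity)] at K1
  rw [div_lt_iff₀ (by positivity)] at K2
  have K3 : 2 * K ≤ x := by
    have := mul_le_mul_of_nonneg_left Q1 (by linarith : (0 : ℝ) ≤ K)
    exact_mod_cast (by linarith : 2 * (K : ℝ) ≤ x)
  have dL : 80 ≤ d * (R * L) := by nlinarith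
  have K5 : (x : ℝ) / (Q * (R * L ^ 2)) ≤ d * K := by
    rw [div_le_iff₀ (by positivity)]
    have a1 := mul_le_mul_of_nonneg_right K0 Q0.le
    have a2 : 4 ≤ d * (R * L ^ 2) := by nlinarith
    have a3 := mul_le_mul_of_nonneg_right a2 (by positivity : (0 : ℝ) ≤ K * Q)
    linarith
  rcases le_total K H with KH | HK
  · have a1 : (K : ℝ) ≤ H := by exact_mod_cast KH
    have a2 := mul_le_mul_of_nonneg_left a1 d0.le
    have a3 := mul_nonneg d0.le (Nat.cast_nonneg (α := ℝ) H)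
    exact (hP H hH2).trans (by linarith)
  have inv : ∀ {a r : ℝ}, a ≤ exp (r * L) → a * exp (-r * L) ≤ 1 := fun {a r} h => by
    rwa [neg_mul, exp_neg, mul_inv_le_iff₀ (exp_pos _), one_mul]
  obtain ⟨σ, hσ⟩ : ∃ σ, σ = sg c L := ⟨_, rfl⟩
  rw [← hσ] at hE
  rw [sg] at hσ
  have s0 : 0 < σ := hσ ▸ exp_pos _
  have cL := mul_le_mul_of_nonneg_right c1 L0.le
  have s1 : σ ≤ 1 / 10 := by
    have : σ ≤ exp (-(1 / 5) * L) := hσ ▸ exp_le_exp.2 (by linarith)
    linarith [inv g3]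
  have s2 : σ * x = exp ((9 / 16 + 7 * c / 8) * L) := by rw [hσ, ← ex, ← exp_add]; congr 1; ring
  have s3 : σ * x ≤ H * exp (-(c / 8) * L) := by
    refine le_trans (le_of_eq ?_) (mul_le_mul_of_nonneg_right hH1 (exp_pos _).le)
    rw [s2, ← exp_add]; congr 1; ring
  have K4 : 2 * (K : ℝ) / x ≤ 1 / Q := by
    rw [div_le_div_iff₀ x0 Q0]; linarith
  have H0 : (0 : ℝ) < H := (exp_pos _).trans_le hH1
  have key : ∀ G : ℕ, H ≤ G → G ≤ K → |∑ m ∈ Ioc (x - G) x, vM m -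
      G * (Hw σ vM L / (σ * x))| ≤ d * G := fun G a1 a2 => by
    have a4 := hD G K σ (σ * (x / (R * L))) s0 s1 (s2 ▸ one_le_exp (by positivity)) a2 K3
      fun y y1 y2 => hE y (by linarith [one_div_le_one_div_of_le B0 QB]) y2
    have a5 : (H : ℝ) ≤ G := by exact_mod_cast a1
    have G0 : (0 : ℝ) ≤ G := by linarith
    have e2 : σ * (x / (R * L)) * G / (σ * x) = 1 / (R * L) * G := by field_simp
    have e3 : 2 * L * ((G : ℝ) * K / x + σ * x) = L * (2 * K / x) * G + 2 * L * (σ * x) := by ring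
    have b1 : L * (2 * (K : ℝ) / x) ≤ 1 / (R * L) := by
      refine (mul_le_mul_of_nonneg_left (K4.trans (one_div_le_one_div_of_le (by positivity) Q2))
        L0.le).trans_eq ?_
      field_simp
    have b2 : 1 / (R * L) ≤ d / 80 := by
      rw [div_le_div_iff₀ (by positivity) (by norm_num)]; linarith
    have b3 : L * exp (-(c / 8) * L) ≤ d / 80 := by
      have a6 := mul_le_mul_of_nonneg_left (inv g1) d0.le
      have a7 : d * (240 * (R * L) * exp (-(c / 8) * L)) = 80 * (L * exp (-(c / 8) * L)) := by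
        linear_combination 80 * (L * exp (-(c / 8) * L)) * dR
      linarith
    have b4 := mul_le_mul_of_nonneg_left
      (s3.trans (mul_le_mul_of_nonneg_right a5 (exp_pos _).le)) L0.le
    have b5 := mul_le_mul_of_nonneg_right (b1.trans b2) G0
    have b6 := mul_le_mul_of_nonneg_right b2 G0
    have b7 := mul_le_mul_of_nonneg_right b3 G0
    rw [e2, e3] at a4
    exact a4.trans (by linarith)
  have f1 := key H le_rfl HK
  have f2 := key K HK le_rfl
  have f3 := (hP K K3).trans K5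
  change |∑ m ∈ Ioc (x - K) x, vM m - K| ≤ _ at f3
  change |∑ m ∈ Ioc (x - H) x, vM m - H| ≤ _
  generalize Hw σ vM L / (σ * x) = β at f1 f2
  generalize ∑ m ∈ Ioc (x - K) x, vM m = SK at f2 f3
  generalize ∑ m ∈ Ioc (x - H) x, vM m = SH at f1 ⊢
  rw [abs_le] at f1 f2 f3 ⊢
  have f4 : β - 1 ≤ 2 * d := le_of_mul_le_mul_left (by linarith [f2.1, f3.2]) (by linarith : (0 : ℝ) < K)
  have f5 : 1 - β ≤ 2 * d := le_of_mul_le_mul_left (by linarith [f2.2, f3.1]) (by linarith : (0 : ℝ) < K)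
  have f6 := mul_le_mul_of_nonneg_left f4 H0.le
  have f7 := mul_le_mul_of_nonneg_left f5 H0.le
  constructor <;> linarith [f1.1, f1.2]

end Pool.Agent.MP_2033ac_nt.PN
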