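import Pool.Agent.MP_2033ac_nt.PN.DefsX

namespace Pool.Agent.MP_2033ac_nt.PN
open Finset Filter

-- helper lemmas of this row: prefix main2_

theorem main2_pp (a b : ℕ) (hb : 1 ≤ b) :
    |∑ m ∈ Ioc a b, ArithmeticFunction.vonMangoldt m -
      ∑ m ∈ (Ioc a b).filter Nat.Prime, Real.log m| ≤ 2 * √(b : ℝ) * Real.log b := by
  have h0 : ∀ m : ℕ, 0 ≤ ArithmeticFunction.vonMangoldt m - (if m.Prime then Real.log m else 0) := by
    intro m
    split_ifs with h
    · rw [ArithmeticFunction.vonMangoldt_apply_prime h, sub_self]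
    · rw [sub_zero]; exact ArithmeticFunction.vonMangoldt_nonneg
  rw [sum_filter, ← sum_sub_distrib, abs_of_nonneg (sum_nonneg fun m _ => h0 m)]
  refine (sum_le_sum_of_subset_of_nonneg (Ioc_subset_Ioc_left (Nat.zero_le a))
    fun m _ _ => h0 m).trans ?_
  have h1 := Chebyshev.psi_sub_theta_le (x := (b : ℝ)) (by exact_mod_cast hb)
  rwa [Chebyshev.psi, Chebyshev.theta, Nat.floor_natCast, sum_filter, ← sum_sub_distrib] at h1

theorem main2_abel (c w : ℕ → ℝ) (h : ℕ) (E : ℝ) (hD : ∀ k ≤ h, |∑ i ∈ range k, c i| ≤ E)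
    (hw : ∀ k < h, w (k + 1) ≤ w k) (w0 : 0 ≤ w h) :
    |∑ i ∈ range h, c i * w (i + 1)| ≤ E * w 0 := by
  have key : ∀ k ≤ h, |∑ i ∈ range k, c i * w (i + 1) - (∑ i ∈ range k, c i) * w k| ≤
      E * (w 0 - w k) := by
    intro k
    induction k with
    | zero => simp
    | succ k ih =>
      intro hk
      have a1 := abs_le.1 (ih (by omega))
      have a2 := abs_le.1 (hD k (by omega))
      have a3 := sub_nonneg.2 (hw k (by omega))
      have a4 := mul_le_mul_of_nonneg_right a2.1 a3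
      have a5 := mul_le_mul_of_nonneg_right a2.2 a3
      rw [sum_range_succ, sum_range_succ, abs_le]
      constructor <;> linarith [a1.1, a1.2]
  have a1 := abs_le.1 (key h le_rfl)
  have a2 := abs_le.1 (hD h le_rfl)
  have a4 := mul_le_mul_of_nonneg_right a2.1 w0
  have a5 := mul_le_mul_of_nonneg_right a2.2 w0
  rw [abs_le]
  constructor <;> linarith [a1.1, a1.2]

theorem main2_sum (f : ℕ → ℝ) (x k : ℕ) :
    ∑ m ∈ Ioc x (x + k), f m = ∑ i ∈ range k, f (x + (i + 1)) := by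
  induction k with
  | zero => simp
  | succ k ih => rw [sum_range_succ, ← ih, ← add_assoc, sum_Ioc_succ_top (Nat.le_add_right x k)]

theorem main2_int (x h : ℕ) (hx : 2 ≤ x) :
    |∑ i ∈ range h, 1 / Real.log ((x + (i + 1) : ℕ) : ℝ) -
      ∫ t in (x : ℝ)..(x + h : ℝ), 1 / Real.log t| ≤ 1 / Real.log x := by
  have x2 : (2 : ℝ) ≤ x := by exact_mod_cast hx
  have an : AntitoneOn (fun t : ℝ => 1 / Real.log t) (Set.Icc (x : ℝ) (x + h)) :=
    fun s hs t _ st => one_div_le_one_div_of_le (Real.log_pos (by linarith [hs.1]))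
      (Real.log_le_log (by linarith [hs.1]) st)
  have a1 := an.integral_le_sum
  have a2 := an.sum_le_integral
  have a3 := sum_range_succ (fun i : ℕ => 1 / Real.log ((x : ℝ) + i)) h
  have a4 := sum_range_succ' (fun i : ℕ => 1 / Real.log ((x : ℝ) + i)) h
  have a5 : 0 ≤ 1 / Real.log ((x : ℝ) + h) :=
    one_div_nonneg.2 (Real.log_nonneg (by linarith [Nat.cast_nonneg (α := ℝ) h]))
  have a6 : 0 ≤ 1 / Real.log (x : ℝ) := one_div_nonneg.2 (Real.log_nonneg (by linarith))
  simp only [Nat.cast_zero, add_zero] at a4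
  simp only [Nat.cast_add x]
  rw [abs_le]
  constructor <;> linarith

theorem main2_row (hFIN2 : FIN2_s) : MAIN2_s := by
  intro ε hε A
  obtain ⟨N, hN⟩ := eventually_atTop.1 (hFIN2 (ε / 2) (half_pos hε) A)
  have c0 : (0 : ℝ) < 4 * 2 ^ (9 / 16 + ε / 2) := by positivity
  have e1 : ∀ᶠ x : ℕ in atTop, 4 * 2 ^ (9 / 16 + ε / 2) * Real.log x ^ (A + 1) ≤
      (x : ℝ) ^ (ε / 2) := by
    have := (isLittleO_log_rpow_rpow_atTop ((A + 1 : ℕ) : ℝ) (half_pos hε)).bound (inv_pos.2 c0)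
    filter_upwards [tendsto_natCast_atTop_atTop.eventually this] with x hx
    rw [Real.norm_eq_abs, Real.norm_eq_abs, Real.rpow_natCast,
      abs_of_nonneg (Real.rpow_nonneg (Nat.cast_nonneg x) _), le_inv_mul_iff₀ c0] at hx
    exact (mul_le_mul_of_nonneg_left (le_abs_self _) c0.le).trans hx
  have e3 : ∀ᶠ x : ℕ in atTop, 3 ≤ Real.log x :=
    (Real.tendsto_log_atTop.comp tendsto_natCast_atTop_atTop).eventually_ge_atTop _
  obtain ⟨N', hN'⟩ := eventually_atTop.1 (e1.and e3)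
  refine ⟨N + N' + 2, fun x h hx h1 h2 => ?_⟩
  obtain ⟨a1, a3⟩ := hN' x (by omega)
  have x2 : (2 : ℝ) ≤ x := by exact_mod_cast (by omega : 2 ≤ x)
  have x0 : (0 : ℝ) < x := by linarith
  have L0 : 0 < Real.log x := by linarith
  have LA : 0 < Real.log x ^ A := pow_pos L0 A
  obtain ⟨Y, hY⟩ : ∃ Y : ℝ, Y = (2 * x : ℝ) ^ (9 / 16 + ε / 2) := ⟨_, rfl⟩
  obtain ⟨E, hE⟩ : ∃ E : ℝ, E = (h : ℝ) / Real.log x ^ A := ⟨_, rfl⟩
  have Y1 : 1 ≤ Y := hY ▸ Real.one_le_rpow (by linarith) (by positivity)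
  have YE : 4 * (Y * Real.log x) ≤ E := by
    rw [hE, le_div_iff₀ LA, hY, Real.mul_rpow zero_le_two x0.le]
    refine le_trans ?_ h1
    rw [(by ring : 9 / 16 + ε = ε / 2 + (9 / 16 + ε / 2)), Real.rpow_add x0 (ε / 2)]
    refine le_trans (le_of_eq ?_) (mul_le_mul_of_nonneg_right a1 (by positivity))
    ring
  have YL : Y * 3 ≤ Y * Real.log x := mul_le_mul_of_nonneg_left a3 (by linarith)
  have lg : ∀ m : ℕ, x ≤ m → Real.log x ≤ Real.log m := fun m hm =>
    Real.log_le_log x0 (by exact_mod_cast hm)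
  have lX : ∀ m : ℕ, 0 < m → m ≤ 2 * x → Real.log m ≤ 2 * Real.log x := fun m m0 hm => by
    have : Real.log m ≤ Real.log (2 * x) :=
      Real.log_le_log (by exact_mod_cast m0) (by exact_mod_cast hm)
    rw [Real.log_mul two_ne_zero x0.ne'] at this
    linarith [Real.log_le_log two_pos x2]
  have hD : ∀ k ≤ h, |∑ m ∈ (Ioc x (x + k)).filter Nat.Prime, Real.log m - k| ≤ 2 * E := by
    intro k hk
    have X2 : ((x + k : ℕ) : ℝ) ≤ 2 * x := by exact_mod_cast (by omega : x + k ≤ 2 * x)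
    have k0 : (0 : ℝ) ≤ k := Nat.cast_nonneg k
    by_cases hc : ((x + k : ℕ) : ℝ) ^ (9 / 16 + ε / 2) ≤ k
    · have b2 := hN (x + k) (by omega) k hc (by omega)
      rw [Nat.add_sub_cancel] at b2
      have b3 := main2_pp x (x + k) (by omega)
      have b4 : (k : ℝ) / Real.log ((x + k : ℕ) : ℝ) ^ A ≤ E := hE ▸
        div_le_div₀ (Nat.cast_nonneg h) (by exact_mod_cast hk) LA
          (pow_le_pow_left₀ L0.le (lg _ (by omega)) A)
      have c1 : √((x + k : ℕ) : ℝ) ≤ Y := by
        refine (Real.sqrt_le_sqrt X2).trans ?_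
        rw [Real.sqrt_eq_rpow, hY]
        exact Real.rpow_le_rpow_of_exponent_le (by linarith) (by linarith)
      have c4 := mul_le_mul c1 (lX (x + k) (by omega) (by omega)) (Real.log_natCast_nonneg _)
        (by linarith)
      obtain ⟨d1, d2⟩ := abs_le.1 b2
      obtain ⟨d3, d4⟩ := abs_le.1 b3
      rw [abs_le]
      constructor <;> linarith
    · have kY : (k : ℝ) ≤ Y := hY ▸ (not_le.1 hc).le.trans
        (Real.rpow_le_rpow (Nat.cast_nonneg _) X2 (by positivity))
      have s0 : 0 ≤ ∑ m ∈ (Ioc x (x + k)).filter Nat.Prime, Real.log m :=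
        sum_nonneg fun m _ => Real.log_natCast_nonneg m
      have s1 : ∑ m ∈ (Ioc x (x + k)).filter Nat.Prime, Real.log m ≤ k * (2 * Real.log x) := by
        refine (sum_le_sum_of_subset_of_nonneg (filter_subset _ _)
          fun m _ _ => Real.log_natCast_nonneg m).trans ?_
        refine (sum_le_card_nsmul _ _ (2 * Real.log x) fun m hm => ?_).trans (by simp)
        obtain ⟨p1, p2⟩ := mem_Ioc.1 hm
        exact lX m (by omega) (by omega)
      have s2 := mul_le_mul_of_nonneg_right kY L0.le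
      rw [abs_le]
      constructor <;> linarith
  have ab := main2_abel (fun i => (if (x + (i + 1)).Prime then Real.log ((x + (i + 1) : ℕ) : ℝ)
    else 0) - 1) (fun i => 1 / Real.log ((x + i : ℕ) : ℝ)) h (2 * E)
    (fun k hk => by
      have := hD k hk
      rw [sum_filter, main2_sum] at this
      simpa [sum_sub_distrib] using this)
    (fun k _ => one_div_le_one_div_of_le (L0.trans_le (lg _ (by omega)))
      (Real.log_le_log (by exact_mod_cast (by omega : 0 < x + k))
        (by exact_mod_cast (by omega : x + k ≤ x + (k + 1)))))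
    (one_div_nonneg.2 (Real.log_natCast_nonneg _))
  have eq : ∑ i ∈ range h, ((if (x + (i + 1)).Prime then Real.log ((x + (i + 1) : ℕ) : ℝ)
      else 0) - 1) * (1 / Real.log ((x + (i + 1) : ℕ) : ℝ)) =
      (((Ioc x (x + h)).filter Nat.Prime).card : ℝ) -
        ∑ i ∈ range h, 1 / Real.log ((x + (i + 1) : ℕ) : ℝ) := by
    rw [card_filter, Nat.cast_sum, main2_sum, ← sum_sub_distrib]
    refine sum_congr rfl fun i _ => ?_
    have := (L0.trans_le (lg (x + (i + 1)) (by omega))).ne'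
    split_ifs
    · rw [sub_mul, mul_one_div_cancel this, one_mul, Nat.cast_one]
    · simp
  rw [eq, Nat.add_zero] at ab
  obtain ⟨d1, d2⟩ := abs_le.1 ab
  obtain ⟨d3, d4⟩ := abs_le.1 (main2_int x h (by omega))
  have i3 : 1 / Real.log x ≤ 1 / 3 := one_div_le_one_div_of_le three_pos a3
  have i4 := mul_le_mul_of_nonneg_left i3 (by linarith : 0 ≤ 2 * E)
  rw [← hE, abs_le]
  constructor <;> linarith

end Pool.Agent.MP_2033ac_nt.PN
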