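import Pool.Agent.MP_2033ac_nt.PN.DefsW

namespace Pool.Agent.MP_2033ac_nt.PN
open Finset Real Filter
open Pool.Agent.MP_71ac24_nt.H14 (ei ei_add norm_ei ei_zero conj_ei norm_ei_sub)
open Pool.Agent.MP_71ac24_nt Pool.Agent.MP_a404e6_nt.W

-- helper lemmas of this row: prefix ee_

theorem ee_row (hHB : HB_s) (hZ2 : Z2_s) (hWIN : WIN_s) : EE_s := by
  intro c hc hc' A
  obtain ⟨C0, hC0, hz⟩ := hZ2
  obtain ⟨B, hb⟩ := hWIN C0 c hC0 hc hc' (A + 26)
  refine ⟨B, ?_⟩
  filter_upwards [hb, eventually_ge_atTop (24000 * 41 ^ 24 : ℝ),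
    eventually_ge_atTop (100 : ℝ)] with L hb hev hL w w1 w2
  have hσ1 : sg c L ≤ 1 / 2 := by
    have h2 : sg c L ≤ exp (-1) := exp_le_exp.2 (by nlinarith)
    have h3 := add_one_le_exp (1 : ℝ)
    rw [exp_neg] at h2
    exact h2.trans (by rw [one_div]; exact inv_anti₀ two_pos (by linarith))
  have hσ0 : 0 < sg c L := exp_pos _
  generalize sg c L = σ at hb hσ0 hσ1 ⊢
  obtain ⟨z, hz1, hz2, hz3⟩ : ∃ z : ℕ, 1 ≤ z ∧ L + 1 ≤ 12 * Real.log z ∧
      Real.log z ≤ L / 12 + 1 := by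
    have e0 := exp_pos ((L + 1) / 12)
    have e1 := Nat.le_ceil (exp ((L + 1) / 12))
    have e2 := Nat.ceil_lt_add_one e0.le
    have e3 : 1 ≤ exp ((L + 1) / 12) := one_le_exp (by positivity)
    refine ⟨⌈exp ((L + 1) / 12)⌉₊, Nat.ceil_pos.2 e0, ?_, ?_⟩
    · have := Real.log_le_log e0 e1
      rw [Real.log_exp] at this
      linarith
    · have := Real.log_le_log (e0.trans_le e1) (show _ ≤ 2 * exp ((L + 1) / 12) by linarith)
      rw [Real.log_mul two_ne_zero e0.ne', Real.log_exp] at this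
      linarith [Real.log_two_lt_d9]
  obtain ⟨a, g, ha, hg, hv⟩ := hHB z (L + 2) hz1 (by linarith)
  obtain ⟨J, hJ1, hJ2⟩ : ∃ J : ℕ, 40 * (L + 1) + 1 ≤ J ∧ (J : ℝ) < 40 * (L + 1) + 2 :=
    ⟨⌈40 * (L + 1) + 1⌉₊, Nat.le_ceil _, by
      linarith [Nat.ceil_lt_add_one (show 0 ≤ 40 * (L + 1) + 1 by positivity)]⟩
  have hE : Eqv (L + 1) vM (∑ j ∈ range 12, a j •
      ∑ l ∈ Fintype.piFinset fun _ : Fin 24 => range J,
        ∏ i, pc (g j i) (((l i : ℝ) - 1) / 40)) := by
    have e1 : Eqv (L + 1) vM (∑ j ∈ range 12, a j • ∏ i, ∑ l ∈ range J,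
        pc (g j i) (((l : ℝ) - 1) / 40)) := fun n hn => by
      rw [hv n (hn.trans hz2)]
      refine ee_sum _ (fun j _ m hm => ?_) n hn
      rw [ArithmeticFunction.smul_map, ArithmeticFunction.smul_map,
        Eqv.prod univ (fun i _ => part (g j i) hJ1) m hm]
    refine fun n hn => (e1 n hn).trans (congrArg (fun f : AF => f n) ?_)
    exact sum_congr rfl fun j _ => by rw [prod_univ_sum]
  rw [Hw_congr hE (by linarith), Hw_congr hE (by linarith)]
  have L0 : 0 < L := by linarith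
  have hE0 : 0 ≤ σ * (exp L / L ^ (A + 26)) := by positivity
  refine (ee_dsum _ σ w L _ (E := 1000 * (L + 2) * (J ^ 24 * (σ * (exp L / L ^ (A + 26)))))
    fun j _ => ?_).trans ?_
  · rw [Hw_smul, Hw_smul, ← mul_sub, abs_mul]
    refine mul_le_mul (ha j) ((ee_dsum _ σ w L _ (E := σ * (exp L / L ^ (A + 26)))
      fun l hl => ?_).trans_eq ?_) (abs_nonneg _) (by positivity)
    · by_cases h2 : ∃ i, pc (g j i) (((l i : ℝ) - 1) / 40) = 0
      · obtain ⟨i, hi⟩ := h2
        rw [prod_eq_zero (mem_univ i) hi]; exact ee_zero σ w L hE0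
      push Not at h2
      have h3 : ∀ i, -(1 / 20) ≤ ((l i : ℝ) - 1) / 40 := fun i => by
        linarith [Nat.cast_nonneg (α := ℝ) (l i)]
      have h4 : ∀ i, ((l i : ℝ) - 1) / 40 ≤ L + 1 := fun i => by
        have : ((l i + 1 : ℕ) : ℝ) ≤ J := by
          exact_mod_cast mem_range.1 (Fintype.mem_piFinset.1 hl i)
        push_cast at this
        linarith
      refine hb _ _ w (fun i => ?_) (fun i => pc_sp _ _) (fun i => ?_) w1 w2
      · rcases hg j i with ⟨_, -, h, -⟩ | h | h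
        · exact pc_bd h _
        · rw [h]; exact pc_bd ee_ze _
        · rw [h]; exact ee_lg (by linarith) (by linarith [h4 i])
      · rcases hg j i with ⟨z', h, -, h'⟩ | h | h
        · exact Or.inr ⟨⟨z', by rw [h]⟩, (ee_ne h' (h2 i)).2.trans hz3⟩
        · rw [h]; exact Or.inl (hz _).1
        · rw [h]
          exact Or.inl ((hz _).2 _ (by linarith) (abs_le.2 ⟨by linarith [h3 i], by linarith [h4 i]⟩))
    · rw [Fintype.card_piFinset, prod_const, card_range, card_univ, Fintype.card_fin, Nat.cast_pow]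
  · rw [card_range]
    have h5 : (J : ℝ) ≤ 41 * L := by linarith
    calc ((12 : ℕ) : ℝ) * (1000 * (L + 2) * (J ^ 24 * (σ * (exp L / L ^ (A + 26)))))
        ≤ (12 : ℕ) * (1000 * (2 * L) * ((41 * L) ^ 24 * (σ * (exp L / L ^ (A + 26))))) := by
          gcongr; linarith
      _ = 24000 * 41 ^ 24 * (σ * (exp L / L ^ A) / L) := by push_cast; field_simp; ring
      _ ≤ L * (σ * (exp L / L ^ A) / L) := by gcongr
      _ = _ := by field_simp

end Pool.Agent.MP_2033ac_nt.PN
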