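import Pool.Agent.MP_2033ac_nt.PN.DefsW

namespace Pool.Agent.MP_2033ac_nt.PN
open Finset Real Filter
open Pool.Agent.MP_71ac24_nt.H14 (ei ei_add norm_ei ei_zero conj_ei norm_ei_sub)
open Pool.Agent.MP_71ac24_nt Pool.Agent.MP_a404e6_nt.W

-- helper lemmas of this row: prefix gen_

/-- the points where some long factor is large at level `l` -/
noncomputable def gen_S (U : ℕ) (F : Fin 24 → ℤ → ℝ) (y : Fin 24 → ℝ) (a l : ℝ) : Finset ℤ :=
  (univ.filter fun i : Fin 24 => a ≤ y i).biUnion fun i =>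
    {t ∈ Icc (-(U : ℤ)) U | exp ((1 - l) * y i) ≤ F i t}

theorem gen_sub (U : ℕ) (F : Fin 24 → ℤ → ℝ) (y : Fin 24 → ℝ) (a l : ℝ) :
    gen_S U F y a l ⊆ Icc (-(U : ℤ)) U :=
  biUnion_subset.2 fun _ _ => filter_subset _ _

theorem gen_card {U : ℕ} {F : Fin 24 → ℤ → ℝ} {y : Fin 24 → ℝ} {a l B : ℝ} (hB : 0 ≤ B)
    (h : ∀ i, a ≤ y i → cnt U (F i) (exp ((1 - l) * y i)) ≤ B) :
    (#(gen_S U F y a l) : ℝ) ≤ 24 * B := by
  have h1 : (#(gen_S U F y a l) : ℝ) ≤ ∑ i ∈ univ.filter fun i : Fin 24 => a ≤ y i,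
      cnt U (F i) (exp ((1 - l) * y i)) := by
    unfold cnt gen_S
    exact_mod_cast card_biUnion_le
  refine h1.trans ((sum_le_sum fun i hi => h i (mem_filter.1 hi).2).trans ?_)
  rw [sum_const, nsmul_eq_mul]
  refine mul_le_mul_of_nonneg_right ?_ hB
  have := card_filter_le (univ : Finset (Fin 24)) fun i => a ≤ y i
  rw [card_univ, Fintype.card_fin] at this
  exact_mod_cast this

theorem gen_off {U : ℕ} {F : Fin 24 → ℤ → ℝ} {y : Fin 24 → ℝ} {a l : ℝ} (ha : 0 ≤ a) (hl : 0 ≤ l)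
    (h0 : ∀ i t, 0 ≤ F i t) (h1 : ∀ i t, F i t ≤ exp (y i + 1 / 20)) {t : ℤ}
    (ht : t ∈ Icc (-(U : ℤ)) U \ gen_S U F y a l) :
    ∏ i, F i t ≤ exp ((1 - l) * ∑ i, y i + 24 * (1 / 20 + l * a)) := by
  have la := mul_nonneg hl ha
  have hi : ∀ i, F i t ≤ exp ((1 - l) * y i + (1 / 20 + l * a)) := fun i => by
    rcases le_or_gt a (y i) with h | h
    · have : ¬ exp ((1 - l) * y i) ≤ F i t := fun g => (mem_sdiff.1 ht).2
        (mem_biUnion.2 ⟨i, mem_filter.2 ⟨mem_univ _, h⟩, mem_filter.2 ⟨(mem_sdiff.1 ht).1, g⟩⟩)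
      exact (not_le.1 this).le.trans (exp_le_exp.2 (by linarith))
    · refine (h1 i t).trans (exp_le_exp.2 ?_)
      have := mul_le_mul_of_nonneg_left h.le hl
      linarith
  refine (prod_le_prod (fun i _ => h0 i t) fun i _ => hi i).trans (le_of_eq ?_)
  rw [← exp_sum, sum_add_distrib, ← mul_sum, sum_const, card_univ, Fintype.card_fin, nsmul_eq_mul]
  norm_num

theorem gen_step {I S T : Finset ℤ} {P : ℤ → ℝ} {B : ℝ} (hB : 0 ≤ B) (h0 : ∀ t, 0 ≤ P t)
    (h : ∀ t ∈ I \ S, P t ≤ B) : ∑ t ∈ I \ S, P t ≤ #T * B + ∑ t ∈ I \ T, P t := by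
  rw [← sum_filter_add_sum_filter_not (I \ S) fun t => t ∈ T]
  refine add_le_add ?_ (sum_le_sum_of_subset_of_nonneg (fun t ht => ?_) fun t _ _ => h0 t)
  · refine (sum_le_sum fun t ht => h t (mem_filter.1 ht).1).trans ?_
    rw [sum_const, nsmul_eq_mul]
    refine mul_le_mul_of_nonneg_right ?_ hB
    exact_mod_cast card_le_card fun t ht => (mem_filter.1 ht).2
  · exact mem_sdiff.2 ⟨(mem_sdiff.1 (mem_filter.1 ht).1).1, (mem_filter.1 ht).2⟩

theorem gen_row : GEN_s := by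
  intro c κ l0 hκ hκc hc hl0 hl1
  have c0 : 0 < c := by linarith
  have cl : 0 < c * l0 := mul_pos c0 hl0
  have cl1 : c * l0 ≤ l0 / 10 := by nlinarith
  obtain ⟨J, hJ⟩ := exists_nat_ge (1 / (c * l0 / 16))
  rw [div_le_iff₀ (by positivity)] at hJ
  filter_upwards [mv_ev 24 (half_pos hl0), mv_ev ((24 * J + 3) * exp 5) (δ := c * l0 / 8)
    (by positivity), bx_ev (half_pos c0) 2, eventually_ge_atTop (3 : ℝ)] with L e1 e2 e3 hL
  intro U F y hU h0 h1 y1 y2 hLV
  have L0 : 0 ≤ L := by linarith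
  have κL : 0 ≤ κ * L := by positivity
  have κc := mul_le_mul_of_nonneg_right hκc L0
  have cL := mul_le_mul_of_nonneg_right hc L0
  have clL := mul_le_mul_of_nonneg_right cl1 L0
  have lL := mul_le_mul_of_nonneg_right hl1 L0
  have lL0 := mul_nonneg hl0.le L0
  have clL0 := mul_nonneg cl.le L0
  have P0 : ∀ t, 0 ≤ ∏ i, F i t := fun t => prod_nonneg fun i _ => h0 i t
  have hcard : ∀ l : ℝ, 0 ≤ l → (#(gen_S U F y (κ * L) l) : ℝ) ≤
      24 * exp (c * l0 / 16 * L + (1 - c) * l * L) := fun l hl =>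
    gen_card (exp_pos _).le fun i hi => hLV i hi l hl
  have hoff : ∀ l : ℝ, 0 ≤ l → ∀ t ∈ Icc (-(U : ℤ)) U \ gen_S U F y (κ * L) l,
      ∏ i, F i t ≤ exp (L + 3 - l * ((1 - c / 2) * L - 2)) := fun l hl t ht => by
    refine (gen_off κL hl h0 h1 ht).trans (exp_le_exp.2 ?_)
    have a1 := mul_le_mul_of_nonneg_left y1 hl
    have a2 := mul_le_mul_of_nonneg_left κc hl
    nlinarith
  set E := exp 5 * exp ((1 - 3 * (c * l0) / 8) * L) with hE
  have hind : ∀ j : ℕ, ∑ t ∈ Icc (-(U : ℤ)) U \ gen_S U F y (κ * L) l0, ∏ i, F i t ≤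
      j * (24 * E) +
        ∑ t ∈ Icc (-(U : ℤ)) U \ gen_S U F y (κ * L) (l0 + j * (c * l0 / 16)), ∏ i, F i t := by
    intro j
    induction j with
    | zero => simp
    | succ j ih =>
      have hj : 0 ≤ (j : ℝ) * (c * l0 / 16) := by positivity
      set l := l0 + j * (c * l0 / 16) with hl
      have l1 : l0 ≤ l := by linarith
      have hs := gen_step (T := gen_S U F y (κ * L) (l + c * l0 / 16)) (exp_pos _).le P0
        (hoff l (by linarith))
      have hb : (#(gen_S U F y (κ * L) (l + c * l0 / 16)) : ℝ) *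
          exp (L + 3 - l * ((1 - c / 2) * L - 2)) ≤ 24 * E := by
        refine (mul_le_mul_of_nonneg_right (hcard _ (by linarith)) (exp_pos _).le).trans ?_
        rw [mul_assoc, ← exp_add, hE, ← exp_add]
        refine mul_le_mul_of_nonneg_left (exp_le_exp.2 ?_) (by norm_num)
        have a1 := mul_le_mul_of_nonneg_right l1 (sub_nonneg.2 e3)
        have a2 := mul_nonneg c0.le clL0
        nlinarith
      rw [show l0 + ((j + 1 : ℕ) : ℝ) * (c * l0 / 16) = l + c * l0 / 16 by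
        rw [hl]; push_cast; ring]
      push_cast
      linarith
  refine ⟨gen_S U F y (κ * L) l0, gen_sub _ _ _ _ _, (hcard l0 hl0.le).trans ?_,
    (hind J).trans ?_⟩
  · refine (mul_le_mul_of_nonneg_right e1 (exp_pos _).le).trans ?_
    rw [← exp_add]
    refine exp_le_exp.2 ?_
    nlinarith
  · set l := l0 + J * (c * l0 / 16) with hl
    have l1 : 1 ≤ l := by linarith
    have hlast : ∑ t ∈ Icc (-(U : ℤ)) U \ gen_S U F y (κ * L) l, ∏ i, F i t ≤ 3 * E := by
      refine (sum_le_sum (hoff l (by linarith))).trans ?_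
      rw [sum_const, nsmul_eq_mul]
      have k1 : (#(Icc (-(U : ℤ)) U \ gen_S U F y (κ * L) l) : ℝ) ≤ 3 * exp (L / 2) := by
        have h := card_le_card (sdiff_subset (s := Icc (-(U : ℤ)) U)
          (t := gen_S U F y (κ * L) l))
        rw [Int.card_Icc, show ((U : ℤ) + 1 - -U).toNat = 2 * U + 1 by omega] at h
        have h' : (#(Icc (-(U : ℤ)) U \ gen_S U F y (κ * L) l) : ℝ) ≤ 2 * U + 1 := by
          exact_mod_cast h
        have := one_le_exp (x := L / 2) (by linarith)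
        linarith
      refine (mul_le_mul_of_nonneg_right k1 (exp_pos _).le).trans ?_
      rw [mul_assoc, ← exp_add, hE, ← exp_add]
      refine mul_le_mul_of_nonneg_left (exp_le_exp.2 ?_) (by norm_num)
      have a1 := mul_le_mul_of_nonneg_right l1 (show 0 ≤ (1 - c / 2) * L - 2 by nlinarith)
      nlinarith
    calc _ ≤ J * (24 * E) + 3 * E := by linarith
      _ = (24 * J + 3) * exp 5 * exp ((1 - 3 * (c * l0) / 8) * L) := by rw [hE]; ring
      _ ≤ exp (c * l0 / 8 * L) * exp ((1 - 3 * (c * l0) / 8) * L) := by gcongr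
      _ = _ := by rw [← exp_add]; ring_nf

end Pool.Agent.MP_2033ac_nt.PN
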