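import Pool.Agent.MP_2033ac_nt.PN.DefsW

namespace Pool.Agent.MP_2033ac_nt.PN
open Finset Real Filter
open Pool.Agent.MP_71ac24_nt.H14 (ei ei_add norm_ei ei_zero conj_ei norm_ei_sub)
open Pool.Agent.MP_71ac24_nt Pool.Agent.MP_a404e6_nt.W

-- helper lemmas of this row: prefix hal_

theorem hal_dual (I : Finset ℕ) (S : Finset ℤ) (a : ℕ → ℂ) (ha : ∀ n, ‖a n‖ ≤ 1) (R : ℝ)
    (hR0 : 0 ≤ R)
    (hR : ∀ t ∈ S, ∑ u ∈ S, ‖∑ n ∈ I, ei (((t : ℝ) - u) * Real.log n)‖ ≤ R) :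
    ∑ t ∈ S, ‖∑ n ∈ I, a n * ei (t * Real.log n)‖ ^ 2 ≤ #I * R := by
  set F : ℤ → ℂ := fun t => ∑ n ∈ I, a n * ei (t * Real.log n) with hF
  set G : ℕ → ℂ := fun n => ∑ t ∈ S, (starRingEnd ℂ) (F t) * ei (t * Real.log n) with hG
  set K : ℤ → ℤ → ℝ := fun t u => ‖∑ n ∈ I, ei (((t : ℝ) - u) * Real.log n)‖ with hK
  show ∑ t ∈ S, ‖F t‖ ^ 2 ≤ #I * R
  set Q := ∑ t ∈ S, ‖F t‖ ^ 2 with hQ
  have Q0 : 0 ≤ Q := sum_nonneg fun _ _ => sq_nonneg _
  have Ks : ∀ t u, K t u = K u t := fun t u => by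
    simp only [hK]
    rw [← Complex.norm_conj, map_sum]
    congr 1
    refine sum_congr rfl fun n _ => ?_
    rw [conj_ei]; congr 1; ring
  have e1 : (Q : ℂ) = ∑ n ∈ I, a n * G n := by
    simp only [hG, mul_sum]
    rw [sum_comm, hQ, Complex.ofReal_sum]
    refine sum_congr rfl fun t _ => ?_
    rw [Complex.ofReal_pow, ← Complex.conj_mul']
    conv_lhs => rw [show (starRingEnd ℂ) (F t) * F t =
      (starRingEnd ℂ) (F t) * ∑ n ∈ I, a n * ei (t * Real.log n) from rfl, mul_sum]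
    exact sum_congr rfl fun n _ => by ring
  have h1 : Q ≤ ∑ n ∈ I, ‖G n‖ := by
    calc Q = ‖(Q : ℂ)‖ := by rw [Complex.norm_real, Real.norm_of_nonneg Q0]
      _ ≤ ∑ n ∈ I, ‖G n‖ := by
        rw [e1]
        refine norm_sum_le_of_le _ fun n _ => ?_
        rw [norm_mul]
        exact mul_le_of_le_one_left (norm_nonneg _) (ha n)
  have e2 : ((∑ n ∈ I, ‖G n‖ ^ 2 : ℝ) : ℂ) = ∑ t ∈ S, ∑ u ∈ S,
      (starRingEnd ℂ) (F t) * F u * ∑ n ∈ I, ei (((t : ℝ) - u) * Real.log n) := by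
    rw [Complex.ofReal_sum]
    have : ∀ n ∈ I, ((‖G n‖ ^ 2 : ℝ) : ℂ) = ∑ t ∈ S, ∑ u ∈ S,
        (starRingEnd ℂ) (F t) * F u * ei (((t : ℝ) - u) * Real.log n) := fun n _ => by
      rw [Complex.ofReal_pow, ← Complex.mul_conj']
      simp only [hG]
      rw [map_sum, sum_mul_sum]
      refine sum_congr rfl fun t _ => sum_congr rfl fun u _ => ?_
      rw [map_mul, Complex.conj_conj, conj_ei,
        show ((t : ℝ) - u) * Real.log n = t * Real.log n + -(u * Real.log n) by ring, ei_add]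
      ring
    rw [sum_congr rfl this, sum_comm]
    refine sum_congr rfl fun t _ => ?_
    rw [sum_comm]
    exact sum_congr rfl fun u _ => (mul_sum _ _ _).symm
  have h2 : ∑ n ∈ I, ‖G n‖ ^ 2 ≤ Q * R := by
    have g0 : 0 ≤ ∑ n ∈ I, ‖G n‖ ^ 2 := sum_nonneg fun _ _ => sq_nonneg _
    have a1 : ∑ t ∈ S, ∑ u ∈ S, ‖F t‖ ^ 2 * K t u ≤ Q * R := by
      rw [hQ, sum_mul]
      refine sum_le_sum fun t ht => ?_
      rw [← mul_sum]
      exact mul_le_mul_of_nonneg_left (hR t ht) (sq_nonneg _)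
    have a2 : ∑ t ∈ S, ∑ u ∈ S, ‖F u‖ ^ 2 * K t u ≤ Q * R := by
      rw [sum_comm]
      simpa only [Ks] using a1
    calc ∑ n ∈ I, ‖G n‖ ^ 2 = ‖((∑ n ∈ I, ‖G n‖ ^ 2 : ℝ) : ℂ)‖ := by
          rw [Complex.norm_real, Real.norm_of_nonneg g0]
      _ ≤ ∑ t ∈ S, ∑ u ∈ S, (‖F t‖ ^ 2 * K t u + ‖F u‖ ^ 2 * K t u) / 2 := by
          rw [e2]
          refine norm_sum_le_of_le _ fun t _ => norm_sum_le_of_le _ fun u _ => ?_
          rw [norm_mul, norm_mul, Complex.norm_conj]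
          have k0 : 0 ≤ K t u := norm_nonneg _
          show ‖F t‖ * ‖F u‖ * K t u ≤ _
          nlinarith [mul_nonneg (sq_nonneg (‖F t‖ - ‖F u‖)) k0]
      _ ≤ Q * R := by
          simp only [← sum_div, sum_add_distrib]
          linarith
  have h3 : Q ^ 2 ≤ #I * (Q * R) := by
    calc Q ^ 2 ≤ (∑ n ∈ I, ‖G n‖) ^ 2 := pow_le_pow_left₀ Q0 h1 2
      _ ≤ #I * ∑ n ∈ I, ‖G n‖ ^ 2 := sq_sum_le_card_mul_sum_sq
      _ ≤ _ := mul_le_mul_of_nonneg_left h2 (Nat.cast_nonneg _)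
  rcases Q0.eq_or_lt with h | h
  · rw [← h]; positivity
  · nlinarith

theorem hal_harm (S : Finset ℤ) (t : ℤ) (N : ℕ) (h : ∀ u ∈ S, |t - u| ≤ N) :
    ∑ u ∈ S.erase t, 1 / |(t : ℝ) - u| ≤ 2 * (1 + Real.log N) := by
  have hh : ∑ d ∈ Icc 1 N, (1 : ℝ) / d ≤ 1 + Real.log N := by
    have := harmonic_le_one_add_log N
    rw [harmonic_eq_sum_Icc] at this
    simpa using this
  have hs : S.erase t ⊆ (Icc 1 N).image (fun d : ℕ => t + d) ∪
      (Icc 1 N).image (fun d : ℕ => t - d) := fun u hu => by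
    rw [mem_erase] at hu
    have := abs_le.mp (h u hu.2)
    rw [mem_union, mem_image, mem_image]
    rcases lt_or_gt_of_ne hu.1 with g | g
    · exact Or.inr ⟨(t - u).toNat, by rw [mem_Icc]; omega, by omega⟩
    · exact Or.inl ⟨(u - t).toNat, by rw [mem_Icc]; omega, by omega⟩
  have p : ∀ u : ℤ, (0 : ℝ) ≤ 1 / |(t : ℝ) - u| := fun u => by positivity
  have u1 : ∑ u ∈ (Icc 1 N).image (fun d : ℕ => t + d), 1 / |(t : ℝ) - u| =
      ∑ d ∈ Icc 1 N, (1 : ℝ) / d := by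
    rw [sum_image fun a _ b _ hab => by simpa using hab]
    exact sum_congr rfl fun d _ => by simp
  have u2 : ∑ u ∈ (Icc 1 N).image (fun d : ℕ => t - d), 1 / |(t : ℝ) - u| =
      ∑ d ∈ Icc 1 N, (1 : ℝ) / d := by
    rw [sum_image fun a _ b _ hab => by simpa using hab]
    exact sum_congr rfl fun d _ => by simp
  have h1 := sum_le_sum_of_subset_of_nonneg hs fun u _ _ => p u
  have h2 := sum_union_inter (s₁ := (Icc 1 N).image (fun d : ℕ => t + d))
    (s₂ := (Icc 1 N).image (fun d : ℕ => t - d)) (f := fun u : ℤ => 1 / |(t : ℝ) - u|)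
  have h3 : 0 ≤ ∑ u ∈ (Icc 1 N).image (fun d : ℕ => t + d) ∩
      (Icc 1 N).image (fun d : ℕ => t - d), 1 / |(t : ℝ) - u| := sum_nonneg fun u _ => p u
  linarith

theorem hal_row : HAL_s := by
  intro κ hκ
  obtain ⟨β, C, b0, C0, hz⟩ := zd ⌈2 / κ⌉₊
  refine ⟨β, b0, ?_⟩
  filter_upwards [eventually_ge_atTop (1 : ℝ), eventually_ge_atTop (4 + 24 * C)]
    with L L1 L2 f y S hB hs hy hS
  have y0 : 0 ≤ y := le_trans (by positivity) hy
  set A := ⌈exp y⌉₊ with hA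
  have e1 : 1 ≤ exp y := one_le_exp y0
  have a1 : exp y ≤ A := Nat.le_ceil _
  have a2 : (A : ℝ) ≤ 2 * exp y := by
    have := Nat.ceil_lt_add_one (exp_pos y).le
    linarith
  have A1 : 1 ≤ A := by exact_mod_cast e1.trans a1
  have A0 : (0 : ℝ) < A := by linarith
  have hD : ∀ t : ℝ, Dp f t = ∑ n ∈ Ico A (2 * A), (f n : ℂ) * ei (t * Real.log n) := fun t => by
    refine tsum_eq_sum fun n hn => ?_
    by_cases g : f n = 0
    · rw [g]; simp
    · exfalso
      have n0 : n ≠ 0 := fun e => g (by rw [e]; simp)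
      have n1 : (0 : ℝ) < n := by exact_mod_cast Nat.pos_of_ne_zero n0
      obtain ⟨g1, g2⟩ := hs n g
      refine hn (mem_Ico.mpr ⟨Nat.ceil_le.mpr ((le_log_iff_exp_le n1).mp g1), ?_⟩)
      have g3 : (n : ℝ) ≤ exp (y + 1 / 20) := (log_le_iff_le_exp n1).mp g2
      have g4 : exp (1 / 20 : ℝ) < 2 := by
        have := Real.exp_bound_div_one_sub_of_interval (x := 1 / 20) (by norm_num) (by norm_num)
        norm_num at this ⊢
        linarith
      rw [exp_add] at g3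
      have : (n : ℝ) < 2 * A := by nlinarith [exp_pos y]
      exact_mod_cast this
  have pw : 2 * exp L ≤ (A : ℝ) ^ ⌈2 / κ⌉₊ := by
    calc 2 * exp L ≤ exp L * exp L := by
          have := add_one_le_exp L
          nlinarith [exp_pos L]
      _ = exp (2 / κ * (κ * L)) := by rw [← exp_add]; congr 1; field_simp; ring
      _ ≤ exp (⌈2 / κ⌉₊ * y) := exp_le_exp.mpr
          (mul_le_mul (Nat.le_ceil _) hy (by positivity) (Nat.cast_nonneg _))
      _ = exp y ^ ⌈2 / κ⌉₊ := exp_nat_mul _ _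
      _ ≤ _ := pow_le_pow_left₀ (exp_pos y).le a1 _
  have ab : (A : ℝ) ^ (1 - β) ≤ A * exp (-β * y) := by
    rw [sub_eq_add_neg, rpow_add A0, rpow_one]
    refine mul_le_mul_of_nonneg_left ?_ A0.le
    rw [mul_comm (-β), exp_mul]
    exact rpow_le_rpow_of_nonpos (exp_pos y) a1 (by linarith)
  have lN : Real.log (⌊2 * exp L⌋₊ : ℕ) ≤ 1 + L := by
    have p : 0 < 2 * exp L := by positivity
    rcases Nat.eq_zero_or_pos ⌊2 * exp L⌋₊ with h | h
    · rw [h]; simp; linarith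
    · calc Real.log (⌊2 * exp L⌋₊ : ℕ) ≤ Real.log (2 * exp L) :=
            log_le_log (by exact_mod_cast h) (Nat.floor_le p.le)
        _ = Real.log 2 + L := by rw [log_mul two_ne_zero (exp_pos L).ne', log_exp]
        _ ≤ 1 + L := by linarith [Real.log_two_lt_d9]
  have key := hal_dual (Ico A (2 * A)) S (fun n => (f n : ℂ))
    (fun n => by rw [Complex.norm_real]; exact hB n)
    (A * (1 + 2 * C * (2 + L) + C * #S * exp (-β * y))) (by positivity) fun t ht => by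
      have d : ∀ u ∈ S, |(t : ℝ) - u| ≤ 2 * exp L := fun u hu => by
        have := abs_sub (t : ℝ) u
        linarith [hS t ht, hS u hu]
      have hh := hal_harm S t ⌊2 * exp L⌋₊ fun u hu => by
        have h1 : ((|t - u| : ℤ) : ℝ) ≤ 2 * exp L := by push_cast; exact d u hu
        have h2 := Int.le_floor.mpr h1
        rw [← Int.natCast_floor_eq_floor (by positivity)] at h2
        exact h2
      rw [← add_sum_erase S _ ht]
      have h0 : ‖∑ n ∈ Ico A (2 * A), ei (((t : ℝ) - t) * Real.log n)‖ ≤ A := H54.ZD_le A _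
      have h1 : ∑ u ∈ S.erase t, ‖∑ n ∈ Ico A (2 * A), ei (((t : ℝ) - u) * Real.log n)‖ ≤
          ∑ u ∈ S.erase t, (C * A * (1 / |(t : ℝ) - u|) + C * (A * exp (-β * y))) := by
        refine sum_le_sum fun u hu => ?_
        rw [mem_erase] at hu
        have o : (1 : ℝ) ≤ |(t : ℝ) - u| := by
          have : (1 : ℤ) ≤ |t - u| := Int.one_le_abs (sub_ne_zero.mpr hu.1.symm)
          exact_mod_cast this
        refine (hz A _ A1 o ((d u hu.2).trans pw)).trans ?_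
        rw [mul_add]
        exact add_le_add (le_of_eq (by ring)) (mul_le_mul_of_nonneg_left ab C0.le)
      rw [sum_add_distrib, ← mul_sum, sum_const, nsmul_eq_mul] at h1
      have c1 : (#(S.erase t) : ℝ) ≤ #S := by exact_mod_cast card_erase_le
      have h2 : C * A * ∑ u ∈ S.erase t, 1 / |(t : ℝ) - u| ≤ C * A * (2 * (2 + L)) :=
        mul_le_mul_of_nonneg_left (by linarith) (by positivity)
      have h3 : (#(S.erase t) : ℝ) * (C * (A * exp (-β * y))) ≤ #S * (C * (A * exp (-β * y))) :=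
        mul_le_mul_of_nonneg_right c1 (by positivity)
      linarith
  simp only [hD]
  refine key.trans ?_
  rw [Nat.card_Ico, show 2 * A - A = A by omega, ← mul_assoc, two_mul y, exp_add]
  have x0 : 0 ≤ (#S : ℝ) * exp (-β * y) := by positivity
  have q1 : (A : ℝ) * A ≤ 4 * (exp y * exp y) := by nlinarith
  have q2 : 4 * (1 + 2 * C * (2 + L) + C * #S * exp (-β * y)) ≤
      L ^ 2 + L * #S * exp (-β * y) := by
    have r1 : 4 * C * (#S * exp (-β * y)) ≤ L * (#S * exp (-β * y)) :=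
      mul_le_mul_of_nonneg_right (by linarith) x0
    have r2 : (4 + 24 * C) * L ≤ L * L := mul_le_mul_of_nonneg_right L2 (by linarith)
    have r3 : C * 1 ≤ C * L := mul_le_mul_of_nonneg_left L1 C0.le
    nlinarith
  calc (A : ℝ) * A * (1 + 2 * C * (2 + L) + C * #S * exp (-β * y))
      ≤ 4 * (exp y * exp y) * (1 + 2 * C * (2 + L) + C * #S * exp (-β * y)) :=
        mul_le_mul_of_nonneg_right q1 (by positivity)
    _ = exp y * exp y * (4 * (1 + 2 * C * (2 + L) + C * #S * exp (-β * y))) := by ring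
    _ ≤ _ := mul_le_mul_of_nonneg_left q2 (by positivity)

end Pool.Agent.MP_2033ac_nt.PN
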