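import Pool.Agent.MP_2033ac_nt.PN.DefsW

namespace Pool.Agent.MP_2033ac_nt.PN
open Finset Real Filter
open Pool.Agent.MP_71ac24_nt.H14 (ei ei_add norm_ei ei_zero conj_ei norm_ei_sub)
open Pool.Agent.MP_71ac24_nt Pool.Agent.MP_a404e6_nt.W

-- helper lemmas of this row: prefix hb_

theorem hb_mz1 : mz 1 = 1 := by
  ext n
  rw [ArithmeticFunction.one_apply]
  change (if n ≤ 1 then (ArithmeticFunction.moebius n : ℝ) else 0) = _
  rcases n with _ | _ | n <;> simp

theorem hb_row : HB_s := by
  intro z L hz hL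
  obtain ⟨μ, hμ⟩ : ∃ μ : AF, μ = (ArithmeticFunction.moebius : ArithmeticFunction ℤ) := ⟨_, rfl⟩
  obtain ⟨m, hm⟩ : ∃ m : AF, m = mz z := ⟨_, rfl⟩
  have m1 : ∀ n, m n = if n ≤ z then μ n else 0 := fun _ => by
    rw [hm, hμ, ArithmeticFunction.intCoe_apply]; rfl
  have z0 : 0 ≤ Real.log z := Real.log_natCast_nonneg z
  refine ⟨fun j => (-1) ^ j * (Nat.choose 12 (j + 1) : ℝ) * L, fun j i => if (i : ℕ) ≤ j ∧ (i : ℕ) < 12
    then m else if 12 ≤ (i : ℕ) ∧ (i : ℕ) < 12 + j ∧ (i : ℕ) < 23 then ze else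
      if (i : ℕ) = 23 then lg L else 1, fun j => ?_, fun j i => ?_, fun n hn => ?_⟩
  · rw [abs_mul, abs_mul, abs_pow, abs_neg, abs_one, one_pow, one_mul, abs_of_pos hL, Nat.abs_cast]
    exact mul_le_mul_of_nonneg_right (by
      exact_mod_cast (Nat.choose_le_middle (j + 1) 12).trans (by norm_num [Nat.choose])) hL.le
  · dsimp only
    split_ifs
    · refine .inl ⟨z, hm, fun n => ?_, fun n hn => ⟨Real.log_natCast_nonneg n, ?_⟩⟩
      · rw [m1, hμ]
        split_ifs
        · rw [ArithmeticFunction.intCoe_apply]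
          exact_mod_cast ArithmeticFunction.abs_moebius_le_one
        · simp
      · have h1 : n ≤ z := by_contra fun g => hn (by rw [m1, if_neg g])
        have h2 : n ≠ 0 := fun e => hn (by rw [e]; simp)
        exact Real.log_le_log (by positivity) (by exact_mod_cast h1)
    · exact .inr (.inl rfl)
    · exact .inr (.inr rfl)
    · refine .inl ⟨1, hb_mz1.symm, fun n => ?_, fun n hn => ?_⟩
      · rw [ArithmeticFunction.one_apply]
        split_ifs <;> simp
      · obtain rfl : n = 1 := by_contra fun g => hn (by simp [g])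
        simpa using z0
  have e1 : L • lg L = vM * ze := by
    rw [ArithmeticFunction.vonMangoldt_mul_zeta]
    ext n
    simp [lg, ArithmeticFunction.log_apply, mul_div_cancel₀ _ hL.ne']
  have e2 : ∀ (c : ℝ) (f : AF), (c * L) • (f * lg L) = c • (f * (vM * ze)) := fun c f => by
    rw [← e1, mul_smul_comm, mul_smul]
  have e3 : ∑ j ∈ range 12, ((-1) ^ j * (Nat.choose 12 (j + 1) : ℝ) * L) • ∏ i : Fin 24,
      (if (i : ℕ) ≤ j ∧ (i : ℕ) < 12 then m else if 12 ≤ (i : ℕ) ∧ (i : ℕ) < 12 + j ∧ (i : ℕ) < 23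
        then ze else if (i : ℕ) = 23 then lg L else 1) = vM - (1 - m * ze) ^ 12 * vM := by
    have e4 : ∀ j ∈ range 12, ∏ i : Fin 24, (if (i : ℕ) ≤ j ∧ (i : ℕ) < 12 then m else
        if 12 ≤ (i : ℕ) ∧ (i : ℕ) < 12 + j ∧ (i : ℕ) < 23 then ze else if (i : ℕ) = 23 then lg L
          else 1) = m ^ (j + 1) * ze ^ j * lg L := fun j hj => by
      rw [mem_range] at hj
      rw [Fin.prod_univ_eq_prod_range (fun i => if i ≤ j ∧ i < 12 then m else
        if 12 ≤ i ∧ i < 12 + j ∧ i < 23 then ze else if i = 23 then lg L else 1) 24,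
        prod_range_succ, range_eq_Ico, ← prod_Ico_consecutive _ (Nat.zero_le 12) (by norm_num),
        prod_congr rfl (g := fun i => if i < j + 1 then m else 1), prod_congr (s₁ := Ico 12 23) rfl
          (g := fun i => if i < 12 + j then ze else 1), ← prod_filter, ← prod_filter,
        Ico_filter_lt, Ico_filter_lt, prod_const, prod_const, Nat.card_Ico, Nat.card_Ico,
        min_eq_right (by omega), min_eq_right (by omega)]
      · simp
      all_goals
        intro i hi
        rw [mem_Ico] at hi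
        split_ifs <;> first | rfl | omega
    rw [sum_congr rfl fun j hj => by rw [e4 j hj, e2, Algebra.smul_def]]
    simp only [sum_range_succ, range_zero, sum_empty, Nat.choose, map_mul, map_pow, map_neg, map_one,
      map_natCast]
    push_cast
    ring
  rw [e3, sub_eq_add_neg, ArithmeticFunction.add_apply, ArithmeticFunction.neg_apply, left_eq_add,
    neg_eq_zero]
  by_contra g
  have e5 : 1 - m * ze = (μ - m) * ze := by
    rw [sub_mul, hμ, ArithmeticFunction.coe_moebius_mul_coe_zeta]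
  have l1 : hb_low (z + 1) (1 - m * ze) := by
    rw [e5, ← mul_one (z + 1)]
    refine hb_mul (fun n hn => Nat.succ_le_of_lt (not_le.1 fun h => hn ?_)) (hb_one _)
    rw [sub_eq_add_neg, ArithmeticFunction.add_apply, ArithmeticFunction.neg_apply, m1, if_pos h,
      add_neg_cancel]
  have l2 : ∀ k : ℕ, hb_low ((z + 1) ^ k) ((1 - m * ze) ^ k * vM) := fun k => by
    induction k with
    | zero => exact hb_one _
    | succ k ih => rw [pow_succ', pow_succ', mul_assoc]; exact hb_mul l1 ih
  have l3 : ((z : ℝ)) ^ 12 < n := by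
    exact_mod_cast (Nat.pow_lt_pow_left z.lt_succ_self (by norm_num)).trans_le (l2 12 n g)
  have l4 := Real.log_lt_log (by positivity) l3
  rw [Real.log_pow] at l4
  exact absurd hn (not_le.2 (by exact_mod_cast l4))

end Pool.Agent.MP_2033ac_nt.PN
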