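import Pool.Agent.MP_2033ac_nt.PN.DefsV
import Pool.Agent.H84D.PsB

namespace Pool.Agent.MP_2033ac_nt.PN
open Finset Filter
open Pool.Agent.MP_71ac24_nt.H14 (ei ei_add norm_ei ei_zero conj_ei norm_ei_sub)

-- helper lemmas of this row: prefix loc_

lemma loc_scale {g : ℂ → ℂ} {c : ℂ} {r A : ℝ} (r0 : 0 < r) (hA : 1 ≤ A)
    (hg : ∀ s, ‖s - c‖ < 3 / 2 * r → DifferentiableAt ℂ g s)
    (hM : ∀ s, ‖s - c‖ < 3 / 2 * r → ‖g s‖ ≤ Real.exp A) (hm : Real.exp (-A) ≤ ‖g c‖) :
    ∃ (n : ℕ) (ρ : ℕ → ℂ), (n : ℝ) ≤ 160 * A ∧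
      (∀ j ∈ range n, g (ρ j) = 0 ∧ ‖ρ j - c‖ < 3 / 2 * r) ∧
      (∀ z, ‖z - c‖ ≤ 7 / 5 * r → g z = 0 → ∃ j ∈ range n, ρ j = z) ∧
      ∀ s, ‖s - c‖ ≤ 7 / 5 * r → g s ≠ 0 →
        ‖deriv g s / g s - ∑ j ∈ range n, (s - ρ j)⁻¹‖ ≤ 10 ^ 10 * A / r := by
  have rc : (r : ℂ) ≠ 0 := by exact_mod_cast r0.ne'
  have nr : ∀ z : ℂ, ‖c + r * z - c‖ = r * ‖z‖ := fun z => by
    rw [add_sub_cancel_left, norm_mul, Complex.norm_real, Real.norm_of_nonneg r0.le]
  have inb : ∀ z : ℂ, ‖z‖ < 3 / 2 → ‖c + r * z - c‖ < 3 / 2 * r := fun z hz => by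
    rw [nr]; nlinarith
  have dl : ∀ z : ℂ, HasDerivAt (fun z : ℂ => c + r * z) (r : ℂ) z := fun z => by
    simpa using ((hasDerivAt_id z).const_mul (r : ℂ)).const_add c
  obtain ⟨n, ρ, cnt, h1, h2, h3⟩ := Pool.Agent.MP_a96b63_al.H84D.ps_landau
    (f := fun z => g (c + r * z)) (c := 0)
    (fun z hz => ((hg _ (inb z (by simpa using hz))).comp z
      (dl z).differentiableAt).differentiableWithinAt) hA
    (fun z hz => hM _ (inb z (by simpa using hz))) (by simpa using hm)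
  have back : ∀ s : ℂ, c + r * ((s - c) / r) = s := fun s => by field_simp; ring
  have nb : ∀ s : ℂ, ‖s - c‖ ≤ 7 / 5 * r → ‖(s - c) / r - 0‖ ≤ 7 / 5 := fun s hs => by
    rw [sub_zero, norm_div, Complex.norm_real, Real.norm_of_nonneg r0.le, div_le_iff₀ r0]
    exact hs
  refine ⟨n, fun j => c + r * ρ j, cnt, fun j hj => ⟨(h1 j hj).1, inb _ (by simpa using (h1 j hj).2)⟩,
    fun z a b => ?_, fun s a b => ?_⟩
  · obtain ⟨j, hj, e⟩ := h2 ((z - c) / r) (nb z a) (by simp only [back]; exact b)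
    exact ⟨j, hj, by simp only [e, back]⟩
  · have h := h3 ((s - c) / r) (nb s a) (by simp only [back]; exact b)
    have d0 : HasDerivAt g (deriv g s) (c + r * ((s - c) / r)) := by
      rw [back]
      exact (hg s (by nlinarith)).hasDerivAt
    have d1 : deriv (fun z => g (c + r * z)) ((s - c) / r) = deriv g s * r :=
      (d0.comp ((s - c) / r) (dl _)).deriv
    have e : ∀ j, ((s - c) / r - ρ j)⁻¹ = r * (s - (c + r * ρ j))⁻¹ := fun j => by
      rw [show (s - c) / r - ρ j = (r : ℂ)⁻¹ * (s - (c + r * ρ j)) by field_simp; ring,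
        mul_inv, inv_inv]
    simp only [d1, back, e] at h
    rw [← mul_sum, show deriv g s * r / g s = r * (deriv g s / g s) by ring, ← mul_sub, norm_mul,
      Complex.norm_real, Real.norm_of_nonneg r0.le] at h
    rw [le_div_iff₀ r0]
    linarith

theorem loc_row (hZB : ZB_s) : LOC_s := by
  refine ⟨104 * 10 ^ 10, by norm_num, ?_⟩
  have hz := (tendsto_pow_atTop (α := ℝ) (n := 2) two_ne_zero).eventually hZB
  filter_upwards [hz, eventually_ge_atTop (40 : ℝ)] with v hv v40 u u9 uE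
  have v0 : 0 < v := by linarith
  have v1 : 1 ≤ v := by linarith
  have lv : 1 ≤ Real.log v := by
    rw [Real.le_log_iff_exp_le v0]
    linarith [Real.exp_one_lt_d9]
  have p1 : 1 ≤ v ^ 24 := one_le_pow₀ v1
  have p0 : 0 < v ^ 24 := by positivity
  obtain ⟨a, ha⟩ : ∃ a : ℝ, a = 1 / v ^ 24 := ⟨_, rfl⟩
  obtain ⟨b, hb⟩ : ∃ b : ℝ, b = 1 / v ^ 25 := ⟨_, rfl⟩
  have a0 : 0 < a := by rw [ha]; positivity
  have a1 : a ≤ 1 := by rw [ha, div_le_one p0]; exact p1
  have b0 : 0 < b := by rw [hb]; positivity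
  have ba : b * v = a := by rw [ha, hb]; field_simp
  have ba' : 40 * b ≤ a := by nlinarith
  have e4 : 4 / v ^ 25 = 4 * b := by rw [hb]; ring
  have e24 : 24 / v ^ 25 = 24 * b := by rw [hb]; ring
  rw [e4, e24]
  obtain ⟨c, hc⟩ : ∃ c : ℂ, c = ((1 + 24 * b : ℝ) : ℂ) + u * Complex.I := ⟨_, rfl⟩
  have cr : c.re = 1 + 24 * b := by simp [hc]
  have ci : c.im = u := by simp [hc]
  have box : ∀ z : ℂ, ‖z - c‖ < 3 / 2 * (a / 2) →
      |z.re - (1 + 24 * b)| < 3 / 2 * (a / 2) ∧ |z.im - u| < 3 / 2 * (a / 2) := fun z hz =>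
    ⟨lt_of_le_of_lt (by simpa [cr] using Complex.abs_re_le_norm (z - c)) hz,
      lt_of_le_of_lt (by simpa [ci] using Complex.abs_im_le_norm (z - c)) hz⟩
  have near : ∀ z : ℂ, z.im = u → 1 - 4 * b ≤ z.re → z.re ≤ 1 + 24 * b →
      ‖z - c‖ ≤ 7 / 5 * (a / 2) := fun z h1 h2 h3 => by
    rw [show z - c = ((z.re - (1 + 24 * b) : ℝ) : ℂ) from
      Complex.ext (by simp [cr]) (by simp [ci, h1]), Complex.norm_real, Real.norm_eq_abs, abs_le]
    constructor <;> linarith
  have ex : Real.exp (52 * Real.log v) = v ^ 52 := by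
    rw [show 52 * Real.log v = ((52 : ℕ) : ℝ) * Real.log v by norm_num, ← Real.log_pow,
      Real.exp_log (by positivity)]
  obtain ⟨n, ρ, cnt, h1, h2, h3⟩ := loc_scale (g := riemannZeta) (c := c) (r := a / 2)
    (A := 52 * Real.log v) (by positivity) (by linarith)
    (fun s hs => differentiableAt_riemannZeta fun e => by
      have := abs_lt.1 (box s hs).2
      simp only [e, Complex.one_im] at this
      linarith [this.1])
    (fun s hs => by
      have i := abs_lt.1 (box s hs).2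
      have r := abs_lt.1 (box s hs).1
      have := hv s (by linarith [i.1]) (by rw [← pow_mul]; norm_num; linarith [i.2])
        (by rw [← pow_mul]; norm_num; rw [← one_div, ← ha]; linarith [r.1]) (by linarith [r.2])
      rw [← pow_mul] at this
      rw [ex]
      exact this)
    (by
      have h := Pool.Agent.MP_48b1c3_nt.H54.le_norm_LFunction (1 : DirichletCharacter ℂ 1) (s := c)
        (by linarith) (by linarith)
      rw [DirichletCharacter.LFunction_modOne_eq, cr] at h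
      have h' : Real.exp (-(52 * Real.log v)) ≤ b := by
        rw [Real.exp_neg, ex, hb, one_div]
        exact inv_anti₀ (by positivity) (pow_le_pow_right₀ v1 (by norm_num))
      linarith)
  refine ⟨n, ρ, by linarith, fun j hj => ⟨(h1 j hj).1, by linarith [(box _ (h1 j hj).2).2]⟩,
    fun z i j k => h2 z (near z i j k), fun s i j k l => (h3 s (near s i j k) l).trans_eq ?_⟩
  rw [ha]
  field_simp
  ring

end Pool.Agent.MP_2033ac_nt.PN
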