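import Pool.Agent.MP_2033ac_nt.PN.DefsW

namespace Pool.Agent.MP_2033ac_nt.PN
open Finset Real Filter
open Pool.Agent.MP_71ac24_nt.H14 (ei ei_add norm_ei ei_zero conj_ei norm_ei_sub)
open Pool.Agent.MP_71ac24_nt Pool.Agent.MP_a404e6_nt.W

-- helper lemmas of this row: prefix lp_

theorem lp_row : LP_s := by
  intro P m l r e hl he h1 h2 hmv hes
  have P0 : 0 ≤ P := by linarith
  have a1 := mul_nonneg hl (show 0 ≤ P - 2 * m by linarith)
  rcases le_total (7 * P / 16) m with h | h
  · rw [max_eq_right h] at hmv; nlinarith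
  rw [max_eq_left h] at hmv
  rcases le_total (5 / 16) l with g | g
  · nlinarith [mul_nonneg (sub_nonneg.2 g) (show 0 ≤ P - 2 * m by linarith)]
  have a2 := mul_nonneg (sub_nonneg.2 g) (show 0 ≤ 4 * m - P by linarith)
  have a3 := mul_nonneg (sub_nonneg.2 g) (show 0 ≤ 7 * m - 2 * P by linarith)
  rcases hes with k | k | k | k
  · nlinarith
  · rcases le_total m (3 * P / 8) with q | q
    · nlinarith
    rcases le_total (1 / 4) l with p | p
    · nlinarith [mul_nonneg (sub_nonneg.2 p) (show 0 ≤ P - 2 * m by linarith)]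
    · nlinarith [mul_nonneg (sub_nonneg.2 p) (show 0 ≤ 4 * m - P by linarith)]
  · nlinarith
  · nlinarith

end Pool.Agent.MP_2033ac_nt.PN
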