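import Pool.Agent.MP_2033ac_nt.PN.DefsW

namespace Pool.Agent.MP_2033ac_nt.PN
open Finset Real Filter
open Pool.Agent.MP_71ac24_nt.H14 (ei ei_add norm_ei ei_zero conj_ei norm_ei_sub)
open Pool.Agent.MP_71ac24_nt Pool.Agent.MP_a404e6_nt.W

-- helper lemmas of this row: prefix lva_

theorem lva_k {P y : ℝ} (hy : 0 < y) (h : y ≤ P / 4) :
    ∃ k : ℕ, P / 3 ≤ k * y ∧ k * y ≤ P / 2 := by
  rcases le_total (P / 6) y with g | g
  · exact ⟨2, by push_cast; linarith, by push_cast; linarith⟩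
  · have h1 := Nat.le_ceil (P / 3 / y)
    have h2 := Nat.ceil_lt_add_one (show 0 ≤ P / 3 / y from div_nonneg (by linarith) hy.le)
    rw [div_le_iff₀ hy] at h1
    rw [← sub_lt_iff_lt_add, lt_div_iff₀ hy] at h2
    exact ⟨_, h1, by linarith⟩

theorem lva_cnt (U k : ℕ) (F G : ℤ → ℝ) (h : ∀ t, G t = F t ^ k) (a : ℝ) :
    cnt U F (exp a) ≤ cnt U G (exp (k * a)) := by
  unfold cnt
  refine Nat.cast_le.2 (card_le_card fun t ht => ?_)
  rw [mem_filter] at ht ⊢
  refine ⟨ht.1, ?_⟩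
  rw [h, exp_nat_mul]
  exact pow_le_pow_left₀ (exp_pos _).le ht.2 k

theorem lva_row (hLP : LP_s) : LVA_s := by
  intro κ e c hκ he hc hc'
  obtain ⟨C, -, hC⟩ := bd_ev ⌈1 / κ⌉₊ (e / 80) (by positivity)
  filter_upwards [genP (e / 2) (half_pos he), mv_ev C (show 0 < e / 80 by positivity),
    bx_ev (half_pos he) (⌈1 / κ⌉₊ : ℝ), eventually_ge_atTop (⌈1 / κ⌉₊ : ℝ),
    eventually_gt_atTop (0 : ℝ)] with L hG e1 e2 e3 hL f y U hB hS h1 h2 hU l hl
  have y0 : 0 < y := lt_of_lt_of_le (mul_pos hκ hL) h1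
  obtain ⟨k, k1, k2⟩ := lva_k y0 h2
  have hP : (1 - c) * L ≤ L := by nlinarith
  have k0 : (0 : ℝ) ≤ k := Nat.cast_nonneg k
  have k3 : (k : ℝ) ≤ ⌈1 / κ⌉₊ := by
    refine le_trans ?_ (Nat.le_ceil _)
    rw [le_div_iff₀ hκ]
    have := mul_le_mul_of_nonneg_left h1 k0
    nlinarith
  have hs : Sp (∏ _i ∈ range k, f) (k * y) (k * y + k / 20) := by
    have := Sp.prod (range k) (f := fun _ => f) (a := fun _ => y) (b := fun _ => y + 1 / 20)
      fun _ _ => hS
    simp only [sum_const, card_range, nsmul_eq_mul] at this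
    exact this.mono le_rfl (le_of_eq (by ring))
  have m0 : 0 ≤ k * y + k / 20 := by positivity
  have mL : k * y + k / 20 ≤ L := by linarith
  have hb : Bd (∏ _i ∈ range k, f) (exp (e / 2 / 20 * L)) := fun n => by
    refine (hC ℕ (range k) (fun _ => f) _ _ (by rw [card_range]; exact_mod_cast k3) m0
      (fun _ _ => hB) hs n).trans ?_
    rw [show e / 2 / 20 * L = e / 80 * L + e / 80 * L by ring, exp_add]
    exact mul_le_mul e1 (exp_le_exp.2 (mul_le_mul_of_nonneg_left mL (by positivity)))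
      (exp_pos _).le (exp_pos _).le
  have hc1 := lva_cnt U k (fun t => ‖Dp f t‖) (fun t => ‖Dp (∏ _i ∈ range k, f) t‖) (fun t => by
    rw [Dp_prod (range k) (f := fun _ => f) (a := fun _ => y) (b := fun _ => y + 1 / 20)
      fun _ _ => hS, prod_const, card_range, norm_pow]) ((1 - l) * y)
  obtain ⟨N, hN⟩ : ∃ N : ℕ, cnt U (fun t => ‖Dp f t‖) (exp ((1 - l) * y)) = N := ⟨_, rfl⟩
  rw [hN] at hc1 ⊢
  rcases Nat.eq_zero_or_pos N with rfl | N0
  · exact_mod_cast (exp_pos _).le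
  have N1 : (1 : ℝ) ≤ N := by exact_mod_cast N0
  obtain ⟨-, g1, g2⟩ := hG _ _ _ _ U m0 mL hU hb hs (Real.log N) (k * ((1 - l) * y))
    (Real.log_nonneg N1) (by rw [exp_log (by linarith)]; linarith)
  have g3 := g1 1 le_rfl (by norm_num)
  have e4 : k * ((1 - l) * y) = (1 - l) * (k * y) := by ring
  rw [e4] at g2 g3
  simp only [Nat.cast_one, one_mul, mul_one] at g3
  have g4 : max (7 * ((1 - c) * L) / 16) (k * y + k / 20) ≤
      max (7 * ((1 - c) * L) / 16) (k * y) + k / 20 :=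
    max_le (by linarith [le_max_left (7 * ((1 - c) * L) / 16) (k * y)])
      (by linarith [le_max_right (7 * ((1 - c) * L) / 16) (k * y)])
  have key := hLP ((1 - c) * L) (k * y) l (Real.log N) (e / 2 * L + 3 * k / 20) hl (by positivity)
    k1 k2 (by linarith) (g2.imp (fun h => by linarith) fun g => g.imp (fun h => by linarith)
      fun g => g.imp (fun h => by linarith) fun h => by linarith)
  rw [← exp_log (show (0 : ℝ) < N by linarith)]
  exact exp_le_exp.2 (by linarith)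

end Pool.Agent.MP_2033ac_nt.PN
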