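import Pool.Agent.MP_2033ac_nt.PN.DefsW

namespace Pool.Agent.MP_2033ac_nt.PN
open Finset Real Filter
open Pool.Agent.MP_71ac24_nt.H14 (ei ei_add norm_ei ei_zero conj_ei norm_ei_sub)
open Pool.Agent.MP_71ac24_nt Pool.Agent.MP_a404e6_nt.W

-- helper lemmas of this row: prefix lvz_

theorem lvz_mono {U T : ℕ} (h : U ≤ T) (F : ℤ → ℝ) (V : ℝ) : cnt U F V ≤ cnt T F V := by
  unfold cnt
  exact_mod_cast card_le_card (filter_subset_filter _ (Icc_subset_Icc (by omega) (by omega)))

theorem lvz_row : LVZ_s := by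
  intro C0 e c he hc hc1
  obtain ⟨C, hC, h⟩ := lvz C0 (e / 2) (by linarith)
  filter_upwards [eventually_ge_atTop (100 : ℝ), eventually_ge_atTop ((2 * C + 3) / (e / 2))]
    with L hL hL2 f y U hZ hS hy1 hy2 hU l hl
  set P := (1 - c) * L with hP
  have hP1 : 9 * L / 10 ≤ P := by nlinarith
  have hP2 : P ≤ L := by nlinarith
  have hE : 2 * C + 3 ≤ exp (e / 2 * L) := by
    rw [div_le_iff₀ (by linarith)] at hL2
    linarith [add_one_le_exp (e / 2 * L)]
  have hE1 : 1 ≤ exp (e / 2 * L) := by linarith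
  have hg : exp (e * L + (1 - c) * l * L) = exp (e / 2 * L) * exp (e / 2 * L) * exp (l * P) := by
    rw [← exp_add, ← exp_add, hP]; congr 1; ring
  have hX1 : 1 ≤ exp (7 * P / 16) := one_le_exp (by linarith)
  have hlP := exp_pos (l * P)
  rw [hg]
  rcases le_or_gt (7 / 16) l with h7 | h7
  · have h1 : exp (7 * P / 16) ≤ exp (l * P) := exp_le_exp.2 (by nlinarith)
    calc _ ≤ 2 * (U : ℝ) + 1 := cnt_le _ _ _
      _ ≤ 3 * 1 * exp (l * P) := by linarith
      _ ≤ _ := by gcongr; linarith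
  · set T : ℕ := ⌊exp (7 * P / 16)⌋₊ with hT
    have hT1 : 1 ≤ T := Nat.le_floor (by exact_mod_cast hX1)
    have hT1' : (1 : ℝ) ≤ T := by exact_mod_cast hT1
    have hT2 : (T : ℝ) ≤ exp (7 * P / 16) := Nat.floor_le (exp_pos _).le
    have hT3 : exp (7 * P / 16) / 2 ≤ T := by
      have := Nat.lt_floor_add_one (exp (7 * P / 16))
      linarith
    have hT4 : exp y ≤ (T : ℝ) ^ 3 := by
      refine le_trans ?_ (pow_le_pow_left₀ (by positivity) hT3 3)
      rw [div_pow, ← exp_nat_mul, le_div_iff₀ (by norm_num)]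
      have h8 : (2 : ℝ) ^ 3 ≤ exp (5 * P / 16) := by linarith [add_one_le_exp (5 * P / 16)]
      calc _ ≤ exp P * exp (5 * P / 16) := by gcongr; linarith
        _ = _ := by rw [← exp_add]; congr 1; push_cast; ring
    have h1 := h f y (exp ((1 - l) * y)) T hZ hS (by linarith) hT1
      (hT2.trans (exp_le_exp.2 (by linarith))) hT4 (exp_pos _)
    have h2 : (T : ℝ) ^ (e / 2) ≤ exp (e / 2 * L) := by
      rw [mul_comm, exp_mul]
      exact rpow_le_rpow (by positivity) (hT2.trans (exp_le_exp.2 (by linarith))) (by linarith)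
    have h3 : exp y / exp ((1 - l) * y) ≤ exp (l * P) := by
      rw [← exp_sub]
      exact exp_le_exp.2 (by nlinarith)
    have h4 : T * exp (2 * y) / exp ((1 - l) * y) ^ 4 ≤ exp (l * P) := by
      rw [← exp_nat_mul, div_le_iff₀ (exp_pos _), ← exp_add]
      calc _ ≤ exp (7 * P / 16) * exp (2 * y) := by gcongr
        _ ≤ _ := by
          rw [← exp_add]
          refine exp_le_exp.2 ?_
          push_cast
          nlinarith
    calc _ ≤ _ := lvz_mono (Nat.le_floor hU) _ _
      _ ≤ _ := h1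
      _ ≤ C * exp (e / 2 * L) * (exp (l * P) + exp (l * P)) := by gcongr
      _ = 2 * C * exp (e / 2 * L) * exp (l * P) := by ring
      _ ≤ _ := by gcongr; linarith

end Pool.Agent.MP_2033ac_nt.PN
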