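import Pool.Agent.MP_2033ac_nt.PN.DefsV
import Pool.Agent.H84D.Ps

namespace Pool.Agent.MP_2033ac_nt.PN
open Finset Filter
open Pool.Agent.MP_71ac24_nt.H14 (ei ei_add norm_ei ei_zero conj_ei norm_ei_sub)

-- helper lemmas of this row: prefix mu_

theorem mu_abs {a : ℕ → ℂ} (ha : ∀ n, ‖a n‖ ≤ 1) {σ : ℝ} (h1 : 1 < σ) (h2 : σ ≤ 2) :
    ∑' n, ‖LSeries.term a σ n‖ ≤ 2 / (σ - 1) := by
  have e : ((∑' n, ‖LSeries.term a σ n‖ : ℝ) : ℂ) = LSeries (fun n => (‖a n‖ : ℂ)) σ := by
    rw [Complex.ofReal_tsum, LSeries]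
    refine tsum_congr fun n => ?_
    rcases eq_or_ne n 0 with rfl | hn
    · simp
    · rw [LSeries.norm_term_eq, if_neg hn, LSeries.term_of_ne_zero hn, Complex.ofReal_re,
        Complex.ofReal_div, Complex.ofReal_cpow (Nat.cast_nonneg n), Complex.ofReal_natCast]
  have b := MP_48b1c3_nt.H54.lbound_LSeries_le (a := fun n => (‖a n‖ : ℂ)) (s := σ)
    (fun n => by simpa using ha n) (by simpa using h1) (by simpa using h2)
  rw [← e, Complex.norm_real, Complex.ofReal_re] at b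
  exact (le_abs_self _).trans b

theorem mu_one {t L η M : ℝ} {y h : ℕ} (L2 : 2 ≤ L) (t1 : 20 ≤ |t|) (η0 : 0 < η) (η2 : η ≤ 1 / 2)
    (hZ : ∀ s : ℂ, 10 ≤ s.im → s.im ≤ 3 / 2 * |t| → 1 - η ≤ s.re → s.re ≤ 2 →
      riemannZeta s ≠ 0 ∧ ‖(riemannZeta s)⁻¹‖ ≤ M) (h0 : 0 < h) (hy : h ≤ y) :
    ‖∑ n ∈ Icc 1 y, (ArithmeticFunction.moebius n : ℂ) * ei (t * Real.log n)‖ ≤
      8 * (y : ℝ) ^ 2 / h * (2 * M * (y : ℝ) ^ (-η) +
        (M + 2 * L) / (|t| / 2) * (2 * y : ℝ) ^ (1 / L)) + h * 1 := by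
  have δ2 : 1 / L ≤ 1 / 2 := one_div_le_one_div_of_le two_pos L2
  have δ0 : 0 < 1 / L := by positivity
  have e : ∀ n : ℕ, ei (t * Real.log n) = Complex.exp (Complex.I * t * Real.log n) := fun n => by
    rw [ei, Complex.ofReal_mul, mul_assoc]
  have nb : ∀ n : ℕ, ‖(ArithmeticFunction.moebius n : ℂ) *
      Complex.exp (Complex.I * t * Real.log n)‖ ≤ 1 := fun n => by
    rw [norm_mul, MP_a96b63_al.H84D.ps_nrm, mul_one, Complex.norm_intCast]
    exact_mod_cast ArithmeticFunction.abs_moebius_le_one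
  simp only [e]
  refine Pool.Agent.H84D.psC _ (fun s => (riemannZeta (s - Complex.I * t))⁻¹) δ0 δ2 η0 η2
    (by linarith) (LSeriesSummable_of_bounded_of_one_lt_re (fun n _ => nb n)
      (by rw [Complex.ofReal_re]; linarith))
    ((mu_abs nb (by linarith) (by linarith)).trans_eq (by rw [add_sub_cancel_left]; field_simp))
    (fun s r1 r2 r3 => ?_) (fun s r _ => ?_) h0 hy fun n _ => nb n
  · have e1 : (s - Complex.I * t).im = s.im - t := by simp
    have e2 : (s - Complex.I * t).re = s.re := by simp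
    have b1 := abs_sub_abs_le_abs_sub t s.im
    have b2 := abs_sub s.im t
    rw [abs_sub_comm, ← e1] at b1
    rw [← e1] at b2
    rw [← e2] at r1 r2
    have b3 : riemannZeta (s - Complex.I * t) ≠ 0 ∧ ‖(riemannZeta (s - Complex.I * t))⁻¹‖ ≤ M := by
      generalize s - Complex.I * t = z at b1 b2 r1 r2
      rcases le_total 0 z.im with d | d
      · rw [abs_of_nonneg d] at b1 b2
        exact hZ z (by linarith) (by linarith) r1 (by linarith)
      · rw [abs_of_nonpos d] at b1 b2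
        have := hZ ((starRingEnd ℂ) z) (by rw [Complex.conj_im]; linarith)
          (by rw [Complex.conj_im]; linarith) r1 (by rw [Complex.conj_re]; linarith)
        rwa [riemannZeta_conj, map_ne_zero, ← map_inv₀, Complex.norm_conj] at this
    refine ⟨((differentiableAt_riemannZeta fun z => ?_).comp s (f := fun s => s - Complex.I * t)
      (by fun_prop)).inv b3.1, b3.2⟩
    rw [z, Complex.one_im, abs_zero] at b1
    linarith
  · have r1 : 1 < (s - Complex.I * t).re := by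
      rw [show (s - Complex.I * t).re = s.re by simp, r]
      linarith
    have a := LSeries_one_mul_Lseries_moebius r1
    rw [LSeries_one_eq_riemannZeta r1] at a
    rw [← eq_inv_of_mul_eq_one_right a, LSeries, LSeries]
    exact tsum_congr fun n => (MP_a96b63_al.H84D.ps_tw _ t s n).symm

theorem mu_row (hZF2 : ZF2_s) : MU_s := by
  obtain ⟨K, hK⟩ := hZF2
  intro κ κ0 A
  obtain ⟨k, hk⟩ : ∃ k, k = 2 * A + 2 * K + 5 := ⟨_, rfl⟩
  refine ⟨k, ?_⟩
  have tv : Tendsto (fun L : ℝ => (2 * L) ^ ((26 : ℕ) : ℝ)⁻¹) atTop atTop :=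
    (tendsto_rpow_atTop (by norm_num)).comp (tendsto_id.const_mul_atTop two_pos)
  filter_upwards [tv.eventually hK, tv.eventually (eventually_ge_atTop 2),
    tv.eventually (isLittleO_pow_exp_pos_mul_atTop (26 * k) (half_pos κ0)).eventuallyLE,
    (isLittleO_pow_exp_pos_mul_atTop (A + 2) κ0).eventuallyLE, eventually_ge_atTop (450 : ℝ)]
    with L hZ v2 hv hL L5 y t y1 y2 t1 t2
  have L1 : 1 ≤ L := by linarith
  have e26 := Real.rpow_inv_natCast_pow (x := 2 * L) (n := 26) (by linarith) (by norm_num)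
  generalize (2 * L) ^ ((26 : ℕ) : ℝ)⁻¹ = v at hZ v2 hv e26
  have v1 : 1 ≤ v := by linarith
  rw [Real.norm_of_nonneg (by positivity), Real.norm_of_nonneg (Real.exp_pos _).le] at hv hL
  rw [pow_mul, e26] at hv
  rw [e26] at hZ
  have y0 : (0 : ℝ) < y := (Real.exp_pos _).trans_le y1
  have Lk : L ≤ L ^ k := le_self_pow₀ L1 (by omega)
  have a1 : 1 ≤ y / L ^ (A + 2) := by
    rw [le_div_iff₀ (by positivity)]
    linarith
  have a2 : y / L ^ (A + 2) ≤ y := div_le_self y0.le (one_le_pow₀ L1)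
  have h1 := Nat.le_ceil (y / L ^ (A + 2))
  have h2 : (⌈y / L ^ (A + 2)⌉₊ : ℝ) ≤ 2 * (y / L ^ (A + 2)) := by
    linarith [Nat.ceil_lt_add_one (by linarith : 0 ≤ y / L ^ (A + 2))]
  have ly : Real.log (2 * y) ≤ 3 * L := by
    have := (Real.log_le_iff_le_exp y0).2 y2
    rw [Real.log_mul two_ne_zero y0.ne']
    linarith [Real.log_two_lt_d9]
  have p0 : v ^ K ≤ L ^ (2 * K) := by
    rw [pow_mul]
    refine pow_le_pow_left₀ (by linarith) ?_ K
    nlinarith [le_self_pow₀ v1 (by norm_num : 26 ≠ 0)]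
  refine (mu_one (η := 1 / v ^ 25) (M := L ^ (2 * K)) (L := L) (by linarith) (by linarith)
    (by positivity) (one_div_le_one_div_of_le two_pos
      (v2.trans (le_self_pow₀ v1 (by norm_num)))) (fun s a b c d => ?_)
    (Nat.ceil_pos.2 (by linarith : 0 < y / L ^ (A + 2))) (Nat.ceil_le.2 a2)).trans ?_
  · refine (hZ s a (b.trans ?_) c d).imp_right fun h => h.trans p0
    rw [two_mul L, Real.exp_add]
    nlinarith [Real.add_one_le_exp L]
  have p1 : (y : ℝ) ^ (-(1 / v ^ 25)) ≤ 1 / L ^ k := by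
    refine (Real.rpow_le_rpow_of_nonpos (Real.exp_pos _) y1
      (neg_nonpos.2 (by positivity))).trans ?_
    rw [← Real.exp_mul, show κ * L * -(1 / v ^ 25) = -(κ / 2 * v) by
      rw [show L = v ^ 26 / 2 by linarith]; field_simp, Real.exp_neg, ← one_div]
    exact one_div_le_one_div_of_le (by positivity)
      ((pow_le_pow_left₀ (by linarith) (by linarith) k).trans hv)
  have p2 : (2 * y : ℝ) ^ (1 / L) ≤ 27 := by
    rw [Real.rpow_def_of_pos (by positivity)]
    have : Real.log (2 * y) * (1 / L) ≤ (3 : ℕ) * 1 := by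
      rw [mul_one_div, div_le_iff₀ (by linarith)]
      simpa using ly
    refine (Real.exp_le_exp.2 this).trans ?_
    rw [Real.exp_nat_mul]
    exact (pow_le_pow_left₀ (Real.exp_pos 1).le (b := 3)
      (by linarith [Real.exp_one_lt_d9]) 3).trans (by norm_num)
  have p3 : L ^ (2 * K) + 2 * L ≤ L ^ (2 * K + 2) := by
    have a : 1 ≤ L ^ (2 * K) := one_le_pow₀ L1
    rw [pow_add]
    nlinarith [mul_le_mul_of_nonneg_left a (by linarith : 0 ≤ L),
      mul_nonneg (by linarith : 0 ≤ L ^ (2 * K)) (by nlinarith : 0 ≤ L ^ 2 - 2 * L - 1)]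
  have p4 : L ^ (2 * K) ≤ L ^ (2 * K + 2) := by linarith
  have p5 : y / L ^ (A + 2) ≤ y / L ^ (A + 1) := by gcongr; omega
  generalize ⌈y / L ^ (A + 2)⌉₊ = h at *
  calc _ ≤ 8 * (y : ℝ) ^ 2 / (y / L ^ (A + 2)) * (2 * L ^ (2 * K + 2) * (1 / L ^ k) +
        L ^ (2 * K + 2) / (L ^ k / 2) * 27) + 2 * (y / L ^ (A + 1)) * 1 := by
        gcongr
        linarith
    _ = 450 / L * (y / L ^ A) := by
        rw [hk]
        field_simp
        ring
    _ ≤ _ := mul_le_of_le_one_left (by positivity) ((div_le_one (by linarith)).2 L5)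

end Pool.Agent.MP_2033ac_nt.PN
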