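import Pool.Agent.MP_2033ac_nt.PN.DefsW

namespace Pool.Agent.MP_2033ac_nt.PN
open Finset Real Filter
open Pool.Agent.MP_71ac24_nt.H14 (ei ei_add norm_ei ei_zero conj_ei norm_ei_sub)
open Pool.Agent.MP_71ac24_nt Pool.Agent.MP_a404e6_nt.W

-- helper lemmas of this row: prefix mz_

theorem mz_abel (a : ℕ → ℂ) {w : ℕ → ℝ} (hw : Monotone w) (h0 : ∀ n, 0 ≤ w n) (h1 : ∀ n, w n ≤ 1)
    {m M : ℕ} (hm : w m = 0) {D : ℝ} (hD : 0 ≤ D)
    (hS : ∀ N, m ≤ N → N ≤ M → ‖∑ n ∈ Icc 1 N, a n‖ ≤ D) {Z : ℕ} (hZ : Z ≤ M) :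
    ‖∑ n ∈ Icc 1 Z, (w n : ℂ) * a n‖ ≤ 2 * D := by
  have low : ∀ N, N ≤ m → ∑ n ∈ Icc 1 N, (w n : ℂ) * a n = 0 := fun N hN =>
    sum_eq_zero fun n hn => by
      have : w n = 0 := le_antisymm (hm ▸ hw ((mem_Icc.1 hn).2.trans hN)) (h0 n)
      rw [this, Complex.ofReal_zero, zero_mul]
  have key : ∀ N, m ≤ N → N ≤ M →
      ‖∑ n ∈ Icc 1 N, (w n : ℂ) * a n - (w N : ℂ) * ∑ n ∈ Icc 1 N, a n‖ ≤ w N * D := by
    intro N hN
    induction N, hN using Nat.le_induction with
    | base => intro _; rw [low m le_rfl, hm]; simp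
    | succ N hN ih =>
      intro h
      have e : ∑ n ∈ Icc 1 (N + 1), (w n : ℂ) * a n - (w (N + 1) : ℂ) * ∑ n ∈ Icc 1 (N + 1), a n =
          (∑ n ∈ Icc 1 N, (w n : ℂ) * a n - (w N : ℂ) * ∑ n ∈ Icc 1 N, a n) -
            ((w (N + 1) - w N : ℝ) : ℂ) * ∑ n ∈ Icc 1 N, a n := by
        rw [sum_Icc_succ_top (by omega), sum_Icc_succ_top (by omega)]
        push_cast
        ring
      have d : 0 ≤ w (N + 1) - w N := sub_nonneg.2 (hw (Nat.le_succ N))
      rw [e]
      refine (norm_sub_le _ _).trans ?_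
      rw [norm_mul, Complex.norm_real, Real.norm_of_nonneg d]
      have := mul_le_mul_of_nonneg_left (hS N hN (by omega)) d
      have := ih (by omega)
      linarith
  rcases le_total Z m with h | h
  · rw [low Z h, norm_zero]
    positivity
  · have k1 := key Z h hZ
    have k2 := norm_le_norm_add_norm_sub' (∑ n ∈ Icc 1 Z, (w n : ℂ) * a n)
      ((w Z : ℂ) * ∑ n ∈ Icc 1 Z, a n)
    rw [norm_mul, Complex.norm_real, Real.norm_of_nonneg (h0 Z)] at k2
    have k3 := mul_le_mul (h1 Z) (hS Z h hZ) (norm_nonneg _) zero_le_one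
    have k4 := mul_le_mul_of_nonneg_right (h1 Z) hD
    linarith

theorem mz_log : Monotone fun n : ℕ => Real.log n := fun a b h => by
  rcases Nat.eq_zero_or_pos a with rfl | ha
  · simpa using Real.log_natCast_nonneg b
  · exact Real.log_le_log (by exact_mod_cast ha) (by exact_mod_cast h)

theorem mz_row (hMU : MU_s) : MZ_s := by
  intro κ hκ A
  obtain ⟨B, hB⟩ := hMU (κ / 2) (by positivity) (A + 1)
  refine ⟨B, ?_⟩
  filter_upwards [hB, eventually_ge_atTop (8 : ℝ), eventually_ge_atTop (2 / κ)] with L hL h8 hk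
  intro z y t hy hyL ht htL
  have k1 : 2 ≤ κ * L := by rw [div_le_iff₀ hκ] at hk; linarith
  have e0 := exp_pos y
  have e1 : exp (y + 1 / 20) ≤ 2 * exp y := by
    rw [exp_add, mul_comm]
    refine mul_le_mul_of_nonneg_right ?_ e0.le
    have := Real.exp_bound' (x := 1 / 20) (by norm_num) (by norm_num) (n := 1) (by norm_num)
    simp only [range_one, sum_singleton, pow_zero, Nat.factorial_zero, Nat.cast_one, pow_one,
      Nat.factorial_one] at this
    linarith
  have e2 : exp (κ / 2 * L) + 1 ≤ exp y := by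
    have h1 : exp (κ * L) ≤ exp y := exp_le_exp.2 hy
    have h2 : exp (κ * L) = exp (κ / 2 * L) * exp (κ / 2 * L) := by rw [← exp_add]; ring_nf
    have h3 := add_one_le_exp (κ / 2 * L)
    nlinarith
  have L0 : 0 < L := by linarith
  set m := ⌊exp y⌋₊ with hm
  set M := ⌊exp (y + 1 / 20)⌋₊ with hM
  have hS : ∀ N, m ≤ N → N ≤ M → ‖∑ n ∈ Icc 1 N,
      (ArithmeticFunction.moebius n : ℂ) * ei (t * Real.log n)‖ ≤ 2 * exp y / L ^ (A + 1) := by
    intro N h1 h2
    have a1 : (m : ℝ) ≤ N := by exact_mod_cast h1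
    have a2 : (N : ℝ) ≤ exp (y + 1 / 20) :=
      le_trans (by exact_mod_cast h2) (Nat.floor_le (exp_pos _).le)
    have a3 := Nat.lt_floor_add_one (exp y)
    refine (hL N t (by linarith) (a2.trans (exp_le_exp.2 (by linarith))) ht htL).trans ?_
    exact div_le_div_of_nonneg_right (a2.trans e1) (by positivity)
  have lm : Real.log m ≤ y := by
    rcases Nat.eq_zero_or_pos m with h | h
    · rw [h, Nat.cast_zero, Real.log_zero]; linarith
    · rw [Real.log_le_iff_le_exp (by exact_mod_cast h)]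
      exact Nat.floor_le e0.le
  have ab : ∀ c : ℝ, 0 ≤ c → ‖∑ n ∈ Icc 1 (min z M),
      ((smoothTransition (40 * (Real.log n - y) - c) : ℝ) : ℂ) *
        ((ArithmeticFunction.moebius n : ℂ) * ei (t * Real.log n))‖ ≤
      2 * (2 * exp y / L ^ (A + 1)) := fun c hc =>
    mz_abel _ (w := fun n => smoothTransition (40 * (Real.log n - y) - c))
      (fun a b h => smoothTransition.monotone (by have := mz_log h; simp only at this; linarith))
      (fun _ => smoothTransition.nonneg _) (fun _ => smoothTransition.le_one _)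
      (smoothTransition.zero_of_nonpos (by linarith)) (by positivity) hS (min_le_right _ _)
  have van : ∀ n, min z M < n → pc (mz z) y n = 0 := fun n hn => by
    by_contra h
    have h1 := (pc_sp _ _ n h).2
    have h2 : n ≤ z := by
      by_contra h3
      exact h (by rw [pc_apply]; simp [mz, h3])
    have h3 : (0 : ℝ) < n := by exact_mod_cast (by omega : 0 < n)
    have h4 : n ≤ M := Nat.le_floor ((Real.log_le_iff_le_exp h3).1 h1)
    omega
  have eq : Dp (pc (mz z) y) t = ∑ n ∈ Icc 1 (min z M),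
      ((smoothTransition (40 * (Real.log n - y) - 0) : ℝ) : ℂ) *
        ((ArithmeticFunction.moebius n : ℂ) * ei (t * Real.log n)) - ∑ n ∈ Icc 1 (min z M),
      ((smoothTransition (40 * (Real.log n - y) - 1) : ℝ) : ℂ) *
        ((ArithmeticFunction.moebius n : ℂ) * ei (t * Real.log n)) := by
    rw [Dp_eq van, ← sum_sub_distrib]
    refine sum_congr rfl fun n hn => ?_
    have h : n ≤ z := (mem_Icc.1 hn).2.trans (min_le_left _ _)
    have : mz z n = (ArithmeticFunction.moebius n : ℝ) := if_pos h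
    rw [pc_apply, this, ps, sub_zero]
    push_cast
    ring
  rw [eq]
  refine (norm_sub_le _ _).trans ((add_le_add (ab 0 le_rfl) (ab 1 zero_le_one)).trans ?_)
  have : 2 * (2 * exp y / L ^ (A + 1)) + 2 * (2 * exp y / L ^ (A + 1)) =
      exp y / L ^ A * (8 / L) := by
    field_simp
    ring
  rw [this]
  exact mul_le_of_le_one_right (by positivity) ((div_le_one L0).2 h8)

end Pool.Agent.MP_2033ac_nt.PN
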