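import Pool.Agent.MP_2033ac_nt.PN.DefsV
import Pool.Agent.MP_a96b63_al.V.SW

namespace Pool.Agent.MP_2033ac_nt.PN
open Finset Filter
open Pool.Agent.MP_71ac24_nt.H14 (ei ei_add norm_ei ei_zero conj_ei norm_ei_sub)

-- helper lemmas of this row: prefix pnt_

theorem pnt_pp (a b : ℕ) (hb : 1 ≤ b) :
    |∑ m ∈ Ioc a b, ArithmeticFunction.vonMangoldt m -
      ∑ m ∈ Ioc a b, (if m.Prime then Real.log m else 0)| ≤ 2 * √(b : ℝ) * Real.log b := by
  have h0 : ∀ m : ℕ, 0 ≤ ArithmeticFunction.vonMangoldt m - (if m.Prime then Real.log m else 0) := by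
    intro m
    split_ifs with h
    · rw [ArithmeticFunction.vonMangoldt_apply_prime h, sub_self]
    · rw [sub_zero]; exact ArithmeticFunction.vonMangoldt_nonneg
  rw [← sum_sub_distrib, abs_of_nonneg (sum_nonneg fun m _ => h0 m)]
  refine (sum_le_sum_of_subset_of_nonneg (Ioc_subset_Ioc_left (Nat.zero_le a))
    fun m _ _ => h0 m).trans ?_
  have h1 := Chebyshev.psi_sub_theta_le (x := (b : ℝ)) (by exact_mod_cast hb)
  rwa [Chebyshev.psi, Chebyshev.theta, Nat.floor_natCast, sum_filter, ← sum_sub_distrib] at h1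

theorem pnt_row : PNT_s := by
  intro A
  obtain ⟨N, hN⟩ := eventually_atTop.1 (MP_a96b63_al.H5.sw (A + 1) 0)
  have e1 : ∀ᶠ x : ℕ in atTop, Real.log x ^ (2 * A + 2) ≤ 1 / 16 * (x : ℝ) := by
    have := (Real.isLittleO_pow_log_id_atTop (n := 2 * A + 2)).bound (c := 1 / 16) (by norm_num)
    filter_upwards [tendsto_natCast_atTop_atTop.eventually this] with x hx
    simp only [id, Real.norm_eq_abs, Nat.abs_cast] at hx
    exact (le_abs_self _).trans hx
  filter_upwards [e1, MP_a96b63_al.H5.ev_log_ge (2 ^ (A + 2)), eventually_ge_atTop (2 * N + 4)]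
    with x h1 h2 h3 K hK
  have h4 := hN (x - x / 2) (by omega) 1 0 (x - K) x one_pos (by simp) (by simp) (by omega)
    (by omega) (by omega)
  have h5 := pnt_pp (x - K) x (by omega)
  have h6 : ∀ n : ℕ, MP_a96b63_al.H5.apl 1 0 n = if n.Prime then Real.log n else 0 := fun n => by
    simp [MP_a96b63_al.H5.apl, MP_a96b63_al.H5.lam, Nat.modEq_one]
  simp only [h6, Nat.totient_one, Nat.cast_one, div_one] at h4
  rw [Nat.cast_sub (by omega : K ≤ x), sub_sub_cancel] at h4
  obtain ⟨x', hx'⟩ : ∃ x' : ℕ, x' = x - x / 2 := ⟨_, rfl⟩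
  rw [← hx'] at h4
  have a1 : (x' : ℝ) ≤ x := by exact_mod_cast (by omega : x' ≤ x)
  have a2 : (x : ℝ) ≤ (x' : ℝ) ^ 2 := by
    have : x ≤ x' ^ 2 := by nlinarith [(by omega : x ≤ 2 * x'), (by omega : 2 ≤ x')]
    exact_mod_cast this
  have x0 : (0 : ℝ) < x := by exact_mod_cast (by omega : 0 < x)
  have L0 : 0 < Real.log x := lt_of_lt_of_le (by positivity) h2
  have a3 : Real.log x / 2 ≤ Real.log x' := by
    have := Real.log_le_log x0 a2
    rw [Real.log_pow] at this
    push_cast at this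
    linarith
  have a4 : (x' : ℝ) / Real.log x' ^ (A + 1) ≤ x / Real.log x ^ A / 2 := by
    refine (div_le_div₀ x0.le a1 (by positivity : 0 < (Real.log x / 2) ^ (A + 1))
      (pow_le_pow_left₀ (by positivity) a3 _)).trans ?_
    rw [div_div]
    refine div_le_div_of_nonneg_left x0.le (by positivity) ?_
    rw [div_pow, le_div_iff₀ (by positivity), pow_succ (Real.log x), mul_assoc]
    refine mul_le_mul_of_nonneg_left ?_ (by positivity)
    rw [← pow_succ']
    exact h2
  have a5 : 2 * √(x : ℝ) * Real.log x ≤ x / Real.log x ^ A / 2 := by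
    have b1 : 4 * Real.log x ^ (A + 1) ≤ √(x : ℝ) := by
      refine Real.le_sqrt_of_sq_le ?_
      rw [mul_pow, ← pow_mul, (by ring : (A + 1) * 2 = 2 * A + 2)]
      linarith
    have b2 := mul_le_mul_of_nonneg_left b1 (Real.sqrt_nonneg (x : ℝ))
    rw [Real.mul_self_sqrt x0.le] at b2
    rw [div_div, le_div_iff₀ (by positivity)]
    calc _ = √(x : ℝ) * (4 * Real.log x ^ (A + 1)) := by ring
      _ ≤ _ := b2
  have a6 := abs_sub_le (∑ m ∈ Ioc (x - K) x, ArithmeticFunction.vonMangoldt m)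
    (∑ m ∈ Ioc (x - K) x, (if m.Prime then Real.log m else 0)) (K : ℝ)
  linarith

end Pool.Agent.MP_2033ac_nt.PN
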