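import Pool.Agent.MP_2033ac_nt.PN.DefsW

namespace Pool.Agent.MP_2033ac_nt.PN
open Finset Real Filter
open Pool.Agent.MP_71ac24_nt.H14 (ei ei_add norm_ei ei_zero conj_ei norm_ei_sub)
open Pool.Agent.MP_71ac24_nt Pool.Agent.MP_a404e6_nt.W

theorem spa_rest (F y : Fin 24 → ℝ) (h0 : ∀ i, 0 ≤ F i) (h1 : ∀ i, F i ≤ exp (y i + 1 / 20))
    (T : Finset (Fin 24)) : ∏ i ∈ T, F i ≤ exp (∑ i ∈ T, y i + 2) := by
  refine (prod_le_prod (fun i _ => h0 i) fun i _ => h1 i).trans ?_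
  rw [← exp_sum, sum_add_distrib, sum_const, nsmul_eq_mul]
  have : (#T : ℝ) ≤ 24 := by exact_mod_cast (card_le_univ T).trans_eq (Fintype.card_fin 24)
  exact exp_le_exp.2 (by linarith)

theorem spa_two (F : Fin 24 → ℤ → ℝ) (y : Fin 24 → ℝ) (S : Finset ℤ) (h0 : ∀ i t, 0 ≤ F i t)
    {a b : Fin 24} (hab : b ≠ a) {P Q R δ : ℝ} (hR : 0 ≤ R) (hδ : 0 ≤ δ) (hPQ : P * Q ≤ R ^ 2)
    (hP : ∑ t ∈ S, F a t ^ 2 ≤ exp (2 * y a) * P) (hQ : ∑ t ∈ S, F b t ^ 2 ≤ exp (2 * y b) * Q)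
    (h : ∀ t ∈ S, ∏ i ∈ (univ.erase a).erase b, F i t ≤
      δ * exp (∑ i ∈ (univ.erase a).erase b, y i + 2)) :
    ∑ t ∈ S, ∏ i, F i t ≤ δ * R * exp (∑ i, y i + 2) := by
  have hb : b ∈ univ.erase a := mem_erase.2 ⟨hab, mem_univ _⟩
  have c1 : ∑ t ∈ S, F a t * F b t ≤ R * (exp (y a) * exp (y b)) := by
    refine (pow_le_pow_iff_left₀ (sum_nonneg fun t _ => mul_nonneg (h0 _ _) (h0 _ _)) (by positivity)
      two_ne_zero).1 ((sum_mul_sq_le_sq_mul_sq S _ _).trans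
      ((mul_le_mul hP hQ (sum_nonneg fun _ _ => sq_nonneg _)
        ((sum_nonneg fun _ _ => sq_nonneg _).trans hP)).trans ?_))
    rw [two_mul (y a), two_mul (y b), exp_add, exp_add]
    calc _ = P * Q * (exp (y a) * exp (y b)) ^ 2 := by ring
      _ ≤ R ^ 2 * (exp (y a) * exp (y b)) ^ 2 := by gcongr
      _ = _ := by ring
  calc _ ≤ ∑ t ∈ S, F a t * F b t * (δ * exp (∑ i ∈ (univ.erase a).erase b, y i + 2)) := by
        refine sum_le_sum fun t ht => ?_
        rw [← mul_prod_erase _ _ (mem_univ a), ← mul_prod_erase _ _ hb, ← mul_assoc]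
        exact mul_le_mul_of_nonneg_left (h t ht) (mul_nonneg (h0 _ _) (h0 _ _))
    _ ≤ R * (exp (y a) * exp (y b)) * (δ * exp (∑ i ∈ (univ.erase a).erase b, y i + 2)) := by
        rw [← sum_mul]
        gcongr
    _ = _ := by
        rw [← add_sum_erase _ _ (mem_univ a), ← add_sum_erase _ _ hb, add_assoc, add_assoc,
          exp_add (y a), exp_add (y b)]
        ring

theorem spa_cnt (y : Fin 24 → ℝ) {u Y : ℝ} (hu : 0 ≤ u) (h : ∀ i, u ≤ y i → y i ≤ Y) :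
    ∑ i, y i ≤ #{i | u ≤ y i} * Y + 24 * u := by
  rw [← sum_filter_add_sum_filter_not univ (fun i => u ≤ y i)]
  have c1 := sum_le_card_nsmul _ y Y fun i (hi : i ∈ univ.filter fun i => u ≤ y i) =>
    h i (mem_filter.1 hi).2
  have c2 := sum_le_card_nsmul _ y u fun i (hi : i ∈ univ.filter fun i => ¬ u ≤ y i) =>
    (not_le.1 (mem_filter.1 hi).2).le
  have c3 : (#(univ.filter fun i => ¬ u ≤ y i) : ℝ) ≤ 24 := by
    exact_mod_cast (card_le_univ _).trans_eq (Fintype.card_fin 24)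
  rw [nsmul_eq_mul] at c1 c2
  nlinarith

theorem spa_row (hSQ : SQ_s) (hHAL : HAL_s) (hMZ : MZ_s) : SPA_s := by
  intro C0 κ k0 k1
  obtain ⟨βH, H0, hH⟩ := hHAL κ k0
  obtain ⟨βZ, C, Z0, C1, hZ⟩ := zpt C0 κ k0
  refine ⟨min 1 (min (βH * κ / 2) (βZ * κ / 2)), by positivity, min_le_left _ _, fun A => ?_⟩
  set l0 := min 1 (min (βH * κ / 2) (βZ * κ / 2)) with hl0
  have l1 : l0 ≤ βH * κ / 2 := (min_le_right _ _).trans (min_le_left _ _)
  have l2 : l0 ≤ βZ * κ / 2 := (min_le_right _ _).trans (min_le_right _ _)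
  obtain ⟨B, hB⟩ := hMZ κ k0 (A + 3)
  refine ⟨B + (2 * A + 5), ?_⟩
  filter_upwards [hH, hB, ev_lin 1 (βZ * κ) (by positivity) (B + (2 * A + 5)),
    eventually_ge_atTop (3 / κ), eventually_ge_atTop (2 * exp 3), eventually_ge_atTop 200,
    eventually_ge_atTop (20 * C ^ 2)]
    with L e1 e2 e3 e4 e5 e6 e7 g y S h1 h2 h3 h4 h5 h6 h7 h8
  have L1 : 1 ≤ L := by linarith
  have L0 : 0 < L := by linarith
  have k3 : 3 ≤ κ * L := by rw [div_le_iff₀ k0] at e4; linarith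
  have f0 : ∀ i (t : ℤ), 0 ≤ ‖Dp (g i) t‖ := fun _ _ => norm_nonneg _
  have f1 : ∀ i (t : ℤ), ‖Dp (g i) t‖ ≤ exp (y i + 1 / 20) := fun i t =>
    (Dp_le (h3 i) (h2 i) t).trans_eq (one_mul _)
  have f2 : ∀ i, κ * L ≤ y i → ∑ t ∈ S, ‖Dp (g i) t‖ ^ 2 ≤ exp (2 * y i) * (2 * L ^ 2) := by
    intro i hi
    refine (e1 (g i) (y i) S (h2 i) (h3 i) hi fun t ht => (h7 t ht).2).trans
      (mul_le_mul_of_nonneg_left ?_ (exp_pos _).le)
    have c1 : (#S : ℝ) * exp (-βH * y i) ≤ 1 := by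
      refine (mul_le_mul_of_nonneg_right h8 (exp_pos _).le).trans ?_
      rw [← exp_add, exp_le_one_iff]
      nlinarith [mul_le_mul_of_nonneg_left hi H0.le, mul_le_mul_of_nonneg_right l1 L0.le]
    rw [mul_assoc]
    nlinarith [mul_le_mul_of_nonneg_left c1 L0.le]
  have fin : ∀ x : ℝ, 0 ≤ x → x ≤ 2 / L ^ (A + 1) → x * exp (∑ i, y i + 2) ≤ exp L / L ^ A := by
    intro x x0 x1
    calc _ ≤ 2 / L ^ (A + 1) * exp (L + 3) :=
          mul_le_mul x1 (exp_le_exp.2 (by linarith)) (exp_pos _).le (by positivity)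
      _ = exp L / L ^ A * (2 * exp 3 / L) := by rw [exp_add]; field_simp; ring
      _ ≤ _ := mul_le_of_le_one_right (by positivity) ((div_le_one L0).2 e5)
  by_cases hc : ∃ a, κ * L ≤ y a ∧ ZP C0 (g a) (y a)
  · obtain ⟨a, a1, a2⟩ := hc
    have c1 := spa_cnt y (u := κ * L) (Y := 9 * L / 10) (by linarith) fun i _ => h1 i
    have c2 : 1 < #{i | κ * L ≤ y i} := by
      by_contra hn
      have : (#{i | κ * L ≤ y i} : ℝ) ≤ 1 := by exact_mod_cast not_lt.1 hn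
      nlinarith
    obtain ⟨b, b1, b2⟩ := exists_mem_ne c2 a
    have t1 : L ≤ L ^ (B + (2 * A + 5)) := le_self_pow₀ L1 (by omega)
    have c3 : ∑ t ∈ S, ‖Dp (g a) t‖ ^ 2 ≤
        exp (2 * y a) * (10 * C ^ 2 / L ^ (B + (2 * A + 5))) := by
      have d1 := hSQ _ S (L1.trans t1) fun t ht => (h7 t ht).1
      have d2 : (#S : ℝ) * exp (-βZ * y a) ^ 2 ≤ 1 / L ^ (B + (2 * A + 5)) := by
        refine (mul_le_mul_of_nonneg_right h8 (by positivity)).trans ?_
        rw [le_div_iff₀ (by positivity), ← one_mul (L ^ _)]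
        refine (mul_le_mul_of_nonneg_left e3 (by positivity)).trans ?_
        rw [sq, ← exp_add, ← exp_add, ← exp_add, exp_le_one_iff]
        nlinarith [mul_le_mul_of_nonneg_left a1 Z0.le, mul_le_mul_of_nonneg_right l2 L0.le]
      calc _ ≤ ∑ t ∈ S, exp (2 * y a) * (2 * C ^ 2) *
            (1 / (t : ℝ) ^ 2 + exp (-βZ * y a) ^ 2) := sum_le_sum fun t ht => by
            have := hZ (g a) (y a) t a2 (h3 a) (by linarith) (by linarith [(h7 t ht).1])
              ((h7 t ht).2.trans (exp_le_exp.2 (by rw [le_div_iff₀ k0]; linarith)))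
            refine (pow_le_pow_left₀ (f0 _ _) this 2).trans ?_
            rw [two_mul (y a), exp_add, ← sq_abs (t : ℝ), ← one_div_pow]
            generalize 1 / |(t : ℝ)| = u
            generalize exp (-βZ * y a) = v
            have := mul_nonneg (sq_nonneg (C * exp (y a))) (sq_nonneg (u - v))
            linarith
        _ = exp (2 * y a) * (2 * C ^ 2) *
            (∑ t ∈ S, 1 / (t : ℝ) ^ 2 + #S * exp (-βZ * y a) ^ 2) := by
            rw [← mul_sum, sum_add_distrib, sum_const, nsmul_eq_mul]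
        _ ≤ exp (2 * y a) * (2 * C ^ 2) *
            (4 / L ^ (B + (2 * A + 5)) + 1 / L ^ (B + (2 * A + 5))) := by gcongr
        _ = _ := by ring
    refine (spa_two (fun i t => ‖Dp (g i) t‖) y S f0 b2 (R := 1 / L ^ (A + 1)) (δ := 1)
      (by positivity) zero_le_one ?_ c3 (f2 b (mem_filter.1 b1).2) fun t _ =>
        (spa_rest _ y (f0 · t) (f1 · t) _).trans_eq (one_mul _).symm).trans
      (fin _ (by positivity) (by rw [one_mul]; gcongr; norm_num))
    rw [one_div_pow, div_mul_eq_mul_div, div_le_div_iff₀ (by positivity) (by positivity), one_mul]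
    calc _ = 20 * C ^ 2 * L ^ (2 * A + 4) := by ring
      _ ≤ L * L ^ (2 * A + 4) := by gcongr
      _ = L ^ (2 * A + 5) := by ring
      _ ≤ _ := pow_le_pow_right₀ L1 (by omega)
  · have m1 : ∀ i, κ * L ≤ y i → Mo L (g i) (y i) := fun i hi =>
      (h4 i).resolve_left fun h => hc ⟨i, hi, h⟩
    have c1 := spa_cnt y (u := κ * L) (Y := L / 12 + 1) (by linarith) fun i hi => (m1 i hi).2
    have c2 : 2 < #{i | κ * L ≤ y i} := by
      by_contra hn
      have : (#{i | κ * L ≤ y i} : ℝ) ≤ 2 := by exact_mod_cast not_lt.1 hn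
      nlinarith
    obtain ⟨a, a1, b, b1, c, c3, ab, ac, bc⟩ := two_lt_card.1 c2
    have hcm : c ∈ (univ.erase a).erase b :=
      mem_erase.2 ⟨bc.symm, mem_erase.2 ⟨ac.symm, mem_univ _⟩⟩
    refine (spa_two (fun i t => ‖Dp (g i) t‖) y S f0 ab.symm (R := 2 * L ^ 2)
      (δ := 1 / L ^ (A + 3)) (by positivity) (by positivity) (sq _).ge
      (f2 a (mem_filter.1 a1).2) (f2 b (mem_filter.1 b1).2) fun t ht => ?_).trans
      (fin _ (by positivity) (le_of_eq (by field_simp; ring)))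
    obtain ⟨⟨z, hz⟩, -⟩ := m1 c (mem_filter.1 c3).2
    have d1 := e2 z (y c) t (mem_filter.1 c3).2 (by linarith [h1 c])
      ((pow_le_pow_right₀ L1 (by omega)).trans (h7 t ht).1.le) (h7 t ht).2
    rw [← hz] at d1
    rw [← mul_prod_erase _ _ hcm, ← add_sum_erase _ _ hcm, add_assoc, exp_add (y c)]
    refine (mul_le_mul d1 (spa_rest _ y (f0 · t) (f1 · t) _) (prod_nonneg fun i _ => f0 i t)
      (by positivity)).trans_eq (by ring)

end Pool.Agent.MP_2033ac_nt.PN
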