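import Pool.Agent.MP_2033ac_nt.PN.DefsW

namespace Pool.Agent.MP_2033ac_nt.PN
open Finset Real Filter
open Pool.Agent.MP_71ac24_nt.H14 (ei ei_add norm_ei ei_zero conj_ei norm_ei_sub)
open Pool.Agent.MP_71ac24_nt Pool.Agent.MP_a404e6_nt.W

-- helper lemmas of this row: prefix sq_

theorem sq_nat (a n : ℕ) (ha : 1 ≤ a) : ∑ k ∈ Ioc a (a + n), 1 / (k : ℝ) ^ 2 ≤
    1 / (a : ℝ) - 1 / ((a + n : ℕ) : ℝ) := by
  induction n with
  | zero => simp
  | succ n ih =>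
    rw [← add_assoc, sum_Ioc_succ_top (Nat.le_add_right a n)]
    have h : (1 : ℝ) ≤ (a + n : ℕ) := by exact_mod_cast ha.trans (Nat.le_add_right a n)
    have e : 1 / ((a + n + 1 : ℕ) : ℝ) ^ 2 ≤ 1 / (a + n : ℕ) - 1 / (a + n + 1 : ℕ) := by
      rw [Nat.cast_succ (a + n)]
      generalize ((a + n : ℕ) : ℝ) = x at h
      rw [div_sub_div _ _ (by positivity) (by positivity), div_le_div_iff₀ (by positivity) (by positivity)]
      nlinarith
    linarith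

theorem sq_row : SQ_s := by
  intro t0 S h1 hS
  have a1 : 1 ≤ ⌊t0⌋₊ := Nat.le_floor (by simpa using h1)
  have a2 : t0 < ⌊t0⌋₊ + 1 := Nat.lt_floor_add_one t0
  have a3 : (1 : ℝ) ≤ ⌊t0⌋₊ := by exact_mod_cast a1
  have a4 : (⌊t0⌋₊ : ℝ) ≤ t0 := Nat.floor_le (by linarith)
  set a := ⌊t0⌋₊
  obtain ⟨n, hn⟩ : ∃ n : ℕ, ∀ t ∈ S, t.natAbs ≤ n := ⟨S.sup Int.natAbs, fun t ht => le_sup ht⟩
  have m : ∀ t ∈ S, t.natAbs ∈ Ioc a (a + n) := fun t ht => by
    have : (a : ℝ) < t.natAbs := by simpa using a4.trans_lt (hS t ht)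
    exact mem_Ioc.2 ⟨by exact_mod_cast this, (hn t ht).trans (Nat.le_add_left _ _)⟩
  rw [← sum_fiberwise_of_maps_to m]
  have b : ∀ k ∈ Ioc a (a + n), ∑ t ∈ S with t.natAbs = k, 1 / (t : ℝ) ^ 2 ≤ 2 * (1 / (k : ℝ) ^ 2) := by
    intro k _
    have c1 : S.filter (fun t => t.natAbs = k) ⊆ {(k : ℤ), -(k : ℤ)} := fun t ht => by
      have := (mem_filter.1 ht).2
      simp only [mem_insert, mem_singleton]
      omega
    have c2 : (#(S.filter fun t => t.natAbs = k) : ℝ) ≤ 2 := by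
      exact_mod_cast (card_le_card c1).trans card_le_two
    rw [sum_congr rfl (g := fun _ => 1 / (k : ℝ) ^ 2) fun t ht => by
      rw [← (mem_filter.1 ht).2]; simp, sum_const, nsmul_eq_mul]
    gcongr
  refine (sum_le_sum b).trans ?_
  rw [← mul_sum]
  have d := sq_nat a n a1
  have d0 : (0 : ℝ) ≤ 1 / (a + n : ℕ) := by positivity
  have d1 : 1 / (a : ℝ) ≤ 2 / t0 := by
    rw [div_le_div_iff₀ (by linarith) (by linarith)]; linarith
  calc _ ≤ 2 * (2 / t0) := by linarith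
    _ = _ := by ring

end Pool.Agent.MP_2033ac_nt.PN
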