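import Pool.Agent.MP_2033ac_nt.PN.DefsW

namespace Pool.Agent.MP_2033ac_nt.PN
open Finset Real Filter
open Pool.Agent.MP_71ac24_nt.H14 (ei ei_add norm_ei ei_zero conj_ei norm_ei_sub)
open Pool.Agent.MP_71ac24_nt Pool.Agent.MP_a404e6_nt.W

-- helper lemmas of this row: prefix wl_

theorem wl_row : WL_s := by
  intro A
  obtain ⟨C, C0, c, hc, H⟩ := fs ps ps_smooth (fun _ => ps_zero) A
  refine ⟨3 * C, by positivity, fun b σ y y' t0 a a' B D U s0 s1 hU t1 hB hs hD h1 h2 h3 h4 => ?_⟩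
  have D0 : 0 ≤ D := (norm_nonneg _).trans (hD 0)
  have B0 : 0 ≤ B := (abs_nonneg _).trans (hB 0)
  have U0 : (0 : ℝ) < U := by exact_mod_cast hU
  have one : ∀ w : ℝ, w - 3 ≤ a → a' ≤ w + 3 → ‖(Hw σ b w : ℂ) - ∑ t ∈ Icc (-(U : ℤ)) U,
      σ * c (σ * t) * ei (-(t * w)) * Dp b t‖ ≤ C * (B * exp a' / (σ * U) ^ (A + 1)) := by
    intro w g1 g2
    simp only [Hw_eq s0 fun m hm => .inl (hs.zero hm), Dp_eq fun _ => hs.zero, mul_sum,
      Complex.ofReal_sum]
    rw [sum_comm, ← sum_sub_distrib]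
    refine (norm_sum_le_of_le _ (n := fun _ => B * (C / (σ * U) ^ (A + 1))) fun m _ => ?_).trans ?_
    · rcases eq_or_ne (b m) 0 with e | e
      · simp only [e, zero_mul, Complex.ofReal_zero, mul_zero, sum_const_zero, sub_zero, norm_zero]
        positivity
      refine le_trans (le_of_eq ?_) (mul_le_mul (hB m) (H σ (Real.log m - w) U s0 s1
        (abs_le.2 ⟨by linarith [(hs m e).1], by linarith [(hs m e).2]⟩) hU) (norm_nonneg _) B0)
      rw [← Real.norm_eq_abs, ← Complex.norm_real, ← norm_mul, mul_sub, mul_sum, Complex.ofReal_mul]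
      congr 2
      refine sum_congr rfl fun t _ => ?_
      rw [mul_sub, sub_eq_neg_add, ei_add]
      ring
    · rw [sum_const, Nat.card_Icc, Nat.add_sub_cancel, nsmul_eq_mul]
      refine (mul_le_mul_of_nonneg_right (Nat.floor_le (exp_pos a').le) (by positivity)).trans_eq ?_
      ring
  have two : ∀ t : ℤ, ‖σ * c (σ * t) * ei (-(t * y)) * Dp b t -
      σ * c (σ * t) * ei (-(t * y')) * Dp b t‖ ≤ σ * C * ((if |(t : ℝ)| ≤ t0 then
        t0 * |y - y'| * D else 0) + if t0 < |(t : ℝ)| then 2 * ‖Dp b t‖ else 0) := by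
    intro t
    rw [← sub_mul, ← mul_sub, norm_mul, norm_mul, norm_mul, Complex.norm_real, norm_of_nonneg s0.le,
      mul_assoc]
    refine mul_le_mul (mul_le_mul_of_nonneg_left ((hc _).trans (div_le_self C0.le
      (one_le_pow₀ (by linarith [abs_nonneg (σ * t)])))) s0.le) ?_ (by positivity) (by positivity)
    rcases le_or_gt |(t : ℝ)| t0 with g | g
    · rw [if_pos g, if_neg (not_lt.2 g), add_zero]
      refine mul_le_mul ((norm_ei_sub _ _).trans ?_) (hD _) (norm_nonneg _)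
        (by have := t1.trans' zero_le_one; positivity)
      rw [neg_sub_neg, ← mul_sub, abs_mul, abs_sub_comm]
      exact mul_le_mul_of_nonneg_right g (abs_nonneg _)
    · rw [if_pos g, if_neg (not_le.2 g), zero_add]
      exact mul_le_mul_of_nonneg_right ((norm_sub_le _ _).trans (by
        rw [norm_ei, norm_ei, one_add_one_eq_two])) (norm_nonneg _)
  have three : (#((Icc (-(U : ℤ)) U).filter fun t : ℤ => |(t : ℝ)| ≤ t0) : ℝ) ≤ 3 * t0 := by
    have k1 : (Icc (-(U : ℤ)) U).filter (fun t : ℤ => |(t : ℝ)| ≤ t0) ⊆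
        Icc (-(⌊t0⌋₊ : ℤ)) ⌊t0⌋₊ := fun t ht => by
      have := Nat.le_floor (n := t.natAbs) (by simpa using (mem_filter.1 ht).2 : _ ≤ t0)
      rw [mem_Icc]
      omega
    have k2 := card_le_card k1
    rw [Int.card_Icc, show ((⌊t0⌋₊ : ℤ) + 1 - -⌊t0⌋₊).toNat = 2 * ⌊t0⌋₊ + 1 by omega] at k2
    have k3 : (_ : ℝ) ≤ _ := Nat.cast_le.2 k2
    push_cast at k3
    linarith [Nat.floor_le (show 0 ≤ t0 by linarith)]
  have k := (norm_sum_le_of_le (Icc (-(U : ℤ)) U) fun t _ => two t)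
  rw [sum_sub_distrib, ← mul_sum, sum_add_distrib, ← sum_filter, ← sum_filter, sum_const,
    nsmul_eq_mul, ← mul_sum] at k
  have o1 := one y h1 h2
  have o2 := one y' h3 h4
  have k4 := mul_le_mul_of_nonneg_left (mul_le_mul_of_nonneg_right three
    (show 0 ≤ t0 * |y - y'| * D by have := t1.trans' zero_le_one; positivity))
    (show 0 ≤ σ * C by positivity)
  have k5 : 0 ≤ σ * C * ∑ t ∈ (Icc (-(U : ℤ)) U).filter (fun t : ℤ => t0 < |(t : ℝ)|), ‖Dp b t‖ := by
    positivity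
  rw [← Real.norm_eq_abs, ← Complex.norm_real, Complex.ofReal_sub]
  refine (norm_sub_le_norm_sub_add_norm_sub _ _ _).trans ((add_le_add o1
    ((norm_sub_le_norm_sub_add_norm_sub _ _ _).trans (add_le_add k
      ((norm_sub_rev _ _).trans_le o2)))).trans ?_)
  have k6 : 0 ≤ C * (B * exp a' / (σ * U) ^ (A + 1)) := by positivity
  linarith

end Pool.Agent.MP_2033ac_nt.PN
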