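import Pool.Agent.MP_2033ac_nt.PN.DefsV
import Pool.Agent.MP_f0209c_nt.Zeta

namespace Pool.Agent.MP_2033ac_nt.PN
open Finset Filter
open Pool.Agent.MP_71ac24_nt.H14 (ei ei_add norm_ei ei_zero conj_ei norm_ei_sub)

-- helper lemmas of this row: prefix za_

open Complex Pool.Agent.MP_f0209c_nt in
theorem za_norm (n : ℕ) {s : ℂ} (h0 : 0 ≤ s.re) (h1 : s ≠ 1) :
    ‖zt n s‖ ≤ ‖s‖ * (n + 1 : ℝ) ^ (-s.re - 1) := by
  set a : ℝ := n + 1 with ha
  have a1 : 1 ≤ a := by rw [ha]; linarith [(n.cast_nonneg : (0 : ℝ) ≤ n)]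
  have hs : 1 - s ≠ 0 := sub_ne_zero.2 h1.symm
  set C := ‖s‖ * a ^ (-s.re - 1) with hC
  have C0 : 0 ≤ C := by positivity
  have p1 : ∀ x ∈ Set.Icc a (a + 1),
      ‖exp (-s * Real.log x) - exp (-s * Real.log a)‖ ≤ C * (x - a) :=
    norm_image_sub_le_of_norm_deriv_le_segment'
      (f := fun y : ℝ => exp (-s * Real.log y)) (f' := fun x => -s * exp ((-s - 1) * Real.log x))
      (fun x hx => (hasDerivAt_pw (-s) (by linarith [hx.1])).hasDerivWithinAt) fun x hx => by
        rw [norm_mul, norm_neg, norm_pw _ (by linarith [hx.1])]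
        refine mul_le_mul_of_nonneg_left ?_ (norm_nonneg _)
        have e : (-s - 1).re = -s.re - 1 := by simp
        rw [e]
        exact Real.rpow_le_rpow_of_nonpos (by linarith) hx.1 (by linarith)
  have p2 := norm_image_sub_le_of_norm_deriv_le_segment' (C := C)
      (f := fun y : ℝ => y * exp (-s * Real.log a) - exp ((1 - s) * Real.log y) / (1 - s))
      (f' := fun x => exp (-s * Real.log a) - exp (-s * Real.log x)) (a := a) (b := a + 1)
      (fun x hx => by
        have d1 := (hasDerivAt_pw (1 - s) (x := x) (by linarith [hx.1])).div_const (1 - s)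
        have d2 : HasDerivAt (fun y : ℝ => (y : ℂ) * exp (-s * Real.log a))
            (1 * exp (-s * Real.log a)) x := (ofRealCLM.hasDerivAt).mul_const _
        refine ((d2.sub d1).congr_deriv ?_).hasDerivWithinAt
        rw [mul_div_cancel_left₀ _ hs, one_mul, show 1 - s - 1 = -s by ring])
      (fun x hx => by
        rw [norm_sub_rev]
        refine (p1 x (Set.Ico_subset_Icc_self hx)).trans ?_
        nlinarith [hx.2]) (a + 1) (Set.right_mem_Icc.2 (by linarith))
  refine le_trans (le_of_eq ?_) (p2.trans (le_of_eq (by ring)))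
  unfold zt
  rw [← ha]
  push_cast
  congr 1
  ring

theorem za_step {x σ : ℝ} (hx : 0 < x) (hσ : 1 / 2 ≤ σ) :
    (x + 1) ^ (-σ - 1) ≤ 2 * (x ^ (-σ) - (x + 1) ^ (-σ)) := by
  have x1 : 0 < x + 1 := by linarith
  have l1 : 1 / (x + 1) ≤ Real.log (x + 1) - Real.log x := by
    have := Real.one_sub_inv_le_log_of_pos (div_pos x1 hx)
    rw [Real.log_div x1.ne' hx.ne', inv_div] at this
    refine le_trans (le_of_eq ?_) this
    field_simp
    ring
  have e1 : x ^ (-σ) = (x + 1) ^ (-σ) * Real.exp (σ * (Real.log (x + 1) - Real.log x)) := by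
    rw [Real.rpow_def_of_pos hx, Real.rpow_def_of_pos x1, ← Real.exp_add]
    congr 1
    ring
  have e2 : (x + 1) ^ (-σ - 1) = (x + 1) ^ (-σ) * (1 / (x + 1)) := by
    rw [Real.rpow_sub_one x1.ne']
    ring
  have l2 := Real.add_one_le_exp (σ * (Real.log (x + 1) - Real.log x))
  have l0 : 0 ≤ 1 / (x + 1) := by positivity
  have l3 : 1 / (x + 1) ≤ 2 * (Real.exp (σ * (Real.log (x + 1) - Real.log x)) - 1) := by
    nlinarith
  have p : 0 ≤ (x + 1) ^ (-σ) := by positivity
  rw [e1, e2]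
  nlinarith [mul_le_mul_of_nonneg_left l3 p]

theorem za_tail {σ : ℝ} (hσ : 1 / 2 ≤ σ) {N : ℕ} (hN : 1 ≤ N) (m : ℕ) :
    ∑ n ∈ range m, (((n + N : ℕ) : ℝ) + 1) ^ (-σ - 1) ≤
      2 * ((N : ℝ) ^ (-σ) - ((m + N : ℕ) : ℝ) ^ (-σ)) := by
  induction m with
  | zero => simp
  | succ m ih =>
    have := za_step (x := ((m + N : ℕ) : ℝ)) (by exact_mod_cast (by omega : 0 < m + N)) hσ
    have e : ((m + 1 + N : ℕ) : ℝ) = ((m + N : ℕ) : ℝ) + 1 := by push_cast; ring
    rw [sum_range_succ, e]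
    linarith

open Complex Pool.Agent.MP_f0209c_nt in
theorem za_tel {s : ℂ} (N : ℕ) : ∑ n ∈ range N, zt n s =
    ∑ n ∈ Icc 1 N, exp (-s * Real.log n) -
      (exp ((1 - s) * Real.log (N + 1 : ℝ)) - 1) / (1 - s) := by
  induction N with
  | zero => simp
  | succ N ih =>
    rw [sum_range_succ, sum_Icc_succ_top (by omega), ih, zt]
    push_cast
    ring

open Complex Pool.Agent.MP_f0209c_nt in
theorem za_row : ZA_s := by
  intro s N h0 hi hN
  have h1 : s ≠ 1 := fun h => by
    rw [h] at hi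
    norm_num at hi
  have hs1 : 1 - s ≠ 0 := sub_ne_zero.2 h1.symm
  have hs2 : s - 1 ≠ 0 := sub_ne_zero.2 h1
  have hz : Summable fun n => zt n s :=
    (summable_11.mul_left ‖s‖).of_norm_bounded fun n => norm_zt n (by linarith) h1
  have e : riemannZeta s - ∑ n ∈ Icc 1 N, exp (-s * Real.log n) =
      exp ((1 - s) * Real.log (N + 1 : ℝ)) / (s - 1) + ∑' n, zt (n + N) s := by
    rw [zeta_eq (by linarith) (by linarith), ← hz.sum_add_tsum_nat_add N, za_tel]
    field_simp
    ring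
  have t : ‖∑' n, zt (n + N) s‖ ≤ 2 * ‖s‖ * (N : ℝ) ^ (-s.re) := by
    refine le_of_tendsto' ((summable_nat_add_iff N).2 hz).hasSum.tendsto_sum_nat.norm fun m => ?_
    refine (norm_sum_le_of_le _ fun n _ => za_norm (n + N) (by linarith) h1).trans ?_
    rw [← mul_sum]
    have b1 := za_tail h0 hN m
    have b2 : 0 ≤ ((m + N : ℕ) : ℝ) ^ (-s.re) := by positivity
    have b3 := mul_le_mul_of_nonneg_left
      (b1.trans (by linarith : _ ≤ 2 * (N : ℝ) ^ (-s.re))) (norm_nonneg s)
    linarith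
  rw [e]
  refine (norm_add_le _ _).trans (add_le_add ?_ t)
  rw [norm_div, norm_pw _ (by positivity)]
  have e2 : (1 - s).re = 1 - s.re := by simp
  rw [e2]
  refine div_le_div_of_nonneg_left (by positivity) (by linarith) ?_
  have := (le_abs_self _).trans (abs_im_le_norm (s - 1))
  simpa using this

end Pool.Agent.MP_2033ac_nt.PN
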