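import Pool.Agent.MP_2033ac_nt.PN.DefsV

namespace Pool.Agent.MP_2033ac_nt.PN
open Finset Filter
open Pool.Agent.MP_71ac24_nt.H14 (ei ei_add norm_ei ei_zero conj_ei norm_ei_sub)

-- helper lemmas of this row: prefix zb_

theorem zb_abel (a : ℕ → ℝ) (b : ℕ → ℂ) (M N : ℕ) (B : ℝ) (hMN : M ≤ N)
    (ha : ∀ n, M ≤ n → a (n + 1) ≤ a n) (h0 : 0 ≤ a N)
    (hb : ∀ c, c ≤ N → ‖∑ n ∈ Ico M c, b n‖ ≤ B) :
    ‖∑ n ∈ Ico M N, (a n : ℂ) * b n‖ ≤ a M * B := by
  have key : ∀ c, M ≤ c → c ≤ N →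
      ‖∑ n ∈ Ico M c, (a n : ℂ) * b n - (a c : ℂ) * ∑ n ∈ Ico M c, b n‖ ≤ (a M - a c) * B := by
    intro c hc
    induction c, hc using Nat.le_induction with
    | base => intro _; simp
    | succ c hc ih =>
      intro h
      have e : ∑ n ∈ Ico M (c + 1), (a n : ℂ) * b n - (a (c + 1) : ℂ) * ∑ n ∈ Ico M (c + 1), b n =
          (∑ n ∈ Ico M c, (a n : ℂ) * b n - (a c : ℂ) * ∑ n ∈ Ico M c, b n) +
            ((a c - a (c + 1) : ℝ) : ℂ) * ∑ n ∈ Ico M (c + 1), b n := by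
        rw [sum_Ico_succ_top hc, sum_Ico_succ_top hc]; push_cast; ring
      rw [e]
      refine (norm_add_le _ _).trans ?_
      have h1 := ih (by omega)
      have h2 : 0 ≤ a c - a (c + 1) := sub_nonneg.2 (ha c hc)
      rw [norm_mul, Complex.norm_real, Real.norm_of_nonneg h2]
      have h3 := mul_le_mul_of_nonneg_left (hb (c + 1) h) h2
      linarith
  have h1 := key N hMN le_rfl
  have h2 : ‖(a N : ℂ) * ∑ n ∈ Ico M N, b n‖ ≤ a N * B := by
    rw [norm_mul, Complex.norm_real, Real.norm_of_nonneg h0]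
    exact mul_le_mul_of_nonneg_left (hb N le_rfl) h0
  have h3 := norm_add_le (∑ n ∈ Ico M N, (a n : ℂ) * b n - (a N : ℂ) * ∑ n ∈ Ico M N, b n)
    ((a N : ℂ) * ∑ n ∈ Ico M N, b n)
  rw [sub_add_cancel] at h3
  linarith

theorem zb_term (s : ℂ) (L : ℝ) :
    Complex.exp (-s * L) = (Real.exp (-s.re * L) : ℂ) * ei (-s.im * L) := by
  rw [ei, Complex.ofReal_exp, ← Complex.exp_add]
  congr 1
  conv_lhs => rw [← Complex.re_add_im s]
  push_cast
  ring

theorem zb_dyadic (f : ℕ → ℂ) (J : ℕ) :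
    ∑ n ∈ Ico 1 (2 ^ J), f n = ∑ j ∈ range J, ∑ n ∈ Ico (2 ^ j) (2 * 2 ^ j), f n := by
  induction J with
  | zero => simp
  | succ J ih =>
    rw [sum_range_succ, ← ih, pow_succ', sum_Ico_consecutive _ Nat.one_le_two_pow (by omega)]

theorem zb_block (hES : ES_s) {w : ℝ} (hw : 10 ^ 11 ≤ w) {s : ℂ} (h7 : 7 ≤ s.im)
    (ht : s.im ≤ Real.exp (w ^ 13)) (hσ : 1 - 1 / w ^ 12 ≤ s.re) {M : ℕ} (hM : 1 ≤ M)
    (hMt : 7 * (M : ℝ) ^ (7 / 8 : ℝ) ≤ s.im) :
    ‖∑ n ∈ Ico M (2 * M), Complex.exp (-s * Real.log n)‖ ≤ 3 := by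
  have hw1 : (1 : ℝ) ≤ w := by linarith
  have hw0 : (0 : ℝ) < w := by linarith
  have hw12 : (0 : ℝ) < w ^ 12 := by positivity
  have hσ0 : 0 ≤ s.re := by
    have : 1 / w ^ 12 ≤ 1 := by
      rw [div_le_one hw12]; exact one_le_pow₀ hw1
    linarith
  have hM1 : (1 : ℝ) ≤ M := by exact_mod_cast hM
  have hM0 : (0 : ℝ) < M := by linarith
  have hL0 : 0 ≤ Real.log M := Real.log_nonneg hM1
  have hanti : ∀ m n : ℕ, M ≤ m → m ≤ n →
      Real.exp (-s.re * Real.log n) ≤ Real.exp (-s.re * Real.log m) := by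
    intro m n h1 h2
    have h3 : (0 : ℝ) < m := lt_of_lt_of_le hM0 (by exact_mod_cast h1)
    have h4 : Real.log m ≤ Real.log n := Real.log_le_log h3 (by exact_mod_cast h2)
    exact Real.exp_le_exp.2 (by nlinarith)
  simp only [zb_term]
  by_cases hc : Real.log M ≤ w ^ 12
  · refine (norm_sum_le _ _).trans ?_
    refine (sum_le_card_nsmul _ _ (Real.exp (-s.re * Real.log M)) fun n hn => ?_).trans ?_
    · rw [norm_mul, norm_ei, mul_one, Complex.norm_real, Real.norm_of_nonneg (Real.exp_pos _).le]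
      exact hanti M n le_rfl (mem_Ico.1 hn).1
    · rw [Nat.card_Ico, nsmul_eq_mul, show 2 * M - M = M by omega]
      conv_lhs => lhs; rw [← Real.exp_log hM0]
      rw [← Real.exp_add]
      have h1 : Real.log M + -s.re * Real.log M ≤ 1 := by
        have h2 : (1 - s.re) * Real.log M ≤ 1 / w ^ 12 * Real.log M :=
          mul_le_mul_of_nonneg_right (by linarith) hL0
        have h3 : 1 / w ^ 12 * Real.log M ≤ 1 := by
          rw [one_div, inv_mul_le_iff₀ hw12]; linarith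
        linarith
      exact (Real.exp_le_exp.2 h1).trans (by linarith [Real.exp_one_lt_d9])
  · push Not at hc
    set R : ℕ := ⌈w⌉₊ with hR
    have hR1 : w ≤ R := Nat.le_ceil w
    have hR2 : (R : ℝ) < w + 1 := Nat.ceil_lt_add_one hw0.le
    have hk : (2 * R + 2 : ℝ) ≤ 3 * w := by linarith
    have hk0 : (0 : ℝ) < 2 * R + 2 := by positivity
    have htR : |(-s.im)| ≤ (M : ℝ) ^ R := by
      rw [abs_neg, abs_of_nonneg (by linarith)]
      refine ht.trans ?_
      conv_rhs => rw [← Real.exp_log hM0, ← Real.exp_nat_mul]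
      refine Real.exp_le_exp.2 ?_
      calc w ^ 13 = w * w ^ 12 := by ring
        _ ≤ R * Real.log M := mul_le_mul hR1 hc.le hw12.le (by positivity)
    have hB : (2 : ℝ) ^ (300 * (2 * R + 2) ^ 8) * M * (M : ℝ) ^ (-1 / (256 * (2 * R + 2 : ℝ) ^ 3)) ≤
        Real.exp (s.re * Real.log M) := by
      have e2 : (2 : ℝ) ^ (300 * (2 * R + 2) ^ 8) ≤ Real.exp (300 * (2 * R + 2 : ℝ) ^ 8) := by
        calc (2 : ℝ) ^ (300 * (2 * R + 2) ^ 8) ≤ Real.exp 1 ^ (300 * (2 * R + 2) ^ 8) :=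
              pow_le_pow_left₀ (by norm_num) (by linarith [Real.exp_one_gt_d9]) _
          _ = _ := by rw [← Real.exp_nat_mul]; push_cast; ring_nf
      rw [Real.rpow_def_of_pos hM0]
      calc _ ≤ Real.exp (300 * (2 * R + 2 : ℝ) ^ 8) * Real.exp (Real.log M) *
            Real.exp (Real.log M * (-1 / (256 * (2 * R + 2 : ℝ) ^ 3))) := by
            rw [Real.exp_log hM0]; gcongr
        _ ≤ _ := by
          rw [← Real.exp_add, ← Real.exp_add]
          refine Real.exp_le_exp.2 ?_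
          have k3 : (2 * R + 2 : ℝ) ^ 3 ≤ (3 * w) ^ 3 := pow_le_pow_left₀ hk0.le hk 3
          have k8 : (2 * R + 2 : ℝ) ^ 8 ≤ (3 * w) ^ 8 := pow_le_pow_left₀ hk0.le hk 8
          have i1 : 1 / (256 * (3 * w) ^ 3) ≤ 1 / (256 * (2 * R + 2 : ℝ) ^ 3) :=
            one_div_le_one_div_of_le (by positivity) (by linarith)
          have w9 : (10 : ℝ) ^ 11 ≤ w ^ 9 := hw.trans (le_self_pow₀ hw1 (by norm_num))
          have i2 : 1 / w ^ 12 ≤ 1 / (512 * (3 * w) ^ 3) := by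
            refine one_div_le_one_div_of_le (by positivity) ?_
            have : 0 < w ^ 3 := by positivity
            calc 512 * (3 * w) ^ 3 = 13824 * w ^ 3 := by ring
              _ ≤ w ^ 9 * w ^ 3 := mul_le_mul_of_nonneg_right (by linarith) this.le
              _ = w ^ 12 := by ring
          have i3 : 300 * (3 * w) ^ 8 ≤ w ^ 12 * (1 / (512 * (3 * w) ^ 3)) := by
            have : 0 < w ^ 8 := by positivity
            calc 300 * (3 * w) ^ 8 = 1968300 * w ^ 8 := by ring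
              _ ≤ (w / 13824) * w ^ 8 := mul_le_mul_of_nonneg_right (by linarith) this.le
              _ = _ := by field_simp; ring
          have i4 : w ^ 12 * (1 / (512 * (3 * w) ^ 3)) ≤ Real.log M * (1 / (512 * (3 * w) ^ 3)) :=
            mul_le_mul_of_nonneg_right hc.le (by positivity)
          have i5 : 1 / (256 * (3 * w) ^ 3) = 2 * (1 / (512 * (3 * w) ^ 3)) := by
            field_simp; ring
          have i6 := mul_le_mul_of_nonneg_left i1 hL0
          have i7 := mul_le_mul_of_nonneg_left i2 hL0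
          have i8 : (1 - 1 / w ^ 12) * Real.log M ≤ s.re * Real.log M :=
            mul_le_mul_of_nonneg_right hσ hL0
          have i9 : Real.log M * (-1 / (256 * (2 * R + 2 : ℝ) ^ 3)) =
              -(Real.log M * (1 / (256 * (2 * R + 2 : ℝ) ^ 3))) := by ring
          rw [i5] at i6
          rw [i9]
          linarith
    refine (zb_abel (fun n => Real.exp (-s.re * Real.log n)) (fun n => ei (-s.im * Real.log n))
      M (2 * M) (Real.exp (s.re * Real.log M)) (by omega)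
      (fun n hn => hanti n (n + 1) hn (by omega)) (Real.exp_pos _).le fun c hc' => ?_).trans ?_
    · refine (hES (-s.im) R M M c hM le_rfl hc' ?_ htR).trans hB
      rw [abs_neg, abs_of_nonneg (by linarith)]
      exact hMt
    · rw [← Real.exp_add, neg_mul, neg_add_cancel, Real.exp_zero]; norm_num

theorem zb_row (hES : ES_s) (hZA : ZA_s) : ZB_s := by
  filter_upwards [eventually_ge_atTop ((10 : ℝ) ^ 11)] with w hw s h7 ht hσ h3
  have hw1 : (1 : ℝ) ≤ w := by linarith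
  have hw12 : (8 : ℝ) ≤ w ^ 12 := le_trans (by linarith) (le_self_pow₀ hw1 (by norm_num))
  have hσ1 : 7 / 8 ≤ s.re := by
    have : 1 / w ^ 12 ≤ 1 / 8 := one_div_le_one_div_of_le (by norm_num) hw12
    linarith
  have l1 := Real.log_two_gt_d9
  have l2 := Real.log_two_lt_d9
  have hp : ∀ (j : ℕ) (x : ℝ), (((2 ^ j : ℕ) : ℝ)) ^ x = Real.exp (j * Real.log 2 * x) := by
    intro j x
    rw [Real.rpow_def_of_pos (by positivity)]
    push_cast
    rw [Real.log_pow]
  have hex : ∃ J : ℕ, s.im < 7 * ((2 ^ J : ℕ) : ℝ) ^ (7 / 8 : ℝ) := by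
    refine ⟨⌈2 * s.im⌉₊, ?_⟩
    rw [hp]
    have h1 := Nat.le_ceil (2 * s.im)
    have h2 := Real.add_one_le_exp ((⌈2 * s.im⌉₊ : ℝ) * Real.log 2 * (7 / 8))
    nlinarith
  have hJ := Nat.find_spec hex
  have hJ' : ∀ j, j < Nat.find hex → 7 * ((2 ^ j : ℕ) : ℝ) ^ (7 / 8 : ℝ) ≤ s.im :=
    fun j hj => not_lt.1 (Nat.find_min hex hj)
  obtain ⟨J, hJe⟩ : ∃ J, Nat.find hex = J + 1 := by
    refine Nat.exists_eq_succ_of_ne_zero fun h0 => ?_
    rw [h0] at hJ
    simp at hJ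
    linarith
  rw [hJe] at hJ hJ'
  have hJl := hJ' J (by omega)
  rw [hp] at hJ hJl
  have t0 : 0 < s.im := by linarith
  have hN : 2 ^ J ≤ 2 ^ (J + 1) - 1 := by
    have := Nat.one_le_two_pow (n := J)
    rw [pow_succ]; omega
  have hN1 : 1 ≤ 2 ^ (J + 1) - 1 := Nat.one_le_two_pow.trans hN
  have hA := hZA s (2 ^ (J + 1) - 1) (by linarith) (by linarith) hN1
  have e1 : Icc 1 (2 ^ (J + 1) - 1) = Ico 1 (2 ^ (J + 1)) := by
    ext n; rw [mem_Icc, mem_Ico]; omega
  have e2 : (((2 ^ (J + 1) - 1 : ℕ) : ℝ) + 1) = ((2 ^ (J + 1) : ℕ) : ℝ) := by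
    rw [← Nat.cast_add_one, Nat.sub_add_cancel Nat.one_le_two_pow]
  rw [e1, e2, zb_dyadic, hp] at hA
  have hS : ‖∑ j ∈ range (J + 1), ∑ n ∈ Ico (2 ^ j) (2 * 2 ^ j),
      Complex.exp (-s * Real.log (n : ℕ))‖ ≤ (J + 1) * 3 := by
    refine (norm_sum_le _ _).trans ?_
    refine (sum_le_card_nsmul _ _ 3 fun j hj =>
      zb_block hES hw h7 ht hσ Nat.one_le_two_pow (hJ' j (mem_range.1 hj))).trans ?_
    rw [card_range, nsmul_eq_mul]; push_cast; exact le_rfl
  have hJ0 : (0 : ℝ) ≤ J := Nat.cast_nonneg J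
  have hsplit : Real.exp (((J + 1 : ℕ) : ℝ) * Real.log 2 * (7 / 8)) ≤
      2 * Real.exp (J * Real.log 2 * (7 / 8)) := by
    conv_rhs => rw [← Real.exp_log (show (0 : ℝ) < 2 by norm_num)]
    rw [Real.log_exp, ← Real.exp_add]
    refine Real.exp_le_exp.2 ?_
    push_cast
    linarith
  have f1 : Real.exp (((J + 1 : ℕ) : ℝ) * Real.log 2 * (1 - s.re)) / s.im ≤ 1 := by
    rw [div_le_one t0]
    refine le_trans (Real.exp_le_exp.2 ?_) (hsplit.trans (by linarith [Real.exp_pos (J * Real.log 2 * (7 / 8))]))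
    exact mul_le_mul_of_nonneg_left (by linarith) (by positivity)
  have f2 : (((2 ^ (J + 1) - 1 : ℕ) : ℝ)) ^ (-s.re) ≤ 14 / s.im := by
    have g1 : (((2 ^ (J + 1) - 1 : ℕ) : ℝ)) ^ (-s.re) ≤ (((2 ^ J : ℕ) : ℝ)) ^ (-s.re) :=
      Real.rpow_le_rpow_of_nonpos (by positivity) (by exact_mod_cast hN) (by linarith)
    refine g1.trans ?_
    rw [hp, le_div_iff₀ t0]
    have g2 : Real.exp (J * Real.log 2 * -s.re) * Real.exp (J * Real.log 2 * (7 / 8)) ≤ 1 := by
      rw [← Real.exp_add, Real.exp_le_one_iff]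
      have : 0 ≤ J * Real.log 2 := by positivity
      nlinarith
    have g3 := Real.exp_pos (J * Real.log 2 * -s.re)
    nlinarith
  have f3 : ‖s‖ ≤ 2 * s.im := by
    have := Complex.norm_le_abs_re_add_abs_im s
    rw [abs_of_nonneg (by linarith), abs_of_nonneg t0.le] at this
    linarith
  have f4 : 2 * ‖s‖ * (((2 ^ (J + 1) - 1 : ℕ) : ℝ)) ^ (-s.re) ≤ 56 := by
    calc _ ≤ 2 * (2 * s.im) * (14 / s.im) := by gcongr
      _ = 56 := by field_simp; norm_num
  have f5 : (J : ℝ) ≤ 2 * w ^ 13 := by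
    have g1 : Real.exp (J * Real.log 2 * (7 / 8)) ≤ Real.exp (w ^ 13) := by
      linarith [Real.exp_pos (J * Real.log 2 * (7 / 8))]
    have g2 := Real.exp_le_exp.1 g1
    nlinarith
  have f6 : (100 : ℝ) ≤ w ^ 13 := le_trans (by linarith) (le_self_pow₀ hw1 (by norm_num))
  have f7 := norm_le_norm_add_norm_sub' (riemannZeta s) (∑ j ∈ range (J + 1),
    ∑ n ∈ Ico (2 ^ j) (2 * 2 ^ j), Complex.exp (-s * Real.log (n : ℕ)))
  have f8 : w ^ 26 = w ^ 13 * w ^ 13 := by ring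
  rw [f8]
  nlinarith

end Pool.Agent.MP_2033ac_nt.PN
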