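import Pool.Agent.MP_2033ac_nt.PN.DefsV
import Pool.Agent.H84D.PsB

namespace Pool.Agent.MP_2033ac_nt.PN
open Finset Filter
open Pool.Agent.MP_71ac24_nt.H14 (ei ei_add norm_ei ei_zero conj_ei norm_ei_sub)

-- helper lemmas of this row: prefix zf1_

open Complex Pool.Agent.MP_a96b63_al.H84D in
theorem zf1_341 {σ : ℝ} (h1 : 1 < σ) (hs : Summable (ps_r σ)) (u : ℝ) :
    4 * (deriv riemannZeta (σ + u * I) / riemannZeta (σ + u * I)).re +
      (deriv riemannZeta (σ + (2 * u : ℝ) * I) / riemannZeta (σ + (2 * u : ℝ) * I)).re ≤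
        3 * ∑' n, ps_r σ n := by
  have m := ps_341 (q := 1) 1 h1 hs u
  rwa [DirichletCharacter.LFunction_modOne_eq, DirichletCharacter.LFunction_modOne_eq] at m

theorem zf1_log (K : ℝ) (hK : 1 ≤ K) : ∀ᶠ v : ℝ in atTop, K * Real.log v ≤ v / 600 := by
  filter_upwards [Real.isLittleO_log_id_atTop.bound (show 0 < 1 / (600 * K) by positivity),
    eventually_ge_atTop 1] with v h h1
  rw [id, Real.norm_of_nonneg (Real.log_nonneg h1), Real.norm_of_nonneg (by linarith)] at h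
  refine (mul_le_mul_of_nonneg_left h (by linarith)).trans (le_of_eq ?_)
  field_simp

open Complex Pool.Agent.MP_a96b63_al.H84D in
theorem zf1_row (hLOC : LOC_s) : ZF1_s := by
  obtain ⟨K, K1, hK⟩ := hLOC
  obtain ⟨D, D0, hD⟩ := ps_vm
  filter_upwards [hK, zf1_log K K1, eventually_ge_atTop (400 * D + 30)] with v hv hl h1
  intro z hu hq z0
  by_contra hz
  rw [not_lt] at hz
  have v1 : 1 ≤ v := by linarith
  have w1 : 1 ≤ v ^ 24 := one_le_pow₀ v1
  have w2 : v ^ 25 = v ^ 24 * v := by ring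
  have w3 : v ≤ v ^ 25 := by rw [w2]; nlinarith
  have w0 : 0 < v ^ 25 := by positivity
  have lt1 : ∀ w : ℂ, riemannZeta w = 0 → w.re < 1 := fun w b =>
    not_le.1 fun d => riemannZeta_ne_zero_of_one_le_re d b
  have δ0 : 0 < 24 / v ^ 25 := by positivity
  have δ1 : 24 / v ^ 25 ≤ 1 := by rw [div_le_one w0]; linarith
  have δ2 : 0 < 4 / v ^ 25 := by positivity
  obtain ⟨hs, hm⟩ := hD (1 + 24 / v ^ 25) (by linarith) (by linarith)
  generalize hδ : 24 / v ^ 25 = δ at *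
  have low : ∀ u : ℝ, 9 ≤ u → u ≤ Real.exp (v ^ 26) / 2 →
      ∃ (n : ℕ) (ρ : ℕ → ℂ), (∀ j ∈ range n, 0 ≤ ((1 + δ : ℝ) + u * I - ρ j)⁻¹.re) ∧
        (∀ w : ℂ, w.im = u → 1 - 4 / v ^ 25 ≤ w.re → w.re ≤ 1 + δ → riemannZeta w = 0 →
          ∃ j ∈ range n, ρ j = w) ∧
        ∑ j ∈ range n, ((1 + δ : ℝ) + u * I - ρ j)⁻¹.re - K * v ^ 24 * Real.log v ≤
          (deriv riemannZeta ((1 + δ : ℝ) + u * I) / riemannZeta ((1 + δ : ℝ) + u * I)).re := by
    intro u a b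
    obtain ⟨n, ρ, -, h1, h2, h3⟩ := hv u a b
    refine ⟨n, ρ, fun j hj => ?_, h2, ?_⟩
    · have := lt1 (ρ j) (h1 j hj).1
      rw [inv_re]
      exact div_nonneg (by simp; linarith) (normSq_nonneg _)
    · have := h3 ((1 + δ : ℝ) + u * I) (by simp) (by simp; linarith) (by simp)
        (riemannZeta_ne_zero_of_one_le_re (by simp; linarith))
      have d := (abs_le.1 ((abs_re_le_norm _).trans this)).1
      rw [sub_re, re_sum] at d
      linarith
  have ex := Real.exp_pos (v ^ 26)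
  obtain ⟨n, ρ, a1, a2, a3⟩ := low z.im hu (by linarith)
  obtain ⟨n', ρ', b1, -, b3⟩ := low (2 * z.im) (by linarith) (by linarith)
  have z1 := lt1 z z0
  obtain ⟨j, hj, ej⟩ := a2 z rfl hz (by linarith) z0
  have s1 := single_le_sum a1 hj
  have s2 := sum_nonneg b1
  have e : ((1 + δ : ℝ) + z.im * I - ρ j : ℂ)⁻¹.re = (1 + δ - z.re)⁻¹ := by
    rw [ej, show ((1 + δ : ℝ) + z.im * I - z : ℂ) = ((1 + δ - z.re : ℝ) : ℂ) from
      Complex.ext (by simp) (by simp), ← ofReal_inv, ofReal_re]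
  have m := zf1_341 (σ := 1 + δ) (by linarith) hs z.im
  rw [add_sub_cancel_left, ← hδ, one_div_div] at hm
  rw [hδ] at hm
  have t : (28 / v ^ 25)⁻¹ ≤ (1 + δ - z.re)⁻¹ := by
    refine inv_anti₀ (by linarith) ?_
    have : 28 / v ^ 25 = δ + 4 / v ^ 25 := by rw [← hδ]; ring
    linarith
  rw [inv_div] at t
  simp only [e] at s1
  have f : K * v ^ 24 * Real.log v ≤ v ^ 25 / 600 := by
    have := mul_le_mul_of_nonneg_left hl (show 0 ≤ v ^ 24 by linarith)
    rw [w2]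
    linarith
  linarith

end Pool.Agent.MP_2033ac_nt.PN
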