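import Pool.Agent.MP_2033ac_nt.PN.DefsV
import Pool.Agent.H84D.PsB

namespace Pool.Agent.MP_2033ac_nt.PN
open Finset Filter
open Pool.Agent.MP_71ac24_nt.H14 (ei ei_add norm_ei ei_zero conj_ei norm_ei_sub)

-- helper lemmas of this row: prefix zf2_

lemma zf2_low {s : ℂ} {e : ℝ} (he : 0 < e) (h1 : 1 + 2 * e ≤ s.re) (h2 : s.re ≤ 2) :
    riemannZeta s ≠ 0 ∧ ‖(riemannZeta s)⁻¹‖ ≤ e⁻¹ := by
  have a := Pool.Agent.MP_48b1c3_nt.H54.le_norm_LFunction (1 : DirichletCharacter ℂ 1) (s := s)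
    (by linarith) h2
  rw [DirichletCharacter.LFunction_modOne_eq] at a
  have b : e ≤ ‖riemannZeta s‖ := by linarith
  refine ⟨fun z => ?_, ?_⟩
  · rw [z, norm_zero] at b
    linarith
  · rw [norm_inv]
    exact inv_anti₀ he b

lemma zf2_der (hLOC : LOC_s) (hZF1 : ZF1_s) : ∃ K : ℝ, 1 ≤ K ∧ ∀ᶠ v : ℝ in atTop, ∀ s : ℂ,
    10 ≤ s.im → s.im ≤ Real.exp (v ^ 26) / 5 → 1 - 1 / v ^ 25 ≤ s.re → s.re ≤ 1 + 24 / v ^ 25 →
      riemannZeta s ≠ 0 ∧
        ‖deriv riemannZeta s / riemannZeta s‖ ≤ 2 * (K * Real.log v * v ^ 25) := by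
  obtain ⟨K, K1, hK⟩ := hLOC
  refine ⟨K, K1, ?_⟩
  filter_upwards [hK, hZF1, eventually_ge_atTop (20 : ℝ)] with v hK hZ hv s hu hq h1 h2
  have v1 : (1 : ℝ) ≤ v := by linarith
  have p0 : 0 < v ^ 25 := by positivity
  have q0 : 0 < 1 / v ^ 25 := by positivity
  have e4 : 4 / v ^ 25 = 4 * (1 / v ^ 25) := by ring
  have x20 : 20 ≤ Real.exp (v ^ 26) := by
    have a : v ≤ v ^ 26 := le_self_pow₀ v1 (by norm_num)
    linarith [Real.add_one_le_exp (v ^ 26)]
  have ne : riemannZeta s ≠ 0 := fun z => by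
    have := hZ s (by linarith) (by linarith) z
    linarith
  refine ⟨ne, ?_⟩
  obtain ⟨n, ρ, cnt, a1, -, a3⟩ := hK s.im (by linarith) (by linarith)
  have b := a3 s rfl (by linarith) h2 ne
  have d := norm_sum_le_of_le (range n) (f := fun j => (s - ρ j)⁻¹) (n := fun _ => v ^ 25)
    fun j hj => by
      obtain ⟨z0, z1⟩ := a1 j hj
      obtain ⟨t1, t2⟩ := abs_le.1 z1
      have := hZ (ρ j) (by linarith) (by linarith) z0
      rw [norm_inv, show v ^ 25 = (1 / v ^ 25)⁻¹ by rw [one_div, inv_inv]]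
      refine inv_anti₀ q0 (le_trans ?_ (Complex.re_le_norm _))
      rw [Complex.sub_re]
      linarith
  rw [sum_const, card_range, nsmul_eq_mul] at d
  have f := norm_add_le_of_le b d
  rw [sub_add_cancel] at f
  have g := mul_le_mul_of_nonneg_right cnt p0.le
  have l0 : 0 ≤ K * Real.log v := mul_nonneg (by linarith) (Real.log_nonneg v1)
  have h : K * Real.log v * v ^ 24 ≤ K * Real.log v * v ^ 25 :=
    mul_le_mul_of_nonneg_left (pow_le_pow_right₀ v1 (by norm_num)) l0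
  linarith

lemma zf2_gron {c : ℂ} {b δ D : ℝ} (hc : c.im ≠ 0) (h0 : ‖(riemannZeta c)⁻¹‖ ≤ δ)
    (h : ∀ x ∈ Set.Icc (0 : ℝ) b, riemannZeta (c - x) ≠ 0 ∧
      ‖deriv riemannZeta (c - x) / riemannZeta (c - x)‖ ≤ D) :
    ∀ x ∈ Set.Icc (0 : ℝ) b, ‖(riemannZeta (c - x))⁻¹‖ ≤ δ * Real.exp (D * x) := by
  have dv : ∀ x ∈ Set.Icc (0 : ℝ) b, HasDerivAt (fun τ : ℝ => (riemannZeta (c - τ))⁻¹)
      (deriv riemannZeta (c - x) / riemannZeta (c - x) * (riemannZeta (c - x))⁻¹) x := by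
    intro x hx
    have n1 : c - x ≠ 1 := fun e => hc (by simpa using congrArg Complex.im e)
    have a : HasDerivAt (fun w : ℂ => riemannZeta (c - w)) (deriv riemannZeta (c - x) * -1) x :=
      (differentiableAt_riemannZeta n1).hasDerivAt.comp (x : ℂ) ((hasDerivAt_id' _).const_sub c)
    have e : deriv riemannZeta (c - x) / riemannZeta (c - x) * (riemannZeta (c - x))⁻¹ =
        -(deriv riemannZeta (c - x) * -1) / riemannZeta (c - x) ^ 2 := by
      have := (h x hx).1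
      field_simp
    rw [e]
    exact (a.inv (h x hx).1).comp_ofReal
  intro x hx
  have g := norm_le_gronwallBound_of_norm_deriv_right_le (δ := δ) (K := D) (ε := 0)
    (fun y hy => (dv y hy).continuousAt.continuousWithinAt)
    (fun y hy => (dv y (Set.Ico_subset_Icc_self hy)).hasDerivWithinAt) (by simpa using h0)
    (fun y hy => by
      rw [norm_mul, add_zero]
      exact mul_le_mul_of_nonneg_right (h y (Set.Ico_subset_Icc_self hy)).2 (norm_nonneg _)) x hx
  rwa [gronwallBound_ε0, sub_zero] at g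

theorem zf2_row (hLOC : LOC_s) (hZF1 : ZF1_s) : ZF2_s := by
  obtain ⟨K, K1, hK⟩ := zf2_der hLOC hZF1
  obtain ⟨N, hN⟩ := exists_nat_ge (50 * K)
  refine ⟨25 + N, ?_⟩
  filter_upwards [hK, eventually_ge_atTop (24 : ℝ)] with v hK hv s hu hq h1 h2
  have v1 : (1 : ℝ) ≤ v := by linarith
  have p0 : 0 < v ^ 25 := by positivity
  obtain ⟨η, hη⟩ : ∃ η : ℝ, η = 1 / v ^ 25 := ⟨_, rfl⟩
  have q0 : 0 < η := by rw [hη]; positivity
  have e24 : 24 / v ^ 25 = 24 * η := by rw [hη]; ring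
  have ei' : η⁻¹ = v ^ 25 := by rw [hη, one_div, inv_inv]
  have q1 : 24 * η ≤ 1 := by
    rw [← e24, div_le_one p0]
    exact hv.trans (le_self_pow₀ v1 (by norm_num))
  rw [e24, ← hη] at hK
  rw [← hη] at h1
  rcases le_total (1 + 24 * η) s.re with hs | hs
  · obtain ⟨a, b⟩ := zf2_low q0 (s := s) (by linarith) h2
    exact ⟨a, (b.trans_eq ei').trans (pow_le_pow_right₀ v1 (by omega))⟩
  refine ⟨(hK s hu hq h1 hs).1, ?_⟩
  obtain ⟨c, hc⟩ : ∃ c : ℂ, c = ⟨1 + 24 * η, s.im⟩ := ⟨_, rfl⟩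
  have cr : c.re = 1 + 24 * η := by rw [hc]
  have ci : c.im = s.im := by rw [hc]
  have a := (zf2_low q0 (s := c) (by linarith) (by linarith)).2
  have g := zf2_gron (c := c) (b := 25 * η) (by rw [ci]; linarith) a
    (fun x hx => hK (c - x) (by simpa [ci] using hu) (by simpa [ci] using hq)
      (by simp only [Complex.sub_re, Complex.ofReal_re, cr]; linarith [hx.2])
      (by simp only [Complex.sub_re, Complex.ofReal_re, cr]; linarith [hx.1]))
    (1 + 24 * η - s.re) ⟨by linarith, by linarith⟩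
  have e : c - ((1 + 24 * η - s.re : ℝ) : ℂ) = s :=
    Complex.ext (by simp only [Complex.sub_re, Complex.ofReal_re, cr]; ring)
      (by simp only [Complex.sub_im, Complex.ofReal_im, ci]; ring)
  rw [e, ei'] at g
  refine g.trans ?_
  rw [pow_add]
  refine mul_le_mul_of_nonneg_left ?_ p0.le
  have l0 : 0 ≤ Real.log v := Real.log_nonneg v1
  have l1 : 0 ≤ 2 * (K * Real.log v * v ^ 25) := by positivity
  have m : v ^ 25 * η = 1 := by rw [← ei']; exact inv_mul_cancel₀ q0.ne'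
  calc Real.exp (2 * (K * Real.log v * v ^ 25) * (1 + 24 * η - s.re))
      ≤ Real.exp (N * Real.log v) := by
        refine Real.exp_le_exp.2 ?_
        calc 2 * (K * Real.log v * v ^ 25) * (1 + 24 * η - s.re)
            ≤ 2 * (K * Real.log v * v ^ 25) * (25 * η) :=
              mul_le_mul_of_nonneg_left (by linarith) l1
          _ = 50 * K * Real.log v * (v ^ 25 * η) := by ring
          _ ≤ N * Real.log v := by
              rw [m, mul_one]
              exact mul_le_mul_of_nonneg_right hN l0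
    _ = v ^ N := by rw [Real.exp_nat_mul, Real.exp_log (by linarith)]

end Pool.Agent.MP_2033ac_nt.PN
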