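import Pool.Agent.MP_2033ac_nt.PN.RES
import Pool.Agent.MP_2033ac_nt.PN.RZA
import Pool.Agent.MP_2033ac_nt.PN.RZB
import Pool.Agent.MP_2033ac_nt.PN.RLOC
import Pool.Agent.MP_2033ac_nt.PN.RZF1
import Pool.Agent.MP_2033ac_nt.PN.RZF2
import Pool.Agent.MP_2033ac_nt.PN.RMU
import Pool.Agent.MP_2033ac_nt.PN.RPNT
import Pool.Agent.MP_2033ac_nt.PN.RMAIN2
import Pool.Agent.MP_2033ac_nt.PN.RSQ
import Pool.Agent.MP_2033ac_nt.PN.RMZ
import Pool.Agent.MP_2033ac_nt.PN.RZ2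
import Pool.Agent.MP_2033ac_nt.PN.RHAL
import Pool.Agent.MP_2033ac_nt.PN.RLP
import Pool.Agent.MP_2033ac_nt.PN.RLVA
import Pool.Agent.MP_2033ac_nt.PN.RLVZ
import Pool.Agent.MP_2033ac_nt.PN.RGEN
import Pool.Agent.MP_2033ac_nt.PN.RSPA
import Pool.Agent.MP_2033ac_nt.PN.RBOX
import Pool.Agent.MP_2033ac_nt.PN.RWL
import Pool.Agent.MP_2033ac_nt.PN.RWIN
import Pool.Agent.MP_2033ac_nt.PN.RHB
import Pool.Agent.MP_2033ac_nt.PN.REE
import Pool.Agent.MP_2033ac_nt.PN.RFIN2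

namespace Pool.Agent.MP_2033ac_nt.PN

theorem mu_all : MU_s :=
  have hL := loc_row (zb_row es_row za_row)
  mu_row (zf2_row hL (zf1_row hL))

theorem main_all : MAIN2_s :=
  main2_row (fin2_row (ee_row hb_row z2_row (win_row wl_row (box_row sq_row (lva_row lp_row) lvz_row
    gen_row (spa_row sq_row hal_row (mz_row mu_all))))) pnt_row)

end Pool.Agent.MP_2033ac_nt.PN
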