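import Pool.Agent.MP_71ac24_nt.H14.Defs

/-! Primes in short intervals: statements on the zeta function. -/

namespace Pool.Agent.MP_2033ac_nt.PN
open Finset Filter
open Pool.Agent.MP_71ac24_nt.H14 (ei)

/-- exponential sums with a logarithmic phase -/
def ES_s : Prop := ∀ (t : ℝ) (R M a b : ℕ), 1 ≤ M → M ≤ a → b ≤ 2 * M →
  7 * (M : ℝ) ^ (7 / 8 : ℝ) ≤ |t| → |t| ≤ (M : ℝ) ^ R →
    ‖∑ m ∈ Ico a b, ei (t * Real.log m)‖ ≤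
      2 ^ (300 * (2 * R + 2) ^ 8) * M * (M : ℝ) ^ (-1 / (256 * (2 * R + 2 : ℝ) ^ 3))

/-- the approximate formula -/
def ZA_s : Prop := ∀ (s : ℂ) (N : ℕ), 1 / 2 ≤ s.re → 1 ≤ s.im → 1 ≤ N →
  ‖riemannZeta s - ∑ n ∈ Icc 1 N, Complex.exp (-s * Real.log n)‖ ≤
    (N + 1 : ℝ) ^ (1 - s.re) / s.im + 2 * ‖s‖ * (N : ℝ) ^ (-s.re)

/-- the upper bound near the line of abscissa one -/
def ZB_s : Prop := ∀ᶠ w : ℝ in atTop, ∀ s : ℂ, 7 ≤ s.im → s.im ≤ Real.exp (w ^ 13) →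
  1 - 1 / w ^ 12 ≤ s.re → s.re ≤ 3 → ‖riemannZeta s‖ ≤ w ^ 26

/-- the local formula for the logarithmic derivative -/
def LOC_s : Prop := ∃ K : ℝ, 1 ≤ K ∧ ∀ᶠ v : ℝ in atTop, ∀ u : ℝ, 9 ≤ u →
  u ≤ Real.exp (v ^ 26) / 2 → ∃ (n : ℕ) (ρ : ℕ → ℂ), (n : ℝ) ≤ K * Real.log v ∧
    (∀ j ∈ range n, riemannZeta (ρ j) = 0 ∧ |(ρ j).im - u| ≤ 1) ∧
    (∀ z : ℂ, z.im = u → 1 - 4 / v ^ 25 ≤ z.re → z.re ≤ 1 + 24 / v ^ 25 → riemannZeta z = 0 →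
      ∃ j ∈ range n, ρ j = z) ∧
    ∀ s : ℂ, s.im = u → 1 - 4 / v ^ 25 ≤ s.re → s.re ≤ 1 + 24 / v ^ 25 → riemannZeta s ≠ 0 →
      ‖deriv riemannZeta s / riemannZeta s - ∑ j ∈ range n, (s - ρ j)⁻¹‖ ≤
        K * v ^ 24 * Real.log v

/-- the zero-free region -/
def ZF1_s : Prop := ∀ᶠ v : ℝ in atTop, ∀ z : ℂ, 9 ≤ z.im → z.im ≤ Real.exp (v ^ 26) / 4 →
  riemannZeta z = 0 → z.re < 1 - 4 / v ^ 25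

/-- the reciprocal of the zeta function -/
def ZF2_s : Prop := ∃ K : ℕ, ∀ᶠ v : ℝ in atTop, ∀ s : ℂ, 10 ≤ s.im →
  s.im ≤ Real.exp (v ^ 26) / 5 → 1 - 1 / v ^ 25 ≤ s.re → s.re ≤ 2 →
    riemannZeta s ≠ 0 ∧ ‖(riemannZeta s)⁻¹‖ ≤ v ^ K

/-- twisted sums of the Moebius function -/
def MU_s : Prop := ∀ κ : ℝ, 0 < κ → ∀ A : ℕ, ∃ B : ℕ, ∀ᶠ L : ℝ in atTop, ∀ (y : ℕ) (t : ℝ),
  Real.exp (κ * L) ≤ y → (y : ℝ) ≤ Real.exp (2 * L) → L ^ B ≤ |t| → |t| ≤ Real.exp L →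
    ‖∑ n ∈ Icc 1 y, (ArithmeticFunction.moebius n : ℂ) * ei (t * Real.log n)‖ ≤ y / L ^ A

/-- the prime number theorem with a logarithmic saving -/
def PNT_s : Prop := ∀ A : ℕ, ∀ᶠ x : ℕ in atTop, ∀ K : ℕ, 2 * K ≤ x →
  |∑ m ∈ Ioc (x - K) x, ArithmeticFunction.vonMangoldt m - K| ≤ x / Real.log x ^ A

/-- the weighted form of the result -/
def FIN_s : Prop := ∀ ε : ℝ, 0 < ε → ∀ δ : ℝ, 0 < δ → ∀ᶠ x : ℕ in atTop, ∀ H : ℕ,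
  (x : ℝ) ^ (9 / 16 + ε) ≤ H → 2 * H ≤ x →
    |∑ m ∈ Ioc (x - H) x, ArithmeticFunction.vonMangoldt m - H| ≤ δ * H

/-- the result -/
def MAIN_s : Prop := ∀ ε : ℝ, 0 < ε → ∀ δ : ℝ, 0 < δ → ∃ N : ℕ, ∀ x h : ℕ, N ≤ x →
  (x : ℝ) ^ (9 / 16 + ε) ≤ (h : ℝ) → h ≤ x →
    |(((Finset.Ioc x (x + h)).filter Nat.Prime).card : ℝ) - (h : ℝ) / Real.log x| ≤
      δ * ((h : ℝ) / Real.log x)

end Pool.Agent.MP_2033ac_nt.PN
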