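import Pool.Agent.MP_a404e6_nt.WB
import Pool.Agent.MP_2033ac_nt.PN.DefsV

/-! Primes in short intervals: statements on Dirichlet polynomials. -/

namespace Pool.Agent.MP_2033ac_nt.PN
open Finset Real Filter
open Pool.Agent.MP_71ac24_nt.H14 (ei)
open Pool.Agent.MP_a404e6_nt.W

/-- the truncated Moebius function -/
noncomputable def mz (z : ℕ) : AF :=
  ⟨fun n => if n ≤ z then (ArithmeticFunction.moebius n : ℝ) else 0, by simp⟩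

/-- smooth pieces -/
def Sm (C : ℝ) (f : AF) (y : ℝ) : Prop :=
  ZP C f y ∧ (3 ≤ y → ∀ t : ℝ, 1 ≤ |t| → ‖Dp f t‖ ≤ C * (exp y / t ^ 2 + |t|))

/-- short pieces of the Moebius function -/
def Mo (L : ℝ) (f : AF) (y : ℝ) : Prop := (∃ z : ℕ, f = pc (mz z) y) ∧ y ≤ L / 12 + 1

/-- the large values property -/
def LV (U : ℕ) (F : ℤ → ℝ) (y c e L : ℝ) : Prop :=
  ∀ l : ℝ, 0 ≤ l → cnt U F (exp ((1 - l) * y)) ≤ exp (e * L + (1 - c) * l * L)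

def SQ_s : Prop := ∀ (t0 : ℝ) (S : Finset ℤ), 1 ≤ t0 → (∀ t ∈ S, t0 < |(t : ℝ)|) →
  ∑ t ∈ S, 1 / (t : ℝ) ^ 2 ≤ 4 / t0

def MZ_s : Prop := ∀ κ : ℝ, 0 < κ → ∀ A : ℕ, ∃ B : ℕ, ∀ᶠ L : ℝ in atTop, ∀ (z : ℕ) (y t : ℝ),
  κ * L ≤ y → y ≤ L → L ^ B ≤ |t| → |t| ≤ exp L → ‖Dp (pc (mz z) y) t‖ ≤ exp y / L ^ A

def Z2_s : Prop := ∃ C : ℝ, 0 < C ∧ ∀ y : ℝ, Sm C (pc ze y) y ∧
  ∀ L : ℝ, 1 ≤ L → |y| ≤ L → Sm C (pc (lg L) y) y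

def HAL_s : Prop := ∀ κ : ℝ, 0 < κ → ∃ β : ℝ, 0 < β ∧ ∀ᶠ L : ℝ in atTop,
  ∀ (f : AF) (y : ℝ) (S : Finset ℤ), Bd f 1 → Sp f y (y + 1 / 20) → κ * L ≤ y →
    (∀ t ∈ S, |(t : ℝ)| ≤ exp L) →
      ∑ t ∈ S, ‖Dp f t‖ ^ 2 ≤ exp (2 * y) * (L ^ 2 + L * #S * exp (-β * y))

def LP_s : Prop := ∀ P m l r e : ℝ, 0 ≤ l → 0 ≤ e → P / 3 ≤ m → m ≤ P / 2 →
  r + 2 * ((1 - l) * m) ≤ e + max (7 * P / 16) m + m →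
  (r + 2 * ((1 - l) * m) ≤ e + 2 * m ∨ 2 * r + 8 * ((1 - l) * m) ≤ 2 * e + 7 * P / 16 + 6 * m ∨
    8 * r + 32 * ((1 - l) * m) ≤ 8 * e + 8 * (7 * P / 16) + 19 * m ∨
    2 * r + 7 * ((1 - l) * m) ≤ 2 * e + 2 * (7 * P / 16) + 4 * m) → r ≤ e + l * P

def LVA_s : Prop := ∀ κ e c : ℝ, 0 < κ → 0 < e → 0 < c → c ≤ 1 / 10 → ∀ᶠ L : ℝ in atTop,
  ∀ (f : AF) (y : ℝ) (U : ℕ), Bd f 1 → Sp f y (y + 1 / 20) → κ * L ≤ y → y ≤ (1 - c) * L / 4 →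
    (U : ℝ) ≤ exp (7 * ((1 - c) * L) / 16) → LV U (fun t => ‖Dp f t‖) y c e L

def LVZ_s : Prop := ∀ C0 e c : ℝ, 0 < e → 0 < c → c ≤ 1 / 10 → ∀ᶠ L : ℝ in atTop,
  ∀ (f : AF) (y : ℝ) (U : ℕ), ZP C0 f y → Sp f y (y + 1 / 20) → (1 - c) * L / 4 ≤ y →
    y ≤ 9 * L / 10 → (U : ℝ) ≤ exp (7 * ((1 - c) * L) / 16) → LV U (fun t => ‖Dp f t‖) y c e L

def GEN_s : Prop := ∀ c κ l0 : ℝ, 0 < κ → 48 * κ ≤ c → c ≤ 1 / 10 → 0 < l0 → l0 ≤ 1 →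
  ∀ᶠ L : ℝ in atTop, ∀ (U : ℕ) (F : Fin 24 → ℤ → ℝ) (y : Fin 24 → ℝ), (U : ℝ) ≤ exp (L / 2) →
    (∀ i t, 0 ≤ F i t) → (∀ i t, F i t ≤ exp (y i + 1 / 20)) → L - 2 ≤ ∑ i, y i →
    ∑ i, y i ≤ L + 1 → (∀ i, κ * L ≤ y i → LV U (F i) (y i) c (c * l0 / 16) L) →
      ∃ S : Finset ℤ, S ⊆ Icc (-(U : ℤ)) U ∧ (#S : ℝ) ≤ exp (2 * l0 * L) ∧
        ∑ t ∈ Icc (-(U : ℤ)) U \ S, ∏ i, F i t ≤ exp ((1 - c * l0 / 4) * L)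

def SPA_s : Prop := ∀ C0 κ : ℝ, 0 < κ → κ ≤ 1 / 300 → ∃ l0 : ℝ, 0 < l0 ∧ l0 ≤ 1 ∧ ∀ A : ℕ,
  ∃ B : ℕ, ∀ᶠ L : ℝ in atTop, ∀ (g : Fin 24 → AF) (y : Fin 24 → ℝ) (S : Finset ℤ),
    (∀ i, y i ≤ 9 * L / 10) → (∀ i, Bd (g i) 1) → (∀ i, Sp (g i) (y i) (y i + 1 / 20)) →
    (∀ i, ZP C0 (g i) (y i) ∨ Mo L (g i) (y i)) → L - 2 ≤ ∑ i, y i → ∑ i, y i ≤ L + 1 →
    (∀ t ∈ S, L ^ B < |(t : ℝ)| ∧ |(t : ℝ)| ≤ exp L) → (#S : ℝ) ≤ exp (2 * l0 * L) →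
      ∑ t ∈ S, ∏ i, ‖Dp (g i) t‖ ≤ exp L / L ^ A

def BOX_s : Prop := ∀ C0 c : ℝ, 0 < C0 → 0 < c → c ≤ 1 / 10 → ∀ A : ℕ, ∃ B : ℕ,
  ∀ᶠ L : ℝ in atTop, ∀ (g : Fin 24 → AF) (y : Fin 24 → ℝ) (U : ℕ),
    (∀ i, Bd (g i) 1) → (∀ i, Sp (g i) (y i) (y i + 1 / 20)) →
    (∀ i, Sm C0 (g i) (y i) ∨ Mo L (g i) (y i)) → L - 2 ≤ ∑ i, y i → ∑ i, y i ≤ L + 1 →
    (U : ℝ) ≤ exp (7 * ((1 - c) * L) / 16) →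
      ∑ t ∈ (Icc (-(U : ℤ)) U).filter (fun t : ℤ => L ^ B < |(t : ℝ)|), ∏ i, ‖Dp (g i) t‖ ≤
        exp L / L ^ A

def WL_s : Prop := ∀ A : ℕ, ∃ C : ℝ, 0 < C ∧ ∀ (b : AF) (σ y y' t0 a a' B D : ℝ) (U : ℕ), 0 < σ →
  σ ≤ 1 → 1 ≤ U → 1 ≤ t0 → Bd b B → Sp b a a' → (∀ t, ‖Dp b t‖ ≤ D) → y - 3 ≤ a → a' ≤ y + 3 →
    y' - 3 ≤ a → a' ≤ y' + 3 →
      |Hw σ b y - Hw σ b y'| ≤ C * (σ * t0 ^ 2 * |y - y'| * D +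
        σ * ∑ t ∈ (Icc (-(U : ℤ)) U).filter (fun t : ℤ => t0 < |(t : ℝ)|), ‖Dp b t‖ +
          B * exp a' / (σ * U) ^ (A + 1))

/-- the width of the window -/
noncomputable def sg (c L : ℝ) : ℝ := exp (-(7 * ((1 - 2 * c) * L) / 16))

def WIN_s : Prop := ∀ C0 c : ℝ, 0 < C0 → 0 < c → c ≤ 1 / 10 → ∀ A : ℕ, ∃ B : ℕ,
  ∀ᶠ L : ℝ in atTop, ∀ (g : Fin 24 → AF) (y : Fin 24 → ℝ) (w : ℝ),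
    (∀ i, Bd (g i) 1) → (∀ i, Sp (g i) (y i) (y i + 1 / 20)) →
    (∀ i, Sm C0 (g i) (y i) ∨ Mo L (g i) (y i)) → L - 1 / L ^ B ≤ w → w ≤ L →
      |Hw (sg c L) (∏ i, g i) w - Hw (sg c L) (∏ i, g i) L| ≤ sg c L * (exp L / L ^ A)

def HB_s : Prop := ∀ (z : ℕ) (L : ℝ), 1 ≤ z → 0 < L → ∃ (a : ℕ → ℝ) (g : ℕ → Fin 24 → AF),
  (∀ j, |a j| ≤ 1000 * L) ∧
    (∀ j i, (∃ z' : ℕ, g j i = mz z' ∧ Bd (g j i) 1 ∧ Sp (g j i) 0 (Real.log z)) ∨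
      g j i = ze ∨ g j i = lg L) ∧
      Eqv (12 * Real.log z) vM (∑ j ∈ range 12, a j • ∏ i, g j i)

def EE_s : Prop := ∀ c : ℝ, 0 < c → c ≤ 1 / 10 → ∀ A : ℕ, ∃ B : ℕ, ∀ᶠ L : ℝ in atTop, ∀ w : ℝ,
  L - 1 / L ^ B ≤ w → w ≤ L → |Hw (sg c L) vM w - Hw (sg c L) vM L| ≤ sg c L * (exp L / L ^ A)

end Pool.Agent.MP_2033ac_nt.PN
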