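import Pool.Agent.MP_2033ac_nt.PN.DefsV
import Pool.Agent.MP_9f080f_an.Mg.G_E2

namespace Pool.Agent.MP_2033ac_nt.PN
open Finset Filter
open Pool.Agent.MP_71ac24_nt.H14 (ei ei_add norm_ei ei_zero conj_ei norm_ei_sub)
open Pool.Agent.MP_9f080f_an
open scoped Real

/-- the Taylor coefficients of the logarithmic phase -/
noncomputable def es_A (Λ : ℝ) (k m : ℕ) (l : Fin k) : ℝ :=
  Λ * ((-1) ^ l.val / (l.val + 1) * (m : ℝ) ^ (-((l.val : ℝ) + 1)))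

lemma es_two {M h H : ℕ} (hh : h < H) (hH : H ^ 4 ≤ M) : 2 * h ≤ M := by
  rcases Nat.eq_zero_or_pos h with h0 | h0
  · omega
  · have h1 : 2 ^ 3 ≤ H ^ 3 := Nat.pow_le_pow_left (by omega) 3
    have h2 : H ^ 4 = H ^ 3 * H := by ring
    have h3 : 2 ^ 3 * H ≤ H ^ 3 * H := Nat.mul_le_mul_right _ h1
    omega

lemma es_poly (Λ : ℝ) (k m : ℕ) (hm : 0 < (m : ℝ)) (x : ℝ) :
    ∑ l, es_A Λ k m l * x ^ (l.val + 1) =
      -(Λ * ∑ i ∈ range k, (-(x / m)) ^ (i + 1) / (i + 1)) := by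
  unfold es_A
  rw [Fin.sum_univ_eq_sum_range (fun l : ℕ =>
    Λ * ((-1) ^ l / ((l : ℝ) + 1) * (m : ℝ) ^ (-((l : ℝ) + 1))) * x ^ (l + 1)) k,
    Finset.mul_sum, ← Finset.sum_neg_distrib]
  refine Finset.sum_congr rfl fun l _ => ?_
  have e : (m : ℝ) ^ (-((l : ℝ) + 1)) = ((m : ℝ) ^ (l + 1))⁻¹ := by
    rw [Real.rpow_neg hm.le, ← Real.rpow_natCast]
    push_cast
    rfl
  rw [e, neg_pow (x / m), div_pow, pow_succ (-1 : ℝ)]
  field_simp

lemma es_tay {Λ : ℝ} {R M m H : ℕ} (hM : 1 ≤ M) (hm : M ≤ m) (hH : H ^ 4 ≤ M)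
    (hF : |Λ| ≤ (M : ℝ) ^ R) :
    ‖∑ h ∈ range H, ep (2 * ((Λ * Real.log (m + h : ℕ) : ℝ) : ℂ))‖ ≤
      ‖∑ h ∈ range H, ep (2 * ((∑ l, es_A Λ (2 * R + 2) m l * (h : ℝ) ^ (l.val + 1) : ℝ) : ℂ))‖ +
        H * (2 ^ (2 * R + 7) / M) := by
  have hM' : (1 : ℝ) ≤ M := by exact_mod_cast hM
  have hm1 : (M : ℝ) ≤ m := by exact_mod_cast hm
  have hm0 : (0 : ℝ) < m := by linarith
  set c : ℝ := Λ * Real.log m with hc
  have key : ∀ h ∈ range H,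
      ‖ep (2 * ((Λ * Real.log (m + h : ℕ) : ℝ) : ℂ)) -
        ep ((2 * c : ℝ) : ℂ) *
          ep (2 * ((∑ l, es_A Λ (2 * R + 2) m l * (h : ℝ) ^ (l.val + 1) : ℝ) : ℂ))‖ ≤
        2 ^ (2 * R + 7) / M := by
    intro h hh
    have hh' := Finset.mem_range.1 hh
    rw [← ep_add]
    have e1 : (2 * ((Λ * Real.log (m + h : ℕ) : ℝ) : ℂ)) =
        ((2 * (Λ * Real.log (m + h : ℕ)) : ℝ) : ℂ) := by
      rw [Complex.ofReal_mul 2]; rfl
    have e2 : ((2 * c : ℝ) : ℂ) +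
        2 * ((∑ l, es_A Λ (2 * R + 2) m l * (h : ℝ) ^ (l.val + 1) : ℝ) : ℂ) =
        ((2 * (c + ∑ l, es_A Λ (2 * R + 2) m l * (h : ℝ) ^ (l.val + 1)) : ℝ) : ℂ) := by
      rw [Complex.ofReal_mul 2, Complex.ofReal_mul 2, Complex.ofReal_add c, mul_add]; rfl
    rw [e1, e2]
    refine (kb_ep_lip _ _).trans ?_
    have h2 : (2 : ℝ) * h ≤ M := by exact_mod_cast es_two hh' hH
    have hh0 : (0 : ℝ) ≤ h := Nat.cast_nonneg h
    have hq0 : 0 ≤ (h : ℝ) / m := by positivity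
    have hq : (h : ℝ) / m ≤ 1 / 2 := by
      rw [div_le_iff₀ hm0]; linarith
    have hab : |-((h : ℝ) / m)| = h / m := by rw [abs_neg, abs_of_nonneg hq0]
    have ht := Real.abs_log_sub_add_sum_range_le (x := -((h : ℝ) / m)) (by rw [hab]; linarith)
      (2 * R + 2)
    rw [hab] at ht
    have hy : ((h : ℝ)) ^ (2 * R + 2 + 1) ≤ (M : ℝ) ^ (R + 2) := by
      exact_mod_cast eca_pow hh' hH
    have el : Real.log (m + h : ℕ) = Real.log m + Real.log (1 - -((h : ℝ) / m)) := by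
      rw [← Real.log_mul hm0.ne' (by linarith)]
      congr 1
      push_cast
      field_simp
      ring
    have e3 : 2 * (Λ * Real.log (m + h : ℕ)) -
        2 * (c + ∑ l, es_A Λ (2 * R + 2) m l * (h : ℝ) ^ (l.val + 1)) =
        2 * (Λ * ((∑ i ∈ range (2 * R + 2), (-((h : ℝ) / m)) ^ (i + 1) / (i + 1)) +
          Real.log (1 - -((h : ℝ) / m)))) := by
      rw [es_poly Λ _ m hm0, el, hc]
      ring
    rw [e3, abs_mul, abs_mul, abs_two]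
    have h3 : ((h : ℝ) / m) ^ (2 * R + 2 + 1) / (1 - h / m) ≤
        2 * ((M : ℝ) ^ (R + 2) / (M : ℝ) ^ (2 * R + 2 + 1)) := by
      have h4 : ((h : ℝ) / m) ^ (2 * R + 2 + 1) ≤ (M : ℝ) ^ (R + 2) / (M : ℝ) ^ (2 * R + 2 + 1) := by
        rw [div_pow]
        exact div_le_div₀ (by positivity) hy (by positivity) (pow_le_pow_left₀ (by linarith) hm1 _)
      have h5 : 0 ≤ (M : ℝ) ^ (R + 2) / (M : ℝ) ^ (2 * R + 2 + 1) := by positivity
      rw [div_le_iff₀ (by linarith)]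
      nlinarith
    have h6 := mul_le_mul hF (ht.trans h3) (abs_nonneg _) (by positivity)
    have h7 : (M : ℝ) ^ R * (2 * ((M : ℝ) ^ (R + 2) / (M : ℝ) ^ (2 * R + 2 + 1))) = 2 / M := by
      field_simp
      ring
    rw [h7] at h6
    have h8 : (16 : ℝ) / M ≤ 2 ^ (2 * R + 7) / M := by
      refine div_le_div_of_nonneg_right ?_ (by linarith)
      calc (16 : ℝ) = 2 ^ 4 := by norm_num
        _ ≤ _ := pow_le_pow_right₀ (by norm_num) (by omega)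
    refine le_trans ?_ h8
    calc _ ≤ 4 * (2 * (2 / (M : ℝ))) :=
          mul_le_mul Real.pi_le_four (by linarith) (by positivity) (by norm_num)
      _ = _ := by ring
  have hs := norm_sum_le_of_le (range H) key
  rw [Finset.sum_sub_distrib, ← Finset.mul_sum, Finset.sum_const, Finset.card_range, nsmul_eq_mul] at hs
  have h2 := norm_le_insert' (∑ h ∈ range H, ep (2 * ((Λ * Real.log (m + h : ℕ) : ℝ) : ℂ)))
    (ep ((2 * c : ℝ) : ℂ) *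
      ∑ h ∈ range H, ep (2 * ((∑ l, es_A Λ (2 * R + 2) m l * (h : ℝ) ^ (l.val + 1) : ℝ) : ℂ)))
  rw [norm_mul, norm_ep_real, one_mul] at h2
  linarith

lemma es_gap {M x y L : ℝ} {l k : ℕ} (hM : 0 < M) (hx : M ≤ x) (hxy : x ≤ y) (hy : y ≤ 2 * M)
    (hL : 0 ≤ L) (hlk : l < k) :
    L * M ^ (-((l : ℝ) + 1) - 1) / 2 ^ (3 * k + 2) * (y - x) ≤
        L / (l + 1) * (x ^ (-((l : ℝ) + 1)) - y ^ (-((l : ℝ) + 1))) ∧
      L / (l + 1) * (x ^ (-((l : ℝ) + 1)) - y ^ (-((l : ℝ) + 1))) ≤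
        2 ^ (3 * k + 2) * (L * M ^ (-((l : ℝ) + 1) - 1)) * (y - x) := by
  have hl : (0 : ℝ) ≤ l := Nat.cast_nonneg l
  have hx0 : 0 < x := by linarith
  have hy0 : 0 < y := by linarith
  have hd : 0 ≤ y - x := by linarith
  obtain ⟨g1, g2⟩ := rpow_gap (e := (l : ℝ) + 1) hx0 hxy (by linarith)
  have hc : 0 ≤ L / (l + 1) := by positivity
  have hA : (1 : ℝ) ≤ 2 ^ (3 * k + 2) := one_le_pow₀ (by norm_num)
  have a1 : M ^ (-((l : ℝ) + 1) - 1) / 2 ^ (3 * k + 2) ≤ y ^ (-((l : ℝ) + 1) - 1) := by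
    refine le_trans ?_ (Real.rpow_le_rpow_of_nonpos hy0 hy (by linarith))
    rw [Real.mul_rpow (by norm_num) hM.le, div_eq_inv_mul]
    refine mul_le_mul_of_nonneg_right ?_ (Real.rpow_nonneg hM.le _)
    rw [← Real.rpow_natCast, ← Real.rpow_neg (by norm_num)]
    refine Real.rpow_le_rpow_of_exponent_le (by norm_num) ?_
    have : (l : ℝ) ≤ k := by exact_mod_cast hlk.le
    push_cast
    linarith
  have a2 : x ^ (-((l : ℝ) + 1) - 1) ≤ M ^ (-((l : ℝ) + 1) - 1) :=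
    Real.rpow_le_rpow_of_nonpos hM hx (by linarith)
  obtain ⟨P, hP⟩ : ∃ P, P = M ^ (-((l : ℝ) + 1) - 1) := ⟨_, rfl⟩
  have hP0 : 0 ≤ P := by rw [hP]; positivity
  rw [← hP] at a1 a2 ⊢
  constructor
  · refine le_trans ?_ (mul_le_mul_of_nonneg_left g1 hc)
    have e : L / (l + 1) * (((l : ℝ) + 1) * y ^ (-((l : ℝ) + 1) - 1) * (y - x)) =
        L * y ^ (-((l : ℝ) + 1) - 1) * (y - x) := by field_simp
    rw [e, mul_div_assoc]
    exact mul_le_mul_of_nonneg_right (mul_le_mul_of_nonneg_left a1 hL) hd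
  · refine (mul_le_mul_of_nonneg_left g2 hc).trans ?_
    have e : L / (l + 1) * (((l : ℝ) + 1) * x ^ (-((l : ℝ) + 1) - 1) * (y - x)) =
        L * x ^ (-((l : ℝ) + 1) - 1) * (y - x) := by field_simp
    rw [e]
    refine mul_le_mul_of_nonneg_right ?_ hd
    exact (mul_le_mul_of_nonneg_left a2 hL).trans (le_mul_of_one_le_left (by positivity) hA)

open Classical in
lemma es_mul {Λ : ℝ} {R M a b : ℕ} (hM : 2 ≤ M) (ha : M ≤ a)
    (hab : a ≤ b) (hb : b ≤ 2 * M) (hF1 : (M : ℝ) ^ (7 / 8 : ℝ) ≤ |Λ|)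
    (hF : |Λ| ≤ (M : ℝ) ^ R) : ∃ l₀ : Fin (2 * R + 2), ∀ ε β : ℝ, 0 ≤ ε →
      ε ≤ 2 * (M : ℝ) ^ (-1 / 4 : ℝ) →
      (#{m ∈ Ico a b | ∃ j : ℤ, |es_A Λ (2 * R + 2) m l₀ - β - j| ≤ ε} : ℝ) ≤
        36 * (2 ^ (3 * (2 * R + 2) + 2)) ^ 2 * (M : ℝ) ^ (7 / 8 : ℝ) := by
  have hM2 : (2 : ℝ) ≤ M := by exact_mod_cast hM
  have hM1 : (1 : ℝ) < M := by linarith
  have hM0 : (0 : ℝ) < M := by linarith
  have hF0 : 0 < |Λ| := lt_of_lt_of_le (by positivity) hF1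
  obtain ⟨φ, hφ⟩ : ∃ φ : ℝ, (M : ℝ) ^ φ = |Λ| :=
    ⟨Real.logb M |Λ|, Real.rpow_logb hM0 hM1.ne' hF0⟩
  have hφ1 : 7 / 8 ≤ φ := by
    rw [← hφ] at hF1
    exact (Real.rpow_le_rpow_left_iff hM1).1 hF1
  have hφ2 : φ ≤ R := by
    rw [← hφ, ← Real.rpow_natCast] at hF
    exact (Real.rpow_le_rpow_left_iff hM1).1 hF
  have hn1 : 2 ≤ ⌊φ + 9 / 8⌋₊ := Nat.le_floor (by push_cast; linarith)
  have hn2 : (⌊φ + 9 / 8⌋₊ : ℝ) ≤ φ + 9 / 8 := Nat.floor_le (by linarith)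
  have hn3 : φ + 9 / 8 < ⌊φ + 9 / 8⌋₊ + 1 := Nat.lt_floor_add_one _
  obtain ⟨l, hl⟩ : ∃ l, ⌊φ + 9 / 8⌋₊ = l + 2 := ⟨⌊φ + 9 / 8⌋₊ - 2, by omega⟩
  rw [hl] at hn2 hn3
  push_cast at hn2 hn3
  have hlR : l < 2 * R + 2 := by
    have h1 : (l : ℝ) < R := by linarith
    have h2 : l < R := by exact_mod_cast h1
    omega
  have hlam : |Λ| * (M : ℝ) ^ (-((l : ℝ) + 1) - 1) = (M : ℝ) ^ (φ - l - 2) := by
    rw [← hφ, ← Real.rpow_add hM0]
    congr 1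
    ring
  refine ⟨⟨l, hlR⟩, fun ε β hε0 hε => ?_⟩
  have hA : (1 : ℝ) ≤ 2 ^ (3 * (2 * R + 2) + 2) := one_le_pow₀ (by norm_num)
  have hl0 : 0 < (M : ℝ) ^ (φ - l - 2) := by positivity
  obtain ⟨σ, hσ, hσ'⟩ : ∃ σ : ℝ, (σ = 1 ∨ σ = -1) ∧ -σ * (Λ * (-1) ^ l) = |Λ| := by
    have e : |Λ| = |Λ * (-1) ^ l| := by rw [abs_mul, abs_neg_one_pow, mul_one]
    rw [e]
    rcases le_total 0 (Λ * (-1) ^ l) with h | h
    · exact ⟨-1, Or.inr rfl, by rw [abs_of_nonneg h]; ring⟩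
    · exact ⟨1, Or.inl rfl, by rw [abs_of_nonpos h]; ring⟩
  have hsp := spacing (A := a) (B := b) (g := fun m => es_A Λ (2 * R + 2) m ⟨l, hlR⟩) (σ := σ)
    (δ := (M : ℝ) ^ (φ - l - 2) / 2 ^ (3 * (2 * R + 2) + 2))
    (Δ := 2 ^ (3 * (2 * R + 2) + 2) * (M : ℝ) ^ (φ - l - 2)) (ε := ε) hσ (by positivity)
    (by positivity) hε0 hab (by
      intro m hm m' hm' hmm
      have h1 : (M : ℝ) ≤ m := by exact_mod_cast ha.trans (mem_Ico.1 hm).1
      have h2 : (m : ℝ) ≤ m' := by exact_mod_cast hmm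
      have h3 : (m' : ℝ) ≤ 2 * M := by exact_mod_cast (mem_Ico.1 hm').2.le.trans hb
      have h4 := es_gap (M := M) (x := m) (y := m') (L := |Λ|)
        (l := l) (k := 2 * R + 2) hM0 h1 h2 h3 (abs_nonneg _) hlR
      have h5 : σ * (es_A Λ (2 * R + 2) m' ⟨l, hlR⟩ - es_A Λ (2 * R + 2) m ⟨l, hlR⟩) =
          |Λ| / (l + 1) * ((m : ℝ) ^ (-((l : ℝ) + 1)) - (m' : ℝ) ^ (-((l : ℝ) + 1))) := by
        rw [← hσ']
        simp only [es_A]
        ring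
      rw [hlam, ← h5] at h4
      exact h4) β
  refine hsp.trans ?_
  have hq : (M : ℝ) ^ (-1 / 4 : ℝ) ≤ 1 := Real.rpow_le_one_of_one_le_of_nonpos hM1.le (by norm_num)
  refine ecb_num (q := (M : ℝ) ^ (-1 / 4 : ℝ)) (M := M) hA hl0
    (Real.one_le_rpow hM1.le (by norm_num)) (by positivity) hq ?_ ?_ ?_ hε0 hε ?_ hM0.le
  · rw [← Real.rpow_add_one hM0.ne']
    exact Real.rpow_le_rpow_of_exponent_le hM1.le (by linarith)
  · rw [← Real.rpow_sub hM0]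
    exact Real.rpow_le_rpow_of_exponent_le hM1.le (by linarith)
  · rw [← Real.rpow_add_one hM0.ne']
    exact Real.rpow_le_rpow_of_exponent_le hM1.le (by norm_num)
  · have h1 : (M : ℝ) ≤ a := by exact_mod_cast ha
    have h2 : (b : ℝ) ≤ 2 * M := by exact_mod_cast hb
    linarith

theorem es_sum {Λ : ℝ} {R M a b : ℕ} (hM : 1 ≤ M) (ha : M ≤ a)
    (hb : b ≤ 2 * M) (hF1 : (M : ℝ) ^ (7 / 8 : ℝ) ≤ |Λ|) (hF : |Λ| ≤ (M : ℝ) ^ R) :
    ‖∑ m ∈ Ico a b, ep (2 * ((Λ * Real.log m : ℝ) : ℂ))‖ ≤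
      2 ^ (300 * (2 * R + 2) ^ 8) * M * (M : ℝ) ^ (-1 / (256 * (2 * R + 2 : ℝ) ^ 3)) := by
  set k := 2 * R + 2 with hk
  have hk2 : 2 ≤ k := by omega
  have hkR : (2 * R + 2 : ℝ) = k := by rw [hk]; push_cast; ring
  rw [hkR]
  have hkr : (2 : ℝ) ≤ k := by exact_mod_cast hk2
  have hx : (1 : ℝ) ≤ M := by exact_mod_cast hM
  have hx0 : (0 : ℝ) < M := by linarith
  have hn : ∀ r : ℝ, ‖ep (2 * (r : ℂ))‖ = 1 := fun r => by
    rw [show (2 * (r : ℂ)) = ((2 * r : ℝ) : ℂ) by push_cast; ring, norm_ep_real]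
  have hcard : ((Ico a b).card : ℝ) ≤ M := by
    rw [Nat.card_Ico]
    exact_mod_cast (by omega : b - a ≤ M)
  have hk3 : (8 : ℝ) ≤ (k : ℝ) ^ 3 := by
    calc (8 : ℝ) = 2 ^ 3 := by norm_num
      _ ≤ _ := by gcongr
  have hkk : (k : ℝ) ≤ (k : ℝ) ^ 3 := le_self_pow₀ (by linarith) (by norm_num)
  set t : ℝ := (M : ℝ) ^ (-1 / (256 * (k : ℝ) ^ 3)) with ht
  have ht0 : 0 < t := by positivity
  have hup : ∀ e : ℝ, e ≤ 61 / 64 → (M : ℝ) ^ e ≤ M * t := fun e he => by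
    have : (M : ℝ) * t = (M : ℝ) ^ (1 + -1 / (256 * (k : ℝ) ^ 3)) := by
      rw [Real.rpow_add hx0, Real.rpow_one]
    rw [this]
    refine Real.rpow_le_rpow_of_exponent_le hx ?_
    have : 1 / (256 * (k : ℝ) ^ 3) ≤ 1 / 64 := one_div_le_one_div_of_le (by norm_num) (by linarith)
    rw [neg_div]
    linarith
  have hdn : ∀ c : ℝ, 0 < c → c ≤ 256 * (k : ℝ) ^ 3 → (M : ℝ) ^ (-1 / c) ≤ t := fun c hc h => by
    refine Real.rpow_le_rpow_of_exponent_le hx ?_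
    rw [neg_div, neg_div, neg_le_neg_iff]
    exact one_div_le_one_div_of_le hc h
  rcases le_or_gt (M : ℝ) (2 ^ (64 * k)) with hs | hs
  · have h1 : ‖∑ m ∈ Ico a b, ep (2 * ((Λ * Real.log m : ℝ) : ℂ))‖ ≤ M := by
      refine (norm_sum_le _ _).trans ?_
      simp only [hn, sum_const, nsmul_eq_mul, mul_one]
      exact hcard
    have h2 : (1 / 2 : ℝ) ≤ t := by
      have e : (0 : ℝ) < 256 * (k : ℝ) ^ 3 := by positivity
      have h3 : ((2 : ℝ) ^ (64 * k)) ^ (-1 / (256 * (k : ℝ) ^ 3)) ≤ t :=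
        Real.rpow_le_rpow_of_nonpos hx0 hs (by rw [neg_div]; simp)
      refine le_trans ?_ h3
      rw [← Real.rpow_natCast, ← Real.rpow_mul (by norm_num), one_div, ← Real.rpow_neg_one]
      refine Real.rpow_le_rpow_of_exponent_le (by norm_num) ?_
      push_cast
      rw [← mul_div_assoc, le_div_iff₀ e]
      linarith
    have h4 : (2 : ℝ) ^ 1 ≤ 2 ^ (300 * k ^ 8) := pow_le_pow_right₀ (by norm_num) (by
      have : 1 ≤ k ^ 8 := Nat.one_le_pow _ _ (by omega)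
      omega)
    calc _ ≤ (M : ℝ) := h1
      _ = 2 ^ 1 * M * (1 / 2) := by ring
      _ ≤ _ := by gcongr
  rcases lt_or_ge b a with hab | hab
  · rw [Ico_eq_empty_of_le hab.le, sum_empty, norm_zero]
    positivity
  have hM2 : 2 ≤ M := by
    have : (2 : ℝ) ^ 1 ≤ 2 ^ (64 * k) := pow_le_pow_right₀ (by norm_num) (by omega)
    have : (2 : ℝ) ≤ M := by linarith
    exact_mod_cast this
  set y : ℝ := (M : ℝ) ^ (1 / 4 : ℝ) with hy
  have hy1 : 1 ≤ y := Real.one_le_rpow hx (by norm_num)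
  set H := ⌊y⌋₊ with hH
  have hH1 : 1 ≤ H := Nat.le_floor (by exact_mod_cast hy1)
  have hHr : (1 : ℝ) ≤ H := by exact_mod_cast hH1
  have hHy : (H : ℝ) ≤ y := Nat.floor_le (by linarith)
  have hyH : y ≤ 2 * H := by
    have := Nat.lt_floor_add_one y
    rw [← hH] at this
    linarith
  have hH4 : H ^ 4 ≤ M := by
    have : (H : ℝ) ^ 4 ≤ y ^ 4 := by gcongr
    rw [hy, ← Real.rpow_natCast ((M : ℝ) ^ (1 / 4 : ℝ)), ← Real.rpow_mul hx0.le] at this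
    norm_num at this
    exact_mod_cast this
  set s := k * (k + 3 * k ^ 2) with hsd
  have hs1 : 1 ≤ s := Nat.mul_pos (by omega) (by omega)
  have hsr : (s : ℝ) ≤ 4 * (k : ℝ) ^ 3 := by
    rw [hsd]
    push_cast
    nlinarith [mul_nonneg (sq_nonneg (k : ℝ)) (by linarith : (0 : ℝ) ≤ k - 1)]
  have hs0 : (0 : ℝ) < s := by exact_mod_cast hs1
  set ε : ℝ := (M : ℝ) ^ (-1 / (64 * k) : ℝ) with hε
  set ρ : ℝ := (M : ℝ) ^ (-1 / (64 * s) : ℝ) with hρ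
  have hε0 : 0 < ε := by positivity
  have hρ0 : 0 < ρ := by positivity
  have hεt : ε ≤ t := hdn _ (by positivity) (by linarith)
  have hρt : ρ ≤ t := hdn _ (by positivity) (by linarith)
  have hε2 : ε ≤ 1 / 2 := by
    have h3 : ε ≤ ((2 : ℝ) ^ (64 * k)) ^ (-1 / (64 * k) : ℝ) :=
      Real.rpow_le_rpow_of_nonpos (by positivity) hs.le (by rw [neg_div]; simp)
    refine h3.trans (le_of_eq ?_)
    rw [← Real.rpow_natCast, ← Real.rpow_mul (by norm_num), one_div, ← Real.rpow_neg_one]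
    congr 1
    push_cast
    field_simp
  obtain ⟨l₀, hl⟩ := es_mul hM2 ha hab hb hF1 hF
  have hg := grid (s := s) hs1 hH1 (Ico a b) (es_A Λ k) l₀ hε0 hε2 hρ0 fun β => hl _ β
    (by positivity) (by
      have h1 : (H : ℝ) ≤ (H : ℝ) ^ (l₀.val + 1) := le_self_pow₀ hHr (by omega)
      have h2 : (M : ℝ) ^ (-1 / 4 : ℝ) = 1 / y := by
        rw [neg_div, Real.rpow_neg hx0.le, one_div y]
      rw [h2, mul_one_div, div_le_div_iff₀ (by positivity) (by positivity)]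
      nlinarith)
  have hl := ec_last (μ := 36 * (2 ^ (3 * k + 2)) ^ 2) hx (by omega : 1 ≤ k) hs1 hHr hHy
    (by positivity) (by positivity) (vmvt' hk2 hH1)
  rw [← hε, ← hρ] at hl
  have hsh := shift_avg (fun m : ℕ => ep (2 * ((Λ * Real.log m : ℝ) : ℂ)))
    (fun m => (hn _).le) (a := a) (b := b) hH1
  have hty : ∑ m ∈ Ico a b, ‖∑ h ∈ range H,
        ep (2 * ((Λ * Real.log (m + h : ℕ) : ℝ) : ℂ))‖ ≤
      ∑ m ∈ Ico a b, ‖∑ h ∈ range H,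
        ep (2 * ((∑ l, es_A Λ k m l * (h : ℝ) ^ (l.val + 1) : ℝ) : ℂ))‖ + H * 2 ^ (k + 5) := by
    refine (sum_le_sum fun m hm => es_tay hM (ha.trans (mem_Ico.1 hm).1) hH4 hF).trans ?_
    rw [sum_add_distrib, sum_const, nsmul_eq_mul, show 2 * R + 7 = k + 5 by omega]
    refine add_le_add le_rfl ?_
    calc _ ≤ (M : ℝ) * (H * (2 ^ (k + 5) / M)) := by gcongr
      _ = _ := by field_simp
  refine hsh.trans ?_
  have h1 := hup 0 (by norm_num)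
  rw [Real.rpow_zero] at h1
  have h2 := hup (1 / 4) (by norm_num)
  have h3 := hup _ le_rfl
  set Z := (36 * (2 ^ (3 * k + 2)) ^ 2 * (M : ℝ) ^ (7 / 8 : ℝ) *
    ((Jv s k H : ℝ) * (H : ℝ) ^ (k * (k + 1) / 2)) / (ε ^ k * (H * ρ) ^ (2 * s - 1))) with hZ
  have hπ := Real.pi_pos
  calc _ ≤ (#(Ico a b) * (H * ρ + 4 * π * k * ε * H) + Z + H * 2 ^ (k + 5)) / H + 2 * H := by
        gcongr
        exact hty.trans (by linarith)
    _ = #(Ico a b) * (ρ + 4 * π * k * ε) + Z / H + 2 ^ (k + 5) * 1 + 2 * H := by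
        field_simp
    _ ≤ M * (t + 4 * π * k * t) +
        36 * (2 ^ (3 * k + 2)) ^ 2 * 2 ^ (240 * k ^ 8) * (M * t) + 2 ^ (k + 5) * (M * t) +
          2 * (M * t) := by
        gcongr
        · exact hl.trans (by gcongr)
        · exact hHy.trans h2
    _ = (1 + 4 * π * k + 36 * (2 ^ (3 * k + 2)) ^ 2 * 2 ^ (240 * k ^ 8) + 2 ^ (k + 5) + 2) *
        (M * t) := by ring
    _ ≤ 2 ^ (300 * k ^ 8) * (M * t) :=
        mul_le_mul_of_nonneg_right (ec_const hk2) (by positivity)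
    _ = _ := by ring


theorem es_row : ES_s := by
  intro t R M a b hM ha hb h1 h2
  have hπ := Real.pi_pos
  have e : ∀ m : ℕ, ei (t * Real.log m) = ep (2 * ((t / (2 * π) * Real.log m : ℝ) : ℂ)) := fun m => by
    have hp : (π : ℂ) ≠ 0 := by exact_mod_cast hπ.ne'
    unfold ei ep
    congr 1
    push_cast
    field_simp
  have ea : |t / (2 * π)| = |t| / (2 * π) := by rw [abs_div, abs_of_pos (by positivity : 0 < 2 * π)]
  simp only [e]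
  refine es_sum hM ha hb ?_ ?_
  · rw [ea, le_div_iff₀ (by positivity)]
    have h3 : 0 ≤ (M : ℝ) ^ (7 / 8 : ℝ) := by positivity
    nlinarith [Real.pi_lt_d2]
  · rw [ea]
    exact (div_le_self (abs_nonneg _) (by linarith [Real.pi_gt_three])).trans h2

end Pool.Agent.MP_2033ac_nt.PN
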