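import Pool.Agent.MP_2033ac_nt.PN.DefsW

namespace Pool.Agent.MP_2033ac_nt.PN
open Finset Real Filter
open Pool.Agent.MP_71ac24_nt.H14 (ei ei_add norm_ei ei_zero conj_ei norm_ei_sub)
open Pool.Agent.MP_71ac24_nt Pool.Agent.MP_a404e6_nt.W

/-- smooth functions that vanish outside `[0, 2]` -/
def z2_P (φ : ℝ → ℝ) : Prop := ContDiff ℝ (⊤ : ℕ∞) φ ∧ ∀ v, v < 0 ∨ 2 < v → φ v = 0

theorem z2_der {φ : ℝ → ℝ} (h : z2_P φ) : z2_P (deriv φ) := by
  refine ⟨(contDiff_infty_iff_deriv.1 h.1).2, fun v hv => ?_⟩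
  have e : φ =ᶠ[nhds v] fun _ => 0 := by
    rcases hv with g | g
    · filter_upwards [Iio_mem_nhds g] with w hw using h.2 w (.inl hw)
    · filter_upwards [Ioi_mem_nhds g] with w hw using h.2 w (.inr hw)
  rw [e.deriv_eq, deriv_const]

theorem z2_bd {φ : ℝ → ℝ} (h : z2_P φ) : ∃ K : ℝ, 0 ≤ K ∧ ∀ v, ‖(φ v : ℂ)‖ ≤ K := by
  obtain ⟨K, hK⟩ := (isCompact_Icc (a := (0 : ℝ)) (b := 2)).exists_bound_of_continuousOn
    h.1.continuous.continuousOn
  have K0 : 0 ≤ K := (norm_nonneg _).trans (hK 0 ⟨le_rfl, by norm_num⟩)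
  refine ⟨K, K0, fun v => ?_⟩
  rw [Complex.norm_real]
  by_cases g : v < 0 ∨ 2 < v
  · rw [h.2 v g, norm_zero]; exact K0
  · exact hK v ⟨not_lt.1 fun a => g (.inl a), not_lt.1 fun a => g (.inr a)⟩

theorem z2_hd {φ : ℝ → ℝ} (h : z2_P φ) (y : ℝ) {x : ℝ} (hx : 0 < x) :
    HasDerivAt (fun x : ℝ => (φ (40 * (Real.log x - y)) : ℂ))
      (((deriv φ (40 * (Real.log x - y)) : ℝ) : ℂ) * (40 / x)) x := by
  have h1 : HasDerivAt (fun x : ℝ => 40 * (Real.log x - y)) (40 * x⁻¹) x :=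
    ((Real.hasDerivAt_log hx.ne').sub_const y).const_mul 40
  have h2 : HasDerivAt φ (deriv φ (40 * (Real.log x - y))) (40 * (Real.log x - y)) :=
    ((h.1.differentiable (by simp)) _).hasDerivAt
  have h3 := (h2.comp x h1).ofReal_comp
  refine h3.congr_deriv ?_
  push_cast
  ring

theorem z2_he (t : ℝ) {x : ℝ} (hx : 0 < x) :
    HasDerivAt (fun x : ℝ => ei (t * Real.log x))
      (ei (t * Real.log x) * (Complex.I * t / x)) x := by
  have h1 : HasDerivAt (fun x : ℝ => t * Real.log x) (t * x⁻¹) x :=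
    (Real.hasDerivAt_log hx.ne').const_mul t
  have h2 := ((h1.ofReal_comp).const_mul Complex.I).cexp
  refine h2.congr_deriv ?_
  rw [ei]
  push_cast
  ring

theorem z2_step {G G1 G2 : ℝ → ℂ} {B : ℝ} (h1 : ∀ x, 0 < x → HasDerivAt G (G1 x) x)
    (h2 : ∀ x, 0 < x → HasDerivAt G1 (G2 x) x) (hB : ∀ x, 0 < x → ‖G2 x‖ ≤ B) {a : ℝ}
    (ha : 0 < a) : ‖G (a + 1) - G a - G1 a‖ ≤ B := by
  have B0 : 0 ≤ B := (norm_nonneg _).trans (hB a ha)
  have m0 : a ∈ Set.Icc a (a + 1) := ⟨le_rfl, by linarith⟩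
  have k1 : ∀ x ∈ Set.Icc a (a + 1), ‖G1 x - G1 a‖ ≤ B := fun x hx => by
    have := (convex_Icc a (a + 1)).norm_image_sub_le_of_norm_hasDerivWithin_le (f := G1) (f' := G2)
      (fun z hz => (h2 z (ha.trans_le hz.1)).hasDerivWithinAt)
      (fun z hz => hB z (ha.trans_le hz.1)) m0 hx
    refine this.trans (mul_le_of_le_one_right B0 ?_)
    rw [Real.norm_eq_abs, abs_le]
    constructor <;> linarith [hx.1, hx.2]
  have := (convex_Icc a (a + 1)).norm_image_sub_le_of_norm_hasDerivWithin_le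
    (f := fun x : ℝ => G x - (x : ℂ) * G1 a) (f' := fun x => G1 x - G1 a)
    (fun z hz => by
      have k := (h1 z (ha.trans_le hz.1)).sub (((hasDerivAt_id z).ofReal_comp).mul_const (G1 a))
      exact (k.congr_deriv (by simp)).hasDerivWithinAt) k1 m0 ⟨by linarith, le_rfl⟩
  rw [add_sub_cancel_left, norm_one, mul_one] at this
  refine le_trans (le_of_eq ?_) this
  congr 1
  push_cast
  ring

theorem z2_sum {φ : ℝ → ℝ} (h : z2_P φ) : ∃ C : ℝ, 0 ≤ C ∧ ∀ y t : ℝ, 3 ≤ y → 1 ≤ |t| →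
    ‖∑ n ∈ Icc 1 ⌊exp (y + 1 / 20)⌋₊, (φ (40 * (Real.log n - y)) : ℂ) * ei (t * Real.log n)‖ ≤
      C * (exp y / t ^ 2 + |t|) := by
  have p1 := z2_der h
  have p2 := z2_der p1
  have p3 := z2_der p2
  obtain ⟨K0, a0, b0⟩ := z2_bd h
  obtain ⟨K1, a1, b1⟩ := z2_bd p1
  obtain ⟨K2, a2, b2⟩ := z2_bd p2
  obtain ⟨K3, a3, b3⟩ := z2_bd p3
  refine ⟨2 * (K0 + 1600 * K2 + 40 * K1 + 64000 * K3), by positivity, fun y t hy ht => ?_⟩
  obtain ⟨a, ha⟩ : ∃ a : ℂ, a = 1 + Complex.I * t := ⟨_, rfl⟩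
  have at1 : |t| ≤ ‖a‖ := by
    have := Complex.abs_im_le_norm a
    rwa [show a.im = t by rw [ha]; simp] at this
  have an : a ≠ 0 := norm_pos_iff.1 (by linarith)
  have ai : ‖(a ^ 2)⁻¹‖ ≤ (t ^ 2)⁻¹ := by
    rw [norm_inv, norm_pow, ← sq_abs t]
    gcongr
  have t2 : (t ^ 2)⁻¹ ≤ 1 := inv_le_one_of_one_le₀ (by rw [← sq_abs]; nlinarith)
  obtain ⟨E, hE⟩ : ∃ E : ℝ → ℂ, E = fun x => ei (t * Real.log x) := ⟨_, rfl⟩
  obtain ⟨W, hW⟩ : ∃ W : (ℝ → ℝ) → ℝ → ℂ, W = fun ψ x => (ψ (40 * (Real.log x - y)) : ℂ) :=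
    ⟨_, rfl⟩
  have dE : ∀ x, 0 < x → HasDerivAt E (E x * (Complex.I * t / x)) x := fun x hx => by
    rw [hE]; exact z2_he t hx
  have dW : ∀ ψ, z2_P ψ → ∀ x, 0 < x → HasDerivAt (W ψ) (W (deriv ψ) x * (40 / x)) x :=
    fun ψ hψ x hx => by rw [hW]; exact z2_hd hψ y hx
  have nE : ∀ x, ‖E x‖ = 1 := fun x => by rw [hE]; exact norm_ei _
  have zW : ∀ ψ, z2_P ψ → ∀ x, Real.log x < y ∨ y + 1 / 20 < Real.log x → W ψ x = 0 :=
    fun ψ hψ x hx => by
      rw [hW]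
      exact Complex.ofReal_eq_zero.2 (hψ.2 _ (hx.imp (fun g => by linarith) fun g => by linarith))
  have c0 : ∀ x, ‖W φ x‖ ≤ K0 := fun x => by rw [hW]; exact b0 _
  have c1 : ∀ x, ‖W (deriv φ) x‖ ≤ K1 := fun x => by rw [hW]; exact b1 _
  have c2 : ∀ x, ‖W (deriv (deriv φ)) x‖ ≤ K2 := fun x => by rw [hW]; exact b2 _
  have c3 : ∀ x, ‖W (deriv (deriv (deriv φ))) x‖ ≤ K3 := fun x => by rw [hW]; exact b3 _
  obtain ⟨G, hG⟩ : ∃ G : ℝ → ℂ, G = fun x : ℝ => (x : ℂ) * E x *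
    (W φ x * a⁻¹ - 40 * W (deriv φ) x * (a ^ 2)⁻¹) := ⟨_, rfl⟩
  obtain ⟨G1, hG1⟩ : ∃ G1 : ℝ → ℂ, G1 = fun x : ℝ => E x *
    (W φ x - 1600 * W (deriv (deriv φ)) x * (a ^ 2)⁻¹) := ⟨_, rfl⟩
  obtain ⟨G2, hG2⟩ : ∃ G2 : ℝ → ℂ, G2 = fun x : ℝ => E x * (x : ℂ)⁻¹ *
    (Complex.I * t * (W φ x - 1600 * W (deriv (deriv φ)) x * (a ^ 2)⁻¹) +
      (40 * W (deriv φ) x - 64000 * W (deriv (deriv (deriv φ))) x * (a ^ 2)⁻¹)) := ⟨_, rfl⟩
  have d1 : ∀ x, 0 < x → HasDerivAt G (G1 x) x := fun x hx => by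
    have xn : (x : ℂ) ≠ 0 := Complex.ofReal_ne_zero.2 hx.ne'
    have k := (((hasDerivAt_id x).ofReal_comp).mul (dE x hx)).mul
      (((dW _ h x hx).mul_const a⁻¹).sub (((dW _ p1 x hx).const_mul 40).mul_const (a ^ 2)⁻¹))
    rw [hG, hG1]
    refine HasDerivAt.congr_deriv k ?_
    have e : Complex.I * t = a - 1 := by rw [ha]; ring
    simp only [Pi.mul_apply, Pi.sub_apply, id, Complex.ofReal_one, e]
    field_simp
    ring
  have d2 : ∀ x, 0 < x → HasDerivAt G1 (G2 x) x := fun x hx => by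
    have k := (dE x hx).mul
      ((dW _ h x hx).sub (((dW _ p2 x hx).const_mul 1600).mul_const (a ^ 2)⁻¹))
    rw [hG1, hG2]
    refine HasDerivAt.congr_deriv k ?_
    simp only [Pi.sub_apply]
    ring
  have u : ∀ (p q : ℂ) (A B c d : ℝ), 0 ≤ c → 0 ≤ d → ‖p‖ ≤ A → ‖q‖ ≤ B →
      ‖c * p - d * q * (a ^ 2)⁻¹‖ ≤ c * A + d * B := fun p q A B c d hc hd hp hq => by
    refine (norm_sub_le _ _).trans ?_
    rw [norm_mul, norm_mul, norm_mul, Complex.norm_real, Complex.norm_real, norm_of_nonneg hc,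
      norm_of_nonneg hd]
    have := (norm_nonneg _).trans hq
    have k : d * ‖q‖ * ‖(a ^ 2)⁻¹‖ ≤ d * B * 1 := by gcongr; exact ai.trans t2
    have k' : c * ‖p‖ ≤ c * A := by gcongr
    linarith
  obtain ⟨K, hK⟩ : ∃ K : ℝ, K = K0 + 1600 * K2 + 40 * K1 + 64000 * K3 := ⟨_, rfl⟩
  have Kp : 0 ≤ K := by rw [hK]; positivity
  have b : ∀ x, 0 < x → ‖G2 x‖ ≤ K * |t| * exp (-y) := fun x hx => by
    rw [hG2]
    rcases lt_or_ge (Real.log x) y with g | g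
    · simp only [zW _ h x (.inl g), zW _ p1 x (.inl g), zW _ p2 x (.inl g), zW _ p3 x (.inl g),
        mul_zero, zero_mul, sub_zero, add_zero, norm_zero]
      positivity
    have u1 := u _ _ _ _ 1 1600 (by norm_num) (by norm_num) (c0 x) (c2 x)
    have u2 := u _ _ _ _ 40 64000 (by norm_num) (by norm_num) (c1 x) (c3 x)
    push_cast at u1 u2
    rw [one_mul, one_mul] at u1
    have xi : x⁻¹ ≤ exp (-y) := by
      rw [exp_neg]
      exact inv_anti₀ (exp_pos _) ((le_log_iff_exp_le hx).1 g)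
    simp only [norm_mul, nE, one_mul, norm_inv, Complex.norm_real, norm_of_nonneg hx.le]
    rw [mul_comm]
    refine mul_le_mul ((norm_add_le _ _).trans ?_) xi (by positivity) (by positivity)
    rw [norm_mul, norm_mul, Complex.norm_I, one_mul, Complex.norm_real, Real.norm_eq_abs, hK]
    have k1 := mul_le_mul_of_nonneg_left u1 (abs_nonneg t)
    have k2 : 0 ≤ (|t| - 1) * (40 * K1 + 64000 * K3) := by
      have : 0 ≤ |t| - 1 := by linarith
      positivity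
    nlinarith
  obtain ⟨N, hN⟩ : ∃ N, N = ⌊exp (y + 1 / 20)⌋₊ := ⟨_, rfl⟩
  have tel : ∑ n ∈ Icc 1 N, (G ((n : ℝ) + 1) - G n) = 0 := by
    have e : ∀ M : ℕ, ∑ n ∈ Icc 1 M, (G ((n : ℝ) + 1) - G n) = G ((M : ℝ) + 1) - G 1 := fun M => by
      induction M with
      | zero => simp
      | succ M ih => rw [sum_Icc_succ_top (by omega), ih]; push_cast; ring
    have g1 : Real.log 1 < y := by rw [log_one]; linarith
    have g2 : y + 1 / 20 < Real.log ((N : ℝ) + 1) := by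
      rw [lt_log_iff_exp_lt (by positivity), hN]
      exact Nat.lt_floor_add_one _
    rw [e, hG]
    simp only [zW _ h _ (.inl g1), zW _ p1 _ (.inl g1), zW _ h _ (.inr g2), zW _ p1 _ (.inr g2),
      mul_zero, zero_mul, sub_zero]
  have one : ∀ n ∈ Icc 1 N, ‖W φ n * E n - (G ((n : ℝ) + 1) - G n)‖ ≤
      K * |t| * exp (-y) + 1600 * K2 * (t ^ 2)⁻¹ := fun n hn => by
    have n0 : (0 : ℝ) < n := by exact_mod_cast (mem_Icc.1 hn).1
    have s := z2_step d1 d2 b n0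
    have e : W φ n * E n - (G ((n : ℝ) + 1) - G n) = -(G ((n : ℝ) + 1) - G n - G1 n) +
        E n * (1600 * W (deriv (deriv φ)) n * (a ^ 2)⁻¹) := by
      rw [hG1]; ring
    rw [e]
    refine (norm_add_le _ _).trans (add_le_add (by rwa [norm_neg]) ?_)
    rw [norm_mul, nE, one_mul, norm_mul, norm_mul, Complex.norm_ofNat]
    have := c2 n
    gcongr
  have fin := norm_sum_le_of_le _ one
  rw [sum_sub_distrib, tel, sub_zero, sum_const, Nat.card_Icc, Nat.add_sub_cancel,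
    nsmul_eq_mul] at fin
  rw [← hN, ← hK]
  rw [hW, hE] at fin
  refine fin.trans ?_
  have N2 : (N : ℝ) ≤ 2 * exp y := by
    rw [hN]
    refine (Nat.floor_le (exp_pos _).le).trans ?_
    rw [exp_add, mul_comm]
    refine mul_le_mul_of_nonneg_right ?_ (exp_pos _).le
    have := Real.exp_bound_div_one_sub_of_interval (x := 1 / 20) (by norm_num) (by norm_num)
    linarith [show (1 : ℝ) / (1 - 1 / 20) ≤ 2 by norm_num]
  refine (mul_le_mul_of_nonneg_right N2 (by positivity)).trans ?_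
  have e1 : exp y * exp (-y) = 1 := by rw [← exp_add]; simp
  have k3 : 1600 * K2 ≤ K := by rw [hK]; linarith
  have k4 : 0 ≤ exp y * (t ^ 2)⁻¹ := by positivity
  calc _ = 2 * (K * |t| * (exp y * exp (-y)) + 1600 * K2 * (exp y * (t ^ 2)⁻¹)) := by ring
    _ ≤ 2 * (K * |t| * 1 + K * (exp y * (t ^ 2)⁻¹)) := by rw [e1]; gcongr
    _ = _ := by rw [div_eq_mul_inv]; ring

theorem z2_mono {C D : ℝ} (h : C ≤ D) {f : AF} {y : ℝ} (hf : ZP C f y) : ZP D f y := by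
  obtain ⟨c, h1, h2⟩ := hf
  exact ⟨c, fun u => (h1 u).trans (by gcongr), fun U n a b d => (h2 U n a b d).trans (by gcongr)⟩

theorem z2_row : Z2_s := by
  obtain ⟨C0, c0, hz⟩ := zp
  obtain ⟨C, hC, H⟩ := z2_sum (φ := ps) ⟨ps_smooth, fun v h => ps_zero (h.imp le_of_lt le_of_lt)⟩
  obtain ⟨D, hD, G⟩ := z2_sum (φ := fun s => s * ps s) ⟨contDiff_id.mul ps_smooth,
    fun v h => mul_eq_zero_of_right _ (ps_zero (h.imp le_of_lt le_of_lt))⟩
  have key : ∀ (f : AF) (y α β : ℝ), |α| ≤ 1 → |β| ≤ 1 → (∀ n : ℕ, n ≠ 0 →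
      f n = α + β * (40 * (Real.log n - y))) → 3 ≤ y → ∀ t : ℝ, 1 ≤ |t| →
        ‖Dp (pc f y) t‖ ≤ (C0 + C + D) * (exp y / t ^ 2 + |t|) := by
    intro f y α β ha hb hf hy t ht
    have k : ∀ a b : ℂ, ‖α * a + β * b‖ ≤ ‖a‖ + ‖b‖ := fun a b => (norm_add_le _ _).trans (by
      rw [norm_mul, norm_mul, Complex.norm_real, Complex.norm_real]
      exact add_le_add (mul_le_of_le_one_left (norm_nonneg _) ha)
        (mul_le_of_le_one_left (norm_nonneg _) hb))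
    rw [Dp_eq fun _ => (pc_sp f y).zero]
    refine (le_of_eq ?_).trans ((k _ _).trans ((add_le_add (H y t hy ht) (G y t hy ht)).trans ?_))
    · rw [mul_sum, mul_sum, ← sum_add_distrib]
      refine congrArg _ (sum_congr rfl fun n hn => ?_)
      rw [pc_apply, hf n (by have := (mem_Icc.1 hn).1; omega)]
      push_cast
      ring
    · have : 0 ≤ C0 * (exp y / t ^ 2 + |t|) := by positivity
      linarith
  have hm : C0 ≤ C0 + C + D := by linarith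
  refine ⟨C0 + C + D, by positivity, fun y => ⟨⟨z2_mono hm (hz y).1,
    key _ y 1 0 (by simp) (by simp) fun n hn => by simp [hn]⟩,
    fun L L1 hy => ⟨z2_mono hm ((hz y).2 L L1 hy), key _ y (y / L) (1 / (40 * L)) ?_ ?_ fun n _ => ?_⟩⟩⟩
  · rwa [abs_div, abs_of_pos (by linarith : 0 < L), div_le_one (by linarith)]
  · rw [abs_of_pos (by positivity), div_le_one (by positivity)]
    linarith
  · change Real.log n / L = _
    field_simp
    ring

end Pool.Agent.MP_2033ac_nt.PN
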